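import Mathlib

set_option autoImplicit false

/-!
# A lemma on traces

Let `y` be an invertible matrix, `𝔥` a set of matrices stable under the conjugation by `y⁻¹`, `W` a
space of matrices stable under the conjugation by `y` and under the brackets with the elements
of `𝔥`. If no nonzero element of `W` commutes with `y`, then `W` is orthogonal, for the trace form,
to `y` times the associative algebra generated by `𝔥`.
-/

open Matrix

noncomputable section

namespace Pool.Agent.Helper5.TrKey

variable {N : Type} [Fintype N] [DecidableEq N] {𝔥 : Set (Matrix N N ℂ)}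
  {W : Submodule ℂ (Matrix N N ℂ)} {y y' : Matrix N N ℂ}

/-- The conjugation minus the identity is surjective on `W`. -/
theorem surj (hy' : y' * y = 1) (hb : ∀ Z ∈ W, y * Z * y' ∈ W)
    (hd : ∀ Z ∈ W, y * Z = Z * y → Z = 0) {Z : Matrix N N ℂ} (hZ : Z ∈ W) :
    ∃ Z' ∈ W, Z = y * Z' * y' - Z' := by
  let f : Matrix N N ℂ →ₗ[ℂ] Matrix N N ℂ :=
    (LinearMap.mulLeft ℂ y).comp (LinearMap.mulRight ℂ y') - LinearMap.id
  have hf : ∀ Z, f Z = y * Z * y' - Z := by
    intro Z
    change y * (Z * y') - Z = _
    rw [mul_assoc]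
  have hfW : ∀ Z ∈ W, f Z ∈ W := by
    intro Z hZ
    rw [hf]
    exact W.sub_mem (hb Z hZ) hZ
  have hinj : Function.Injective (f.restrict hfW) := by
    rw [← LinearMap.ker_eq_bot, LinearMap.ker_eq_bot']
    rintro ⟨Z, hZ⟩ h0
    have h1 : f Z = 0 := congrArg Subtype.val h0
    rw [hf, sub_eq_zero] at h1
    have h2 : y * Z = Z * y := by
      calc y * Z = y * Z * (y' * y) := by rw [hy', mul_one]
        _ = (y * Z * y') * y := by simp only [mul_assoc]
        _ = Z * y := by rw [h1]
    exact Subtype.ext (hd Z hZ h2)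
  obtain ⟨⟨Z', hZ'⟩, h1⟩ := LinearMap.surjective_of_injective hinj ⟨Z, hZ⟩
  refine ⟨Z', hZ', ?_⟩
  have h2 : f Z' = Z := congrArg Subtype.val h1
  rw [← h2, hf]

theorem prod_conj (hy : y * y' = 1) (hy' : y' * y = 1) (L : List (Matrix N N ℂ)) :
    (L.map fun X => y' * X * y).prod = y' * L.prod * y := by
  induction L with
  | nil => rw [List.map_nil, List.prod_nil, mul_one, hy']
  | cons a L ih =>
    rw [List.map_cons, List.prod_cons, List.prod_cons, ih]
    calc y' * a * y * (y' * L.prod * y) = y' * a * (y * y') * L.prod * y := by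
          simp only [mul_assoc]
      _ = y' * (a * L.prod) * y := by rw [hy, mul_one]; simp only [mul_assoc]

theorem key (hy : y * y' = 1) (hy' : y' * y = 1)
    (ha : ∀ X ∈ 𝔥, ∀ Z ∈ W, X * Z - Z * X ∈ W) (hb : ∀ Z ∈ W, y * Z * y' ∈ W)
    (hc : ∀ X ∈ 𝔥, y' * X * y ∈ 𝔥) (hd : ∀ Z ∈ W, y * Z = Z * y → Z = 0) :
    ∀ (k : ℕ) (L : List (Matrix N N ℂ)), L.length = k → (∀ X ∈ L, X ∈ 𝔥) →
      ∀ Z ∈ W, (Z * y * L.prod).trace = 0 := by
  intro k
  induction k with
  | zero =>
    intro L hL _ Z hZ
    obtain ⟨Z', hZ', rfl⟩ := surj hy' hb hd hZ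
    rw [List.length_eq_zero_iff.1 hL, List.prod_nil, mul_one, sub_mul, Matrix.trace_sub,
      mul_assoc, hy', mul_one, Matrix.trace_mul_comm, sub_self]
  | succ k ih =>
    -- rotation
    have hrot : ∀ (L K : List (Matrix N N ℂ)), K.length + L.length = k + 1 →
        (∀ X ∈ L, X ∈ 𝔥) → (∀ X ∈ K, X ∈ 𝔥) → ∀ Z ∈ W,
        (Z * y * ((K.map fun X => y' * X * y).prod * L.prod)).trace =
          (Z * y * ((L.map fun X => y' * X * y).prod *
            (K.map fun X => y' * X * y).prod)).trace := by
      intro L
      induction L using List.reverseRecOn with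
      | nil =>
        intro K _ _ _ Z _
        rw [List.map_nil, List.prod_nil, mul_one, one_mul]
      | append_singleton L X ihL =>
        intro K hK hL hK' Z hZ
        have hX : X ∈ 𝔥 := hL X (by simp)
        have hL' : ∀ X ∈ L, X ∈ 𝔥 := fun X hX => hL X (by simp [hX])
        have e1 := ih ((K.map fun X => y' * X * y) ++ L) (by
            rw [List.length_append, List.length_map]
            rw [List.length_append, List.length_singleton] at hK
            omega) (by
            intro Y hY
            rcases List.mem_append.1 hY with h | h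
            · obtain ⟨Y', h1, rfl⟩ := List.mem_map.1 h
              exact hc _ (hK' _ h1)
            · exact hL' _ h) _ (ha X hX Z hZ)
        rw [List.prod_append] at e1
        generalize hbdef : (K.map fun X => y' * X * y).prod * L.prod = b at e1
        have e2 : (Z * y * (b * X)).trace = (Z * y * ((y' * X * y) * b)).trace := by
          have e3 : (X * Z * y * b).trace = (Z * X * y * b).trace := by
            rw [sub_mul, sub_mul, Matrix.trace_sub, sub_eq_zero] at e1
            exact e1
          calc (Z * y * (b * X)).trace = ((Z * y * b) * X).trace := by simp only [mul_assoc]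
            _ = (X * (Z * y * b)).trace := Matrix.trace_mul_comm _ _
            _ = (X * Z * y * b).trace := by simp only [mul_assoc]
            _ = (Z * X * y * b).trace := e3
            _ = (Z * ((y * y') * X * y) * b).trace := by rw [hy, one_mul]; simp only [mul_assoc]
            _ = (Z * y * ((y' * X * y) * b)).trace := by simp only [mul_assoc]
        have e4 := ihL (X :: K) (by
            rw [List.length_append, List.length_singleton] at hK
            rw [List.length_cons]
            omega) hL' (by
            intro Y hY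
            rcases List.mem_cons.1 hY with h | h
            · rw [h]; exact hX
            · exact hK' _ h) Z hZ
        rw [List.map_cons, List.prod_cons] at e4
        rw [List.prod_append, List.prod_singleton, ← mul_assoc (K.map _).prod, hbdef, e2, ← hbdef,
          List.map_append, List.map_singleton, List.prod_append, List.prod_singleton]
        rw [mul_assoc (y' * X * y)] at e4
        rw [e4]
        simp only [mul_assoc]
    intro L hL hL' Z hZ
    obtain ⟨Z', hZ', rfl⟩ := surj hy' hb hd hZ
    have e1 := hrot L [] (by rw [List.length_nil, zero_add, hL]) hL' (by simp) Z' hZ'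
    rw [List.map_nil, List.prod_nil, one_mul, mul_one, prod_conj hy hy'] at e1
    have e2 : (Z' * y * (y' * L.prod * y)).trace = (Z' * L.prod * y).trace := by
      congr 1
      calc Z' * y * (y' * L.prod * y) = Z' * (y * y') * L.prod * y := by simp only [mul_assoc]
        _ = Z' * L.prod * y := by rw [hy, mul_one]
    rw [e2] at e1
    rw [sub_mul, sub_mul, Matrix.trace_sub, e1, sub_eq_zero]
    calc (y * Z' * y' * y * L.prod).trace = (y * (Z' * L.prod)).trace := by
          rw [mul_assoc (y * Z'), hy', mul_one, mul_assoc]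
      _ = (Z' * L.prod * y).trace := Matrix.trace_mul_comm _ _

/-- The combinations of products of elements of `𝔥`. -/
def PS (𝔥 : Set (Matrix N N ℂ)) : Submodule ℂ (Matrix N N ℂ) :=
  Submodule.span ℂ {a | ∃ L : List (Matrix N N ℂ), (∀ X ∈ L, X ∈ 𝔥) ∧ a = L.prod}

theorem one_mem_PS : (1 : Matrix N N ℂ) ∈ PS 𝔥 :=
  Submodule.subset_span ⟨[], by simp, by rw [List.prod_nil]⟩

theorem mem_PS {X : Matrix N N ℂ} (hX : X ∈ 𝔥) : X ∈ PS 𝔥 :=
  Submodule.subset_span ⟨[X], by simpa using hX, by rw [List.prod_singleton]⟩

theorem mul_mem_PS {a b : Matrix N N ℂ} (ha : a ∈ PS 𝔥) (hb : b ∈ PS 𝔥) : a * b ∈ PS 𝔥 := by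
  induction ha using Submodule.span_induction with
  | mem a ha =>
    obtain ⟨L, hL, rfl⟩ := ha
    induction hb using Submodule.span_induction with
    | mem b hb =>
      obtain ⟨K, hK, rfl⟩ := hb
      refine Submodule.subset_span ⟨L ++ K, fun X hX => ?_, by rw [List.prod_append]⟩
      rcases List.mem_append.1 hX with h | h
      · exact hL X h
      · exact hK X h
    | zero => rw [mul_zero]; exact Submodule.zero_mem _
    | add a b _ _ ha hb => rw [mul_add]; exact Submodule.add_mem _ ha hb
    | smul c a _ ha => rw [mul_smul_comm]; exact Submodule.smul_mem _ c ha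
  | zero => rw [zero_mul]; exact Submodule.zero_mem _
  | add a b _ _ ha hb => rw [add_mul]; exact Submodule.add_mem _ ha hb
  | smul c a _ ha => rw [smul_mul_assoc]; exact Submodule.smul_mem _ c ha

theorem key' (hy : y * y' = 1) (hy' : y' * y = 1)
    (ha : ∀ X ∈ 𝔥, ∀ Z ∈ W, X * Z - Z * X ∈ W) (hb : ∀ Z ∈ W, y * Z * y' ∈ W)
    (hc : ∀ X ∈ 𝔥, y' * X * y ∈ 𝔥) (hd : ∀ Z ∈ W, y * Z = Z * y → Z = 0)
    {Z a : Matrix N N ℂ} (hZ : Z ∈ W) (h : a ∈ PS 𝔥) : (Z * y * a).trace = 0 := by
  induction h using Submodule.span_induction with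
  | mem a h =>
    obtain ⟨L, hL, rfl⟩ := h
    exact key hy hy' ha hb hc hd L.length L rfl hL Z hZ
  | zero => rw [mul_zero, Matrix.trace_zero]
  | add a b _ _ ha hb => rw [mul_add, Matrix.trace_add, ha, hb, add_zero]
  | smul c a _ ha => rw [mul_smul_comm, Matrix.trace_smul, ha, smul_zero]

end Pool.Agent.Helper5.TrKey
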