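import Pool.Graph.R_pool_sql_team_seeded_63374d34.N208.AD.CenB
import Pool.Agent.Helper5.TrKey

set_option autoImplicit false
set_option linter.unusedSectionVars false

/-!
# Elements of the Hodge group which normalize a group which contains the periods
-/

open Module Function TensorProduct Matrix

noncomputable section

namespace Pool.Agent.Helper5.ER

open Pool.Agent.Y102 Pool.Agent.W516.DR Pool.Agent.H204R3.GP Pool.Agent.W516.KC
  Pool.Agent.H204R3.SP Pool.Agent.TH119.MX Pool.Agent.R917 Pool.Agent.N208.AM Pool.Agent.N208.AD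
  Pool.Agent.Helper5.TrKey

variable {g : ℕ} {A : AbVar g} {s n : ℕ} {r : Fin s → ℕ} {B : Fin n → Ten A r} {w : Fin s → ℤ}
  {P : Matrix (Fin n) (Fin n) ℂ} {H : Set (Matrix (Fin n) (Fin n) ℂ)}
  {Wt : Matrix (Fin n) (Fin n) ℚ}

/-! ### Components -/

theorem map_mul_cq {m : ℕ} (f : ℂ →ₗ[ℚ] ℚ) (a : Matrix (Fin m) (Fin m) ℂ)
    (M : Matrix (Fin m) (Fin m) ℚ) : (a * cq M).map f = a.map f * M := by
  have hq : ∀ (z : ℂ) (q : ℚ), f (z * (q : ℂ)) = f z * q := by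
    intro z q
    have h3 : z * (q : ℂ) = q • z := by rw [Rat.smul_def, mul_comm]
    rw [h3, map_smul, smul_eq_mul, mul_comm]
  ext i j
  rw [Matrix.map_apply, Matrix.mul_apply, Matrix.mul_apply, map_sum]
  refine Finset.sum_congr rfl fun k _ => ?_
  change f (a i k * ((M k j : ℚ) : ℂ)) = f (a i k) * M k j
  rw [hq]

theorem trace_map {m : ℕ} (f : ℂ →ₗ[ℚ] ℚ) (a : Matrix (Fin m) (Fin m) ℂ) :
    (a.map f).trace = f a.trace := by
  rw [Matrix.trace, Matrix.trace, map_sum]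
  rfl

theorem map_add' {m : ℕ} (f : ℂ →ₗ[ℚ] ℚ) (a b : Matrix (Fin m) (Fin m) ℂ) :
    (a + b).map f = a.map f + b.map f := by
  ext i j
  simp

theorem map_smul_cq {m : ℕ} (f : ℂ →ₗ[ℚ] ℚ) (c : ℂ) (M : Matrix (Fin m) (Fin m) ℚ) :
    (c • cq M).map f = f c • M := by
  ext i j
  change f (c * ((M i j : ℚ) : ℂ)) = f c * M i j
  have h3 : c * ((M i j : ℚ) : ℂ) = M i j • c := by rw [Rat.smul_def, mul_comm]
  rw [h3, map_smul, smul_eq_mul, mul_comm]

theorem trace_mv (X : Module.End ℚ A.H1) : (mv X).trace = LinearMap.trace ℚ A.H1 X :=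
  (LinearMap.trace_eq_matrix_trace ℚ A.bas X).symm

/-- A trace of a product of rational elements. -/
theorem trace_mul_map (f : ℂ →ₗ[ℚ] ℚ) {Y : Matrix (Fin (2 * g)) (Fin (2 * g)) ℂ}
    {X X' : Module.End ℚ A.H1} (h : mv X = Y.map f) :
    LinearMap.trace ℚ A.H1 (X * X') = f (Y * cq (mv X')).trace := by
  rw [← trace_mv, mv_mul, h, ← map_mul_cq, trace_map]

/-! ### The Lie algebra of the group on the level of the abelian variety -/

/-- The complex elements of the Lie algebra which are in the Lie algebra of the group, up to a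
multiple of the weight. -/
def hC (B : Fin n → Ten A r) (Wt : Matrix (Fin n) (Fin n) ℚ)
    (H : Set (Matrix (Fin n) (Fin n) ℂ)) : Set (Matrix (Fin (2 * g)) (Fin (2 * g)) ℂ) :=
  {Y | ∃ Z, (Y, Z) ∈ GG B A.NA ∧ ∃ c : ℂ, ∀ d, Stab H d (Zᵀ + c • cq Wt)}

theorem qM_hC {X : Module.End ℚ A.H1} (hX : X ∈ qM B Wt H) : cq (mv X) ∈ hC B Wt H := by
  obtain ⟨h1, M, hM, c, hc⟩ := hX
  refine ⟨(cq M)ᵀ, mem_GG h1 hM, (c : ℂ), fun d => ?_⟩
  rw [Matrix.transpose_transpose, ← cq_smul, ← cq_add]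
  exact hc d

/-- The rational components. -/
theorem hC_map (hG : AlgGrp QQ H) {Y : Matrix (Fin (2 * g)) (Fin (2 * g)) ℂ}
    (hY : Y ∈ hC B Wt H) (f : ℂ →ₗ[ℚ] ℚ) : ∃ X ∈ qM B Wt H, mv X = Y.map f := by
  obtain ⟨Z, hZ, c, hc⟩ := hY
  obtain ⟨X, hX, M, hM, h1, h2⟩ := GG_map hZ f
  refine ⟨X, ⟨hX, M, hM, f c, fun d => ?_⟩, h1⟩
  have h3 := hG.stab_map (lamF f) (hc d)
  have h4 : (Zᵀ + c • cq Wt).map (lamF f) = (M + f c • Wt).map fun q => (q : ℂ) := by
    have h5 : (Zᵀ + c • cq Wt).map f = M + f c • Wt := by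
      rw [map_add', map_smul_cq]
      congr 1
      rw [← Matrix.transpose_transpose M, h2]
      rfl
    rw [← h5]
    ext i j
    rw [Matrix.map_apply, Matrix.map_apply, Matrix.map_apply, lamF_apply]
  rwa [h4] at h3

/-- The rational matrices which commute with the Lie algebra. -/
def CC (A : AbVar g) : Set (Matrix (Fin (2 * g)) (Fin (2 * g)) ℚ) :=
  {E | ∀ X ∈ A.NA, E * mv X = mv X * E}

/-- The products of the elements of the algebra generated by the subalgebra. -/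
theorem adjoin_PS {Q : Module.End ℚ A.H1}
    (hQ : Q ∈ Algebra.adjoin ℚ (qM B Wt H : Set (Module.End ℚ A.H1))) :
    cq (mv Q) ∈ PS (hC B Wt H) := by
  refine Algebra.adjoin_induction (p := fun Q _ => cq (mv Q) ∈ PS (hC B Wt H)) ?_ ?_ ?_ ?_ hQ
  · intro X hX
    exact mem_PS (qM_hC hX)
  · intro c
    have h1 : mv (algebraMap ℚ (Module.End ℚ A.H1) c) = c • (1 : Matrix _ _ ℚ) := by
      have h2 : algebraMap ℚ (Module.End ℚ A.H1) c = c • (1 : Module.End ℚ A.H1) :=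
        Algebra.algebraMap_eq_smul_one c
      rw [h2, mv_smul]
      congr 1
      exact LinearMap.toMatrix_one A.bas
    rw [h1, cq_smul]
    refine Submodule.smul_mem _ _ ?_
    have h2 : cq (1 : Matrix (Fin (2 * g)) (Fin (2 * g)) ℚ) = 1 :=
      Matrix.map_one _ Rat.cast_zero Rat.cast_one
    rw [h2]
    exact one_mem_PS
  · intro a b _ _ ha hb
    rw [mv_add, cq_add]
    exact Submodule.add_mem _ ha hb
  · intro a b _ _ ha hb
    rw [mv_mul, cq_mul]
    exact mul_mem_PS ha hb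

/-- A complex matrix which commutes with the rational commutant is a combination of products of
elements of the Lie algebra of the group. -/
theorem bic_PS (hq : A.Full (qM B Wt H)) {a : Matrix (Fin (2 * g)) (Fin (2 * g)) ℂ}
    (ha : ∀ E ∈ CC A, a * cq E = cq E * a) : a ∈ PS (hC B Wt H) := by
  have h1 := mem_span_cent ha
  refine (Submodule.span_le.2 ?_) h1
  rintro _ ⟨E, hE, rfl⟩
  obtain ⟨Q, rfl⟩ := mv_surj (A := A) E
  refine adjoin_PS (mem_adjoin_of_comm hq.semi fun P' hP' => ?_)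
  have h2 := hq.comm P' hP'
  have h3 : mv P' ∈ CC A := fun X hX => by rw [← mv_mul, ← mv_mul, h2 X hX]
  apply mv_inj
  rw [mv_mul, mv_mul, hE _ h3]

/-! ### Lifts -/

theorem Lift.mul' {y y' : GL (Fin (2 * g)) ℂ} {x x' : GL (Fin n) ℂ} (h : Lift B y x)
    (h' : Lift B y' x') : Lift B (y * y') (x * x') := by
  refine ⟨fun K hK => ?_, fun p hp => ?_⟩
  · rw [Units.val_mul, mul_assoc, h'.ker K hK, ← mul_assoc, h.ker K hK, mul_assoc]
  · have h1 := h.conj _ (h'.conj p hp)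
    rw [_root_.mul_inv_rev, _root_.mul_inv_rev, Units.val_mul, Units.val_mul, Units.val_mul,
      Units.val_mul, ← Prod.mk_mul_mk, ← Prod.mk_mul_mk]
    simpa only [mul_assoc] using h1

/-- The group of the elements which lift to elements of the algebra generated by the Lie
algebra. -/
def LG2 (B : Fin n → Ten A r) : Subgroup (GL (Fin n) ℂ) where
  carrier := {x | ∃ y : GL (Fin (2 * g)) ℂ, Lift B y x ∧ Lift B y⁻¹ x⁻¹ ∧ y ∈ cent (CC A)}
  one_mem' := by
    have h : Lift B (1 : GL (Fin (2 * g)) ℂ) (1 : GL (Fin n) ℂ) := by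
      refine ⟨fun K _ => by rw [Units.val_one, one_mul, mul_one], fun p hp => ?_⟩
      rw [inv_one, inv_one, Units.val_one, Units.val_one, ← Prod.one_eq_mk, one_mul, mul_one]
      exact hp
    exact ⟨1, h, by rwa [inv_one, inv_one], Subgroup.one_mem _⟩
  mul_mem' := by
    rintro x x' ⟨y, h1, h2, h3⟩ ⟨y', h1', h2', h3'⟩
    refine ⟨y * y', Lift.mul' h1 h1', ?_, Subgroup.mul_mem _ h3 h3'⟩
    rw [_root_.mul_inv_rev, _root_.mul_inv_rev]
    exact Lift.mul' h2' h2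
  inv_mem' := by
    rintro x ⟨y, h1, h2, h3⟩
    exact ⟨y⁻¹, h2, by rwa [inv_inv, inv_inv], Subgroup.inv_mem _ h3⟩

theorem eG_mem_LG2 (h : Mot w B P) {Z : Matrix (Fin n) (Fin n) ℂ}
    (hZ : Z ∈ Submodule.span ℂ {y | ∃ X ∈ A.NA, ∃ M, Rel B X M ∧ y = (cq M)ᵀ}) :
    eG Z ∈ LG2 B := by
  obtain ⟨Y, hY⟩ := exists_lift h hZ
  refine ⟨eG Y, exp_lift h hY, ?_, fun E hE => comm_exp ?_⟩
  · rw [neg_eG, neg_eG]
    exact exp_lift h (Submodule.neg_mem _ hY)
  · have h1 : Y ∈ Submodule.span ℂ {y | ∃ X ∈ perpI A (kerM B), y = cq (mv X)} := fst_mem hY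
    clear hY
    induction h1 using Submodule.span_induction with
    | mem Y hY =>
      obtain ⟨X, hX, rfl⟩ := hY
      rw [← cq_mul, ← cq_mul, hE X (perpI_le _ hX)]
    | zero => rw [zero_mul, mul_zero]
    | add a b _ _ ha hb => rw [add_mul, mul_add, ha, hb]
    | smul c a _ ha => rw [smul_mul_assoc, mul_smul_comm, ha]

theorem tr_mem2 (h : Mot w B P) {x : GL (Fin n) ℂ} (hx : x ∈ HG B) :
    ∃ y ∈ LG2 B, (y : Matrix (Fin n) (Fin n) ℂ) = (x : Matrix (Fin n) (Fin n) ℂ)ᵀ ∧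
      ((y⁻¹ : GL (Fin n) ℂ) : Matrix (Fin n) (Fin n) ℂ) =
        ((x⁻¹ : GL (Fin n) ℂ) : Matrix (Fin n) (Fin n) ℂ)ᵀ := by
  have key : ∀ {x y : GL (Fin n) ℂ}, (y : Matrix (Fin n) (Fin n) ℂ) =
      (x : Matrix (Fin n) (Fin n) ℂ)ᵀ → ((y⁻¹ : GL (Fin n) ℂ) : Matrix (Fin n) (Fin n) ℂ) =
        ((x⁻¹ : GL (Fin n) ℂ) : Matrix (Fin n) (Fin n) ℂ)ᵀ := by
    intro x y hxy
    have h3 : ((x⁻¹ : GL (Fin n) ℂ) : Matrix (Fin n) (Fin n) ℂ)ᵀ *
        (y : Matrix (Fin n) (Fin n) ℂ) = 1 := by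
      rw [hxy, ← Matrix.transpose_mul, Units.mul_inv, Matrix.transpose_one]
    calc ((y⁻¹ : GL (Fin n) ℂ) : Matrix (Fin n) (Fin n) ℂ)
        = ((x⁻¹ : GL (Fin n) ℂ) : Matrix (Fin n) (Fin n) ℂ)ᵀ * y * (y⁻¹ : GL (Fin n) ℂ) := by
          rw [h3, one_mul]
      _ = ((x⁻¹ : GL (Fin n) ℂ) : Matrix (Fin n) (Fin n) ℂ)ᵀ := by
          rw [mul_assoc, Units.mul_inv, mul_one]
  have h0 : ∃ y ∈ LG2 B, (y : Matrix (Fin n) (Fin n) ℂ) =
      (x : Matrix (Fin n) (Fin n) ℂ)ᵀ := by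
    induction hx using Subgroup.closure_induction with
    | mem x hx =>
      obtain ⟨Z, hZ, hxZ⟩ := hx
      refine ⟨eG Zᵀ, eG_mem_LG2 h ?_, ?_⟩
      · clear hxZ
        induction hZ using Submodule.span_induction with
        | mem Z hZ =>
          obtain ⟨X, hX, M, hM, rfl⟩ := hZ
          exact Submodule.subset_span ⟨X, hX, M, hM, rfl⟩
        | zero => rw [Matrix.transpose_zero]; exact Submodule.zero_mem _
        | add a b _ _ ha hb => rw [Matrix.transpose_add]; exact Submodule.add_mem _ ha hb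
        | smul c a _ ha => rw [Matrix.transpose_smul]; exact Submodule.smul_mem _ c ha
      · rw [eG_val, hxZ, Matrix.exp_transpose]
    | one => exact ⟨1, Subgroup.one_mem _, by rw [Units.val_one, Matrix.transpose_one]⟩
    | mul x y _ _ hx hy =>
      obtain ⟨x', h1, h2⟩ := hx
      obtain ⟨y', h3, h4⟩ := hy
      exact ⟨y' * x', Subgroup.mul_mem _ h3 h1, by
        rw [Units.val_mul, Units.val_mul, h2, h4, Matrix.transpose_mul]⟩
    | inv x _ hx =>
      obtain ⟨x', h1, h2⟩ := hx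
      exact ⟨x'⁻¹, Subgroup.inv_mem _ h1, key h2⟩
  obtain ⟨y, h1, h2⟩ := h0
  exact ⟨y, h1, h2, key h2⟩

end Pool.Agent.Helper5.ER
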