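import Pool.Agent.Helper5.EqRank

set_option autoImplicit false
set_option linter.unusedSectionVars false

/-!
# Elements of the Hodge group which normalize a group which contains the periods: proofs
-/

open Module Function TensorProduct Matrix

noncomputable section

namespace Pool.Agent.Helper5.ER

open Pool.Agent.Y102 Pool.Agent.W516.DR Pool.Agent.H204R3.GP Pool.Agent.W516.KC
  Pool.Agent.H204R3.SP Pool.Agent.TH119.MX Pool.Agent.R917 Pool.Agent.N208.AM Pool.Agent.N208.AD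
  Pool.Agent.Helper5.TrKey

variable {g : ℕ} {A : AbVar g} {s n : ℕ} {r : Fin s → ℕ} {B : Fin n → Ten A r} {w : Fin s → ℤ}
  {P : Matrix (Fin n) (Fin n) ℂ} {H : Set (Matrix (Fin n) (Fin n) ℂ)}
  {Wt : Matrix (Fin n) (Fin n) ℚ}

/-- The weights commute with the second components. -/
theorem GG_wt (h : Mot w B P) (hW : WRel w B Wt)
    {p : Matrix (Fin (2 * g)) (Fin (2 * g)) ℂ × Matrix (Fin n) (Fin n) ℂ} (hp : p ∈ GG B A.NA) :
    p.2ᵀ * cq Wt = cq Wt * p.2ᵀ := by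
  induction hp using Submodule.span_induction with
  | mem p hp =>
    obtain ⟨X, hX, M, hM, rfl⟩ := hp
    change ((cq M)ᵀ)ᵀ * cq Wt = cq Wt * ((cq M)ᵀ)ᵀ
    rw [Matrix.transpose_transpose, ← cq_mul, ← cq_mul, WRel.comm h.li hM hW]
  | zero => rw [Prod.snd_zero, Matrix.transpose_zero, zero_mul, mul_zero]
  | add a b _ _ ha hb =>
    rw [Prod.snd_add, Matrix.transpose_add, add_mul, mul_add, ha, hb]
  | smul c a _ ha =>
    rw [Prod.smul_snd, Matrix.transpose_smul, smul_mul_assoc, mul_smul_comm, ha]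

/-- The decomposition of a pair. -/
theorem GG_dec (h : Mot w B P)
    {p : Matrix (Fin (2 * g)) (Fin (2 * g)) ℂ × Matrix (Fin n) (Fin n) ℂ} (hp : p ∈ GG B A.NA) :
    ∃ K, (K, (0 : Matrix (Fin n) (Fin n) ℂ)) ∈ GG B (kerM B) ∧
      ∃ q ∈ GG B (perpI A (kerM B)), p = (K, 0) + q := by
  have hk : kerM B ≤ A.NA := fun X hX => hX.1
  induction hp using Submodule.span_induction with
  | mem p hp =>
    obtain ⟨X, hX, M, hM, rfl⟩ := hp
    obtain ⟨K, hK, X', hX', rfl⟩ := perpI_dec hk (kerM_ideal h) hX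
    obtain ⟨M', hM'⟩ := h.st X' (perpI_le _ hX')
    have h1 := (hK.2.add hM').uniq h.li hM
    rw [zero_add] at h1
    have h0 : pr K (0 : Matrix (Fin n) (Fin n) ℚ) = (cq (mv K), 0) := by
      unfold pr
      rw [cq_zero, Matrix.transpose_zero]
    refine ⟨cq (mv K), ?_, pr X' M', mem_GG hX' hM', ?_⟩
    · rw [← h0]
      exact mem_GG hK hK.2
    · unfold pr
      rw [← h1, mv_add, cq_add, Prod.mk_add_mk, zero_add]
  | zero => exact ⟨0, Submodule.zero_mem _, 0, Submodule.zero_mem _, by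
      rw [add_zero]; rfl⟩
  | add a b _ _ ha hb =>
    obtain ⟨K, hK, q, hq, rfl⟩ := ha
    obtain ⟨K', hK', q', hq', rfl⟩ := hb
    refine ⟨K + K', ?_, q + q', Submodule.add_mem _ hq hq', ?_⟩
    · have h1 := Submodule.add_mem _ hK hK'
      rwa [Prod.mk_add_mk, add_zero] at h1
    · have e1 : (K + K', (0 : Matrix (Fin n) (Fin n) ℂ)) = (K, 0) + (K', 0) := by
        rw [Prod.mk_add_mk, add_zero]
      rw [e1]
      abel
  | smul c a _ ha =>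
    obtain ⟨K, hK, q, hq, rfl⟩ := ha
    refine ⟨c • K, ?_, c • q, Submodule.smul_mem _ _ hq, ?_⟩
    · have h1 := Submodule.smul_mem _ c hK
      rwa [Prod.smul_mk, smul_zero] at h1
    · rw [smul_add, Prod.smul_mk, smul_zero]

/-- The elements which act trivially commute with the lift. -/
theorem ker_comm {y : GL (Fin (2 * g)) ℂ} {x : GL (Fin n) ℂ} (hl : Lift B y x)
    {p : Matrix (Fin (2 * g)) (Fin (2 * g)) ℂ × Matrix (Fin n) (Fin n) ℂ}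
    (hp : p ∈ GG B (kerM B)) :
    (y : Matrix (Fin (2 * g)) (Fin (2 * g)) ℂ) * p.1 = p.1 * y := by
  induction hp using Submodule.span_induction with
  | mem p hp =>
    obtain ⟨K, hK, M, hM, rfl⟩ := hp
    exact hl.ker K hK
  | zero => rw [Prod.fst_zero, mul_zero, zero_mul]
  | add a b _ _ ha hb => rw [Prod.fst_add, mul_add, add_mul, ha, hb]
  | smul c a _ ha => rw [Prod.smul_fst, mul_smul_comm, smul_mul_assoc, ha]

/-- The situation: an element `x` of the Hodge group whose conjugation respects the Lie algebra of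
the group. -/
structure Sit (B : Fin n → Ten A r) (H : Set (Matrix (Fin n) (Fin n) ℂ)) (x : GL (Fin n) ℂ)
    (y : GL (Fin (2 * g)) ℂ) (x₀ : GL (Fin n) ℂ) : Prop where
  l1 : Lift B y x₀
  l2 : Lift B y⁻¹ x₀⁻¹
  c : y ∈ cent (CC A)
  t1 : (x₀ : Matrix (Fin n) (Fin n) ℂ) = (x : Matrix (Fin n) (Fin n) ℂ)ᵀ
  t2 : ((x₀⁻¹ : GL (Fin n) ℂ) : Matrix (Fin n) (Fin n) ℂ) =
    ((x⁻¹ : GL (Fin n) ℂ) : Matrix (Fin n) (Fin n) ℂ)ᵀ
  wt : x ∈ cent {Wt}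
  st : ∀ Z : Matrix (Fin n) (Fin n) ℂ, (∀ d, Stab H d Z) → ∀ d, Stab H d
    ((x : Matrix (Fin n) (Fin n) ℂ) * Z * ((x⁻¹ : GL (Fin n) ℂ) : Matrix (Fin n) (Fin n) ℂ))

variable {x : GL (Fin n) ℂ} {y : GL (Fin (2 * g)) ℂ} {x₀ : GL (Fin n) ℂ}

/-- The conjugate of an element of the Lie algebra. -/
theorem conj_NA (h : Mot w B P) (hS : Sit (Wt := Wt) B H x y x₀)
    {Y : Matrix (Fin (2 * g)) (Fin (2 * g)) ℂ} {Z : Matrix (Fin n) (Fin n) ℂ}
    (hp : (Y, Z) ∈ GG B A.NA) :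
    (((y⁻¹ : GL (Fin (2 * g)) ℂ) : Matrix (Fin (2 * g)) (Fin (2 * g)) ℂ) * Y *
        (y : Matrix (Fin (2 * g)) (Fin (2 * g)) ℂ),
      ((x₀⁻¹ : GL (Fin n) ℂ) : Matrix (Fin n) (Fin n) ℂ) * Z *
        (x₀ : Matrix (Fin n) (Fin n) ℂ)) ∈ GG B A.NA := by
  obtain ⟨K, hK, q, hq, hpq⟩ := GG_dec h hp
  obtain ⟨q1, q2⟩ := q
  rw [Prod.mk_add_mk, zero_add, Prod.mk.injEq] at hpq
  obtain ⟨rfl, rfl⟩ := hpq
  have h1 := hS.l2.conj _ hq
  rw [inv_inv, inv_inv, Prod.mk_mul_mk, Prod.mk_mul_mk] at h1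
  have h2 : ((y⁻¹ : GL (Fin (2 * g)) ℂ) : Matrix (Fin (2 * g)) (Fin (2 * g)) ℂ) * K *
      (y : Matrix (Fin (2 * g)) (Fin (2 * g)) ℂ) = K := by
    have h3 : ((y⁻¹ : GL (Fin (2 * g)) ℂ) : Matrix (Fin (2 * g)) (Fin (2 * g)) ℂ) * K =
      K * ((y⁻¹ : GL (Fin (2 * g)) ℂ) : Matrix (Fin (2 * g)) (Fin (2 * g)) ℂ) :=
      ker_comm hS.l2 hK
    rw [h3, mul_assoc, Units.inv_mul, mul_one]
  have hk : kerM B ≤ A.NA := fun X hX => hX.1
  have h3 := Submodule.add_mem _ (GG_le hk hK) (GG_le (perpI_le _) h1)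
  rw [Prod.mk_add_mk, zero_add] at h3
  rw [mul_add, add_mul, h2]
  exact h3

theorem hC_conj (h : Mot w B P) (hS : Sit (Wt := Wt) B H x y x₀)
    {Y : Matrix (Fin (2 * g)) (Fin (2 * g)) ℂ} (hY : Y ∈ hC B Wt H) :
    ((y⁻¹ : GL (Fin (2 * g)) ℂ) : Matrix (Fin (2 * g)) (Fin (2 * g)) ℂ) * Y *
      (y : Matrix (Fin (2 * g)) (Fin (2 * g)) ℂ) ∈ hC B Wt H := by
  obtain ⟨Z, hZ, c, hc⟩ := hY
  have hw : (x : Matrix (Fin n) (Fin n) ℂ) * cq Wt = cq Wt * x := hS.wt Wt (Set.mem_singleton _)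
  have h1 := hS.st _ hc
  have e1 : (((x₀⁻¹ : GL (Fin n) ℂ) : Matrix (Fin n) (Fin n) ℂ) * Z *
      (x₀ : Matrix (Fin n) (Fin n) ℂ))ᵀ = (x : Matrix (Fin n) (Fin n) ℂ) * Zᵀ *
        ((x⁻¹ : GL (Fin n) ℂ) : Matrix (Fin n) (Fin n) ℂ) := by
    rw [hS.t1, hS.t2, Matrix.transpose_mul, Matrix.transpose_mul, Matrix.transpose_transpose,
      Matrix.transpose_transpose, mul_assoc]
  have e2 : (x : Matrix (Fin n) (Fin n) ℂ) * (c • cq Wt) *
      ((x⁻¹ : GL (Fin n) ℂ) : Matrix (Fin n) (Fin n) ℂ) = c • cq Wt := by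
    rw [mul_smul_comm, smul_mul_assoc, hw, mul_assoc, Units.mul_inv, mul_one]
  have h2 : (x : Matrix (Fin n) (Fin n) ℂ) * (Zᵀ + c • cq Wt) *
      ((x⁻¹ : GL (Fin n) ℂ) : Matrix (Fin n) (Fin n) ℂ) =
      (((x₀⁻¹ : GL (Fin n) ℂ) : Matrix (Fin n) (Fin n) ℂ) * Z *
        (x₀ : Matrix (Fin n) (Fin n) ℂ))ᵀ + c • cq Wt := by
    rw [mul_add, add_mul, e1, e2]
  rw [h2] at h1
  have e3 : (((y⁻¹ : GL (Fin (2 * g)) ℂ) : Matrix (Fin (2 * g)) (Fin (2 * g)) ℂ) * Y *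
      (y : Matrix (Fin (2 * g)) (Fin (2 * g)) ℂ),
      ((x₀⁻¹ : GL (Fin n) ℂ) : Matrix (Fin n) (Fin n) ℂ) * Z *
        (x₀ : Matrix (Fin n) (Fin n) ℂ)) ∈ GG B A.NA := conj_NA h hS hZ
  exact ⟨((x₀⁻¹ : GL (Fin n) ℂ) : Matrix (Fin n) (Fin n) ℂ) * Z *
    (x₀ : Matrix (Fin n) (Fin n) ℂ), e3, c, h1⟩

/-- **Main lemma.** A space of elements of the Lie algebra of the Hodge group of the abelian variety
which is stable under the lift `y` and in which no nonzero element commutes with `y` is zero. -/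
theorem main (h : Mot w B P) (hq : A.Full (qM B Wt H)) (hS : Sit (Wt := Wt) B H x y x₀)
    {V : Submodule ℂ (Matrix (Fin (2 * g)) (Fin (2 * g)) ℂ)}
    (h1 : ∀ Y ∈ V, ∃ Z, (Y, Z) ∈ GG B (perpI A (kerM B)))
    (h2 : ∀ X ∈ hC B Wt H, ∀ Y ∈ V, X * Y - Y * X ∈ V)
    (h3 : ∀ Y ∈ V, (y : Matrix (Fin (2 * g)) (Fin (2 * g)) ℂ) * Y *
      ((y⁻¹ : GL (Fin (2 * g)) ℂ) : Matrix (Fin (2 * g)) (Fin (2 * g)) ℂ) ∈ V)
    (h4 : ∀ Y ∈ V, (y : Matrix (Fin (2 * g)) (Fin (2 * g)) ℂ) * Y = Y * y → Y = 0) :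
    ∀ Y ∈ V, Y = 0 := by
  intro Y hY
  have h5 : ∀ X ∈ A.NA, (Y * cq (mv X)).trace = 0 := by
    intro X hX
    have h6 : ((y⁻¹ : GL (Fin (2 * g)) ℂ) : Matrix (Fin (2 * g)) (Fin (2 * g)) ℂ) *
        cq (mv X) ∈ PS (hC B Wt H) := by
      refine bic_PS hq fun E hE => ?_
      have h7 := (Subgroup.inv_mem _ hS.c) E hE
      rw [mul_assoc, ← cq_mul, ← hE X hX, cq_mul, ← mul_assoc, h7, mul_assoc]
    have h8 := key' (𝔥 := hC B Wt H) (W := V) (Units.mul_inv y) (Units.inv_mul y) h2 h3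
      (fun X hX => hC_conj h hS hX) h4 hY h6
    rw [mul_assoc, ← mul_assoc (y : Matrix (Fin (2 * g)) (Fin (2 * g)) ℂ), Units.mul_inv,
      one_mul] at h8
    exact h8
  obtain ⟨Z, hZ⟩ := h1 Y hY
  refine eq_zero_of_map fun f => ?_
  obtain ⟨X, hX, M, hM, e1, e2⟩ := GG_map hZ f
  have h6 : X = 0 := A.trace_NA X (perpI_le _ hX) fun X' hX' => by
    rw [trace_mul_map f e1]
    change f ((Y * cq (mv X')).trace) = 0
    rw [h5 X' hX', map_zero]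
  change Y.map f = 0
  have e3 : mv X = Y.map f := e1
  rw [← e3, h6, mv_zero]

end Pool.Agent.Helper5.ER
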