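import Pool.Agent.Helper5.EqRankB

set_option autoImplicit false
set_option linter.unusedSectionVars false

/-!
# Elements of the Hodge group which normalize a group which contains the periods: main theorems
-/

open Module Function TensorProduct Matrix

noncomputable section

namespace Pool.Agent.Helper5.ER

open Pool.Agent.Y102 Pool.Agent.W516.DR Pool.Agent.H204R3.GP Pool.Agent.W516.KC
  Pool.Agent.H204R3.SP Pool.Agent.TH119.MX Pool.Agent.R917 Pool.Agent.N208.AM Pool.Agent.N208.AD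
  Pool.Agent.Helper5.TrKey

variable {g : ℕ} {A : AbVar g} {s n : ℕ} {r : Fin s → ℕ} {B : Fin n → Ten A r} {w : Fin s → ℤ}
  {P : Matrix (Fin n) (Fin n) ℂ} {H : Set (Matrix (Fin n) (Fin n) ℂ)}
  {Wt : Matrix (Fin n) (Fin n) ℚ} {x : GL (Fin n) ℂ} {y : GL (Fin (2 * g)) ℂ}
  {x₀ : GL (Fin n) ℂ}

/-- The complex span of the matrices of the Lie algebra. -/
abbrev SC (B : Fin n → Ten A r) : Submodule ℂ (Matrix (Fin n) (Fin n) ℂ) :=
  Submodule.span ℂ {y | ∃ X ∈ A.NA, ∃ M, Rel B X M ∧ y = cq M}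

theorem snd_mem {p : Matrix (Fin (2 * g)) (Fin (2 * g)) ℂ × Matrix (Fin n) (Fin n) ℂ}
    (hp : p ∈ GG B A.NA) : p.2ᵀ ∈ SC B := by
  induction hp using Submodule.span_induction with
  | mem p hp =>
    obtain ⟨X, hX, M, hM, rfl⟩ := hp
    refine Submodule.subset_span ⟨X, hX, M, hM, ?_⟩
    exact Matrix.transpose_transpose _
  | zero => rw [Prod.snd_zero, Matrix.transpose_zero]; exact Submodule.zero_mem _
  | add a b _ _ ha hb =>
    rw [Prod.snd_add, Matrix.transpose_add]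
    exact Submodule.add_mem _ ha hb
  | smul c a _ ha =>
    rw [Prod.smul_snd, Matrix.transpose_smul]
    exact Submodule.smul_mem _ c ha

theorem exists_lift' (h : Mot w B P) {Z : Matrix (Fin n) (Fin n) ℂ} (hZ : Z ∈ SC B) :
    ∃ Y, (Y, Zᵀ) ∈ GG B (perpI A (kerM B)) := by
  refine exists_lift h ?_
  induction hZ using Submodule.span_induction with
  | mem Z hZ =>
    obtain ⟨X, hX, M, hM, rfl⟩ := hZ
    exact Submodule.subset_span ⟨X, hX, M, hM, rfl⟩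
  | zero => rw [Matrix.transpose_zero]; exact Submodule.zero_mem _
  | add a b _ _ ha hb => rw [Matrix.transpose_add]; exact Submodule.add_mem _ ha hb
  | smul c a _ ha => rw [Matrix.transpose_smul]; exact Submodule.smul_mem _ c ha

/-- An element which commutes with `y` comes from an element which commutes with `x`. -/
theorem comm_x (h : Mot w B P) (hS : Sit (Wt := Wt) B H x y x₀)
    {Y : Matrix (Fin (2 * g)) (Fin (2 * g)) ℂ} {Z : Matrix (Fin n) (Fin n) ℂ}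
    (hp : (Y, Z) ∈ GG B (perpI A (kerM B)))
    (hY : (y : Matrix (Fin (2 * g)) (Fin (2 * g)) ℂ) * Y = Y * y) :
    (x : Matrix (Fin n) (Fin n) ℂ) * Zᵀ = Zᵀ * x := by
  have h1 := Submodule.sub_mem _ (hS.l1.conj _ hp) hp
  rw [Prod.mk_mul_mk, Prod.mk_mul_mk, Prod.mk_sub_mk] at h1
  have h2 : (y : Matrix (Fin (2 * g)) (Fin (2 * g)) ℂ) * Y *
      ((y⁻¹ : GL (Fin (2 * g)) ℂ) : Matrix (Fin (2 * g)) (Fin (2 * g)) ℂ) - Y = 0 := by
    rw [hY, mul_assoc, Units.mul_inv, mul_one, sub_self]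
  have h3 : (x₀ : Matrix (Fin n) (Fin n) ℂ) * Z *
      ((x₀⁻¹ : GL (Fin n) ℂ) : Matrix (Fin n) (Fin n) ℂ) - Z = 0 := GG_fst h.li h1 h2
  have h4 : (x₀ : Matrix (Fin n) (Fin n) ℂ) * Z = Z * x₀ := by
    rw [sub_eq_zero] at h3
    conv_rhs => rw [← h3]
    rw [mul_assoc, Units.inv_mul, mul_one]
  have h5 := congrArg Matrix.transpose h4
  rw [Matrix.transpose_mul, Matrix.transpose_mul, hS.t1, Matrix.transpose_transpose] at h5
  exact h5.symm

/-- The lift of a subspace. -/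
def lV (B : Fin n → Ten A r) (W : Submodule ℂ (Matrix (Fin n) (Fin n) ℂ)) :
    Submodule ℂ (Matrix (Fin (2 * g)) (Fin (2 * g)) ℂ) where
  carrier := {Y | ∃ Z, (Y, Z) ∈ GG B (perpI A (kerM B)) ∧ Zᵀ ∈ W}
  zero_mem' := ⟨0, Submodule.zero_mem _, by rw [Matrix.transpose_zero]; exact W.zero_mem⟩
  add_mem' := by
    rintro Y Y' ⟨Z, h1, h2⟩ ⟨Z', h3, h4⟩
    refine ⟨Z + Z', Submodule.add_mem _ h1 h3, ?_⟩
    rw [Matrix.transpose_add]
    exact W.add_mem h2 h4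
  smul_mem' := by
    rintro c Y ⟨Z, h1, h2⟩
    refine ⟨c • Z, Submodule.smul_mem _ c h1, ?_⟩
    rw [Matrix.transpose_smul]
    exact W.smul_mem c h2

/-- The brackets of pairs. -/
theorem pair_br {S T U : Submodule ℚ (Module.End ℚ A.H1)}
    (h : ∀ X ∈ S, ∀ Y ∈ T, X * Y - Y * X ∈ U)
    {X Y : Matrix (Fin (2 * g)) (Fin (2 * g)) ℂ} {X' Y' : Matrix (Fin n) (Fin n) ℂ}
    (hX : (X, X') ∈ GG B S) (hY : (Y, Y') ∈ GG B T) :
    (X * Y - Y * X, X' * Y' - Y' * X') ∈ GG B U := by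
  have h1 := GG_br h _ hX _ hY
  rwa [Prod.mk_mul_mk, Prod.mk_mul_mk, Prod.mk_sub_mk] at h1

/-- **First theorem.** -/
theorem part1 (h : Mot w B P) (hq : A.Full (qM B Wt H)) (hS : Sit (Wt := Wt) B H x y x₀)
    {W : Submodule ℂ (Matrix (Fin n) (Fin n) ℂ)} (hWL : W ≤ SC B)
    (hst : ∀ Y ∈ SC B, ∀ c : ℂ, (∀ d, Stab H d (Y + c • cq Wt)) → ∀ Z ∈ W, Y * Z - Z * Y ∈ W)
    (hx : ∀ Z ∈ W, ((x⁻¹ : GL (Fin n) ℂ) : Matrix (Fin n) (Fin n) ℂ) * Z *
      (x : Matrix (Fin n) (Fin n) ℂ) ∈ W)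
    (h0 : ∀ Z ∈ W, (x : Matrix (Fin n) (Fin n) ℂ) * Z = Z * x → Z = 0) :
    ∀ Z ∈ W, Z = 0 := by
  have h1 := main h hq hS (V := lV B W) (fun Y ⟨Z, h1, _⟩ => ⟨Z, h1⟩)
    (by
      rintro X ⟨X2, hX2, c, hc⟩ Y ⟨Z, hZ, hZW⟩
      refine ⟨X2 * Z - Z * X2, pair_br (perpI_ideal (kerM_ideal h)) hX2 hZ, ?_⟩
      have h2 := hst _ (snd_mem hX2) c hc _ hZW
      have h3 : (X2 * Z - Z * X2)ᵀ = -(X2ᵀ * Zᵀ - Zᵀ * X2ᵀ) := by
        rw [Matrix.transpose_sub, Matrix.transpose_mul, Matrix.transpose_mul, neg_sub]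
      rw [h3]
      exact W.neg_mem h2)
    (by
      rintro Y ⟨Z, hZ, hZW⟩
      have h2 := hS.l1.conj _ hZ
      rw [Prod.mk_mul_mk, Prod.mk_mul_mk] at h2
      refine ⟨_, h2, ?_⟩
      rw [Matrix.transpose_mul, Matrix.transpose_mul, hS.t1, hS.t2, Matrix.transpose_transpose,
        Matrix.transpose_transpose, ← mul_assoc]
      exact hx _ hZW)
    (by
      rintro Y ⟨Z, hZ, hZW⟩ hY
      have h2 := h0 _ hZW (comm_x h hS hZ hY)
      have h3 : Z = 0 := by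
        rw [← Matrix.transpose_transpose Z, h2, Matrix.transpose_zero]
      exact GG_snd h hZ h3)
  intro Z hZ
  obtain ⟨Y, hY⟩ := exists_lift' h (hWL hZ)
  have h2 : Y = 0 := h1 Y ⟨Zᵀ, hY, by rwa [Matrix.transpose_transpose]⟩
  have h3 : Zᵀ = 0 := GG_fst h.li hY h2
  rw [← Matrix.transpose_transpose Z, h3, Matrix.transpose_zero]

/-! ### The second theorem -/

theorem hC_br (h : Mot w B P) (hW : WRel w B Wt) {X Y : Matrix (Fin (2 * g)) (Fin (2 * g)) ℂ}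
    (hX : X ∈ hC B Wt H) (hY : Y ∈ hC B Wt H) : X * Y - Y * X ∈ hC B Wt H := by
  obtain ⟨X2, hX2, c, hc⟩ := hX
  obtain ⟨Y2, hY2, c', hc'⟩ := hY
  refine ⟨X2 * Y2 - Y2 * X2, pair_br (fun X hX Y hY => A.NA_bracket hX hY) hX2 hY2, 0,
    fun d => ?_⟩
  have h1 := (hc' d).comm (hc d)
  have e1 : X2ᵀ * cq Wt = cq Wt * X2ᵀ := GG_wt h hW hX2
  have e2 : Y2ᵀ * cq Wt = cq Wt * Y2ᵀ := GG_wt h hW hY2
  have h2 : (Y2ᵀ + c' • cq Wt) * (X2ᵀ + c • cq Wt) - (X2ᵀ + c • cq Wt) * (Y2ᵀ + c' • cq Wt) =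
      (X2 * Y2 - Y2 * X2)ᵀ + (0 : ℂ) • cq Wt := by
    rw [zero_smul, add_zero, Matrix.transpose_sub, Matrix.transpose_mul, Matrix.transpose_mul,
      add_mul, mul_add, mul_add, add_mul, mul_add, mul_add]
    simp only [smul_mul_assoc, mul_smul_comm, e1, e2, smul_smul]
    rw [mul_comm c c']
    abel
  rwa [h2] at h1

/-- The elements which are orthogonal to the Lie algebra of the group. -/
def oV (B : Fin n → Ten A r) (Wt : Matrix (Fin n) (Fin n) ℚ)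
    (H : Set (Matrix (Fin n) (Fin n) ℂ)) :
    Submodule ℂ (Matrix (Fin (2 * g)) (Fin (2 * g)) ℂ) where
  carrier := {Y | (∃ Z, (Y, Z) ∈ GG B (perpI A (kerM B))) ∧
    ∀ X ∈ hC B Wt H, (Y * X).trace = 0}
  zero_mem' := ⟨⟨0, Submodule.zero_mem _⟩, fun X _ => by rw [zero_mul, Matrix.trace_zero]⟩
  add_mem' := by
    rintro Y Y' ⟨⟨Z, h1⟩, h2⟩ ⟨⟨Z', h3⟩, h4⟩
    refine ⟨⟨Z + Z', Submodule.add_mem _ h1 h3⟩, fun X hX => ?_⟩
    rw [add_mul, Matrix.trace_add, h2 X hX, h4 X hX, add_zero]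
  smul_mem' := by
    rintro c Y ⟨⟨Z, h1⟩, h2⟩
    refine ⟨⟨c • Z, Submodule.smul_mem _ c h1⟩, fun X hX => ?_⟩
    rw [smul_mul_assoc, Matrix.trace_smul, h2 X hX, smul_zero]

theorem part2a (h : Mot w B P) (hW : WRel w B Wt) (hG : AlgGrp QQ H)
    (hq : A.Full (qM B Wt H)) (hS : Sit (Wt := Wt) B H x y x₀)
    (h0 : ∀ Z ∈ SC B, (x : Matrix (Fin n) (Fin n) ℂ) * Z = Z * x → ∀ d, Stab H d Z) :
    A.NA ≤ qM B Wt H := by
  have h1 := main h hq hS (V := oV B Wt H) (fun Y hY => hY.1)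
    (by
      rintro X hX Y ⟨⟨Z, hZ⟩, hY⟩
      obtain ⟨X2, hX2, c, hc⟩ := id hX
      refine ⟨⟨X2 * Z - Z * X2, pair_br (perpI_ideal (kerM_ideal h)) hX2 hZ⟩, fun X' hX' => ?_⟩
      have h2 := hY _ (hC_br h hW hX' hX)
      rw [mul_sub, Matrix.trace_sub] at h2
      rw [sub_mul, Matrix.trace_sub]
      have e1 : (X * Y * X').trace = (Y * (X' * X)).trace := by
        rw [mul_assoc, Matrix.trace_mul_comm, mul_assoc]
      rw [e1, mul_assoc Y X X']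
      exact h2)
    (by
      rintro Y ⟨⟨Z, hZ⟩, hY⟩
      have h2 := hS.l1.conj _ hZ
      rw [Prod.mk_mul_mk, Prod.mk_mul_mk] at h2
      refine ⟨⟨_, h2⟩, fun X hX => ?_⟩
      have h3 := hY _ (hC_conj h hS hX)
      rw [← h3]
      calc ((y : Matrix (Fin (2 * g)) (Fin (2 * g)) ℂ) * Y *
            ((y⁻¹ : GL (Fin (2 * g)) ℂ) : Matrix (Fin (2 * g)) (Fin (2 * g)) ℂ) * X).trace
          = ((y : Matrix (Fin (2 * g)) (Fin (2 * g)) ℂ) * (Y *
            ((y⁻¹ : GL (Fin (2 * g)) ℂ) : Matrix (Fin (2 * g)) (Fin (2 * g)) ℂ) * X)).trace := by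
            simp only [mul_assoc]
        _ = (Y * ((y⁻¹ : GL (Fin (2 * g)) ℂ) : Matrix (Fin (2 * g)) (Fin (2 * g)) ℂ) * X *
            (y : Matrix (Fin (2 * g)) (Fin (2 * g)) ℂ)).trace := Matrix.trace_mul_comm _ _
        _ = _ := by simp only [mul_assoc])
    (by
      rintro Y ⟨⟨Z, hZ⟩, hY⟩ hYy
      have h2 : Y ∈ hC B Wt H := by
        refine ⟨Z, GG_le (perpI_le _) hZ, 0, fun d => ?_⟩
        rw [zero_smul, add_zero]
        exact h0 _ (snd_mem (GG_le (perpI_le _) hZ)) (comm_x h hS hZ hYy) d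
      refine eq_zero_of_map fun f => ?_
      obtain ⟨X, hX, e1⟩ := hC_map hG h2 f
      have h3 : X = 0 := hq.trace X hX fun X' hX' => by
        rw [trace_mul_map f e1, hY _ (qM_hC hX'), map_zero]
      rw [← e1, h3, mv_zero])
  have hk : kerM B ≤ A.NA := fun X hX => hX.1
  have hkq : kerM B ≤ qM B Wt H := fun K hK => ⟨hK.1, 0, hK.2, 0, by
    rw [zero_smul, add_zero]
    exact (LQ H).zero_mem⟩
  intro X hX
  obtain ⟨K, hK, X', hX', rfl⟩ := perpI_dec hk (kerM_ideal h) hX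
  refine Submodule.add_mem _ (hkq hK) ?_
  let F : Module.Dual ℚ (qM B Wt H) :=
    ((LinearMap.trace ℚ A.H1).comp (LinearMap.mulLeft ℚ X')).comp (qM B Wt H).subtype
  let Q := (Pool.Agent.W516.KC2.trE (qM B Wt H) hq.trace).symm F
  have hQ : ∀ T : qM B Wt H, LinearMap.trace ℚ A.H1 (Q.1 * T.1) = F T := fun T =>
    Pool.Agent.W516.KC2.trE_symm (qM B Wt H) hq.trace F T
  have hQ' : ∀ T ∈ qM B Wt H, LinearMap.trace ℚ A.H1 ((X' - Q.1) * T) = 0 := by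
    intro T hT
    rw [sub_mul, map_sub, hQ ⟨T, hT⟩, sub_eq_zero]
    rfl
  have h2 : X' - Q.1 ∈ perpI A (kerM B) :=
    ⟨A.NA.sub_mem hX'.1 (hq.le Q.2), fun K hK => hQ' K (hkq hK)⟩
  obtain ⟨M, hM⟩ := h.st _ h2.1
  have h3 : cq (mv (X' - Q.1)) ∈ oV B Wt H := by
    refine ⟨⟨_, mem_GG h2 hM⟩, fun T hT => ?_⟩
    refine (Module.forall_dual_apply_eq_zero_iff ℚ _).1 fun f => ?_
    obtain ⟨T', hT', e1⟩ := hC_map hG hT f
    have h4 := trace_mul_map (X' := X' - Q.1) f e1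
    rw [Matrix.trace_mul_comm, ← h4, LinearMap.trace_mul_comm]
    exact hQ' T' hT'
  have h4 := h1 _ h3
  have h5 : X' - Q.1 = 0 := by
    apply mv_inj
    apply cq_inj
    rw [h4, mv_zero, cq_zero]
  rw [sub_eq_zero] at h5
  rw [h5]
  exact Q.2

end Pool.Agent.Helper5.ER
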