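import Pool.Agent.Helper5.EqRankC

set_option autoImplicit false
set_option linter.unusedSectionVars false

/-!
# Elements of the Hodge group which normalize a group which contains the periods: the image of
the Deligne torus
-/

open Module Function TensorProduct Matrix

noncomputable section

namespace Pool.Agent.Helper5.ER

open Pool.Agent.Y102 Pool.Agent.W516.DR Pool.Agent.H204R3.GP Pool.Agent.W516.KC
  Pool.Agent.H204R3.SP Pool.Agent.TH119.MX Pool.Agent.R917 Pool.Agent.N208.AM Pool.Agent.N208.AD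
  Pool.Agent.Helper5.TrKey

variable {g : ℕ} {A : AbVar g} {s n : ℕ} {r : Fin s → ℕ} {B : Fin n → Ten A r} {w : Fin s → ℤ}
  {P : Matrix (Fin n) (Fin n) ℂ} {H : Set (Matrix (Fin n) (Fin n) ℂ)}
  {Wt : Matrix (Fin n) (Fin n) ℚ} {x : GL (Fin n) ℂ}

/-- The elements of the centre commute with the Hodge group. -/
theorem HG_cen (h : Mot w B P) {Z : Module.End ℚ A.H1} (hZ : Z ∈ cenA A)
    {M : Matrix (Fin n) (Fin n) ℚ} (hM : Rel B Z M) (hx : x ∈ HG B) : x ∈ cent {M} := by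
  have h1 : HG B ≤ cent {M} := by
    unfold HG
    rw [Subgroup.closure_le]
    rintro x ⟨Z', hZ', hxZ⟩ M' hM'
    rw [Set.mem_singleton_iff] at hM'
    rw [hM', hxZ]
    refine comm_exp ?_
    clear hxZ
    induction hZ' using Submodule.span_induction with
    | mem Z' hZ' =>
      obtain ⟨X, hX, M'', hM'', rfl⟩ := hZ'
      have h2 := hM''.br hM
      rw [← hZ.2 X hX, sub_self] at h2
      have h3 := Rel.zero.uniq h.li h2
      rw [← cq_mul, ← cq_mul, sub_eq_zero.1 h3.symm]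
    | zero => rw [zero_mul, mul_zero]
    | add a b _ _ ha hb => rw [add_mul, mul_add, ha, hb]
    | smul c a _ ha => rw [smul_mul_assoc, mul_smul_comm, ha]
  exact h1 hx

/-- All matrices of the Lie algebra are in the Lie algebra of the group. -/
theorem part2b (h : Mot w B P) (hW : WRel w B Wt) (hx : x ∈ HG B)
    (h0 : ∀ Z ∈ SC B, (x : Matrix (Fin n) (Fin n) ℂ) * Z = Z * x → ∀ d, Stab H d Z)
    (hN : A.NA ≤ qM B Wt H) {X : Module.End ℚ A.H1} (hX : X ∈ A.NA)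
    {M : Matrix (Fin n) (Fin n) ℚ} (hM : Rel B X M) : M ∈ LQ H := by
  have hle : A.NA = qM B Wt H := le_antisymm hN fun X hX => hX.1
  obtain ⟨Z, hZ, d, hd, rfl, hc⟩ := full_NA.dec hX
  obtain ⟨M1, hM1⟩ := h.st Z hZ
  have h1 : M1 ∈ LQ H := by
    have h2 := HG_cen h (Z := Z) ⟨hZ, hc⟩ hM1 hx M1 (Set.mem_singleton _)
    exact h0 (cq M1) (Submodule.subset_span ⟨Z, hZ, M1, hM1, rfl⟩) h2
  rw [hle] at hd
  obtain ⟨-, M2, hM2, h2⟩ := der_mem h hW hd
  rw [hM.uniq h.li (hM1.add hM2)]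
  exact (LQ H).add_mem h1 h2

theorem part2w (h : Mot w B P) (hW : WRel w B Wt) (hH : PtM P H)
    (hL : ∀ X ∈ A.NA, ∀ M, Rel B X M → M ∈ LQ H) : Wt ∈ LQ H := by
  obtain ⟨D, lam, hne⟩ := exists_der
  have h0 : X0 A.basis tau D lam ∈ A.NA := A.LA_le_NA (by
    rw [AbVar.LA_eq]
    exact X0_mem A.basis AbVar.tau_ne D lam)
  obtain ⟨M0, hM0⟩ := h.st _ h0
  have h1 := log_mem h hH D lam hM0 hW
  have h4 := (LQ H).sub_mem h1 (hL _ h0 _ hM0)
  rw [add_sub_cancel_left] at h4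
  have h5 := (LQ H).smul_mem (lam (D tau / (2 * tau)))⁻¹ h4
  rwa [smul_smul, inv_mul_cancel₀ hne, one_smul] at h5

/-- The image of the Deligne torus is in the group. -/
theorem part2c (h : Mot w B P) (hW : WRel w B Wt) (hH : PtM P H)
    (hL : ∀ X ∈ A.NA, ∀ M, Rel B X M → M ∈ LQ H) {z : ℂ} (hz : z ≠ 0) :
    ∃ R ∈ H, HRel w B z R := by
  obtain ⟨N, hN, t, X, M, h1, h2⟩ := exists_J h
  refine ⟨NormedSpace.exp (KK Wt N z), exp_mem hH.grp fun d => ?_, hrel_exp hW hN hz⟩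
  unfold KK
  refine ((part2w h hW hH hL d).smul _).add (Stab.smul _ ?_)
  have h3 : N ∈ Submodule.span ℝ {M' | ∃ Mq ∈ LQ H, M' = rq Mq} := by
    rw [h2]
    exact Submodule.sum_mem _ fun k _ => Submodule.smul_mem _ _ (Submodule.subset_span
      ⟨M k, hL _ (h1 k).1 _ (h1 k).2, rfl⟩)
  clear h2
  clear hN
  induction h3 using Submodule.span_induction with
  | mem N hN =>
    obtain ⟨Mq, hMq, rfl⟩ := hN
    have h3 : cxm (rq Mq) = cq Mq := by
      ext i j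
      simp [cxm]
    rw [h3]
    exact hMq d
  | zero =>
    have h3 : cxm (0 : Matrix (Fin n) (Fin n) ℝ) = 0 := by
      ext i j
      simp [cxm]
    rw [h3]
    exact Stab.zero
  | add a b _ _ ha hb =>
    have h3 : cxm (a + b) = cxm a + cxm b := by
      ext i j
      simp [cxm]
    rw [h3]
    exact ha.add hb
  | smul c a _ ha =>
    have h3 : cxm (c • a) = (c : ℂ) • cxm a := by
      ext i j
      simp [cxm]
    rw [h3]
    exact ha.smul _

/-! ### Subgroups -/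

theorem exp_conj' (x : GL (Fin n) ℂ) (Z : Matrix (Fin n) (Fin n) ℂ) :
    NormedSpace.exp ((x : Matrix (Fin n) (Fin n) ℂ) * Z *
      ((x⁻¹ : GL (Fin n) ℂ) : Matrix (Fin n) (Fin n) ℂ)) =
      (x : Matrix (Fin n) (Fin n) ℂ) * NormedSpace.exp Z *
        ((x⁻¹ : GL (Fin n) ℂ) : Matrix (Fin n) (Fin n) ℂ) :=
  Matrix.exp_units_conj x Z

/-- The conjugation by an element which normalizes the group respects its Lie algebra. -/
theorem stab_conj {G : Subgroup (GL (Fin n) ℂ)}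
    (hG : AlgGrp QQ {M | ∃ x ∈ G, (x : Matrix (Fin n) (Fin n) ℂ) = M})
    (hx : ∀ y ∈ G, x * y * x⁻¹ ∈ G) {Z : Matrix (Fin n) (Fin n) ℂ}
    (hZ : ∀ d, Stab {M | ∃ x ∈ G, (x : Matrix (Fin n) (Fin n) ℂ) = M} d Z) (d : ℕ) :
    Stab {M | ∃ x ∈ G, (x : Matrix (Fin n) (Fin n) ℂ) = M} d
      ((x : Matrix (Fin n) (Fin n) ℂ) * Z *
        ((x⁻¹ : GL (Fin n) ℂ) : Matrix (Fin n) (Fin n) ℂ)) := by
  refine stab_of_curve hG.mul (γ := fun t : ℂ => NormedSpace.exp (t •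
    ((x : Matrix (Fin n) (Fin n) ℂ) * Z *
      ((x⁻¹ : GL (Fin n) ℂ) : Matrix (Fin n) (Fin n) ℂ)))) ?_ (fun t => ?_) (fun i j => ?_) d
  · simp only [zero_smul]
    exact NormedSpace.exp_zero
  · obtain ⟨y, hy, hy'⟩ := exp_mem hG (X := t • Z) (fun d => (hZ d).smul t)
    refine ⟨x * y * x⁻¹, hx y hy, ?_⟩
    have h1 : t • ((x : Matrix (Fin n) (Fin n) ℂ) * Z *
        ((x⁻¹ : GL (Fin n) ℂ) : Matrix (Fin n) (Fin n) ℂ)) = (x : Matrix (Fin n) (Fin n) ℂ) *
        (t • Z) * ((x⁻¹ : GL (Fin n) ℂ) : Matrix (Fin n) (Fin n) ℂ) := by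
      rw [mul_smul_comm, smul_mul_assoc]
    rw [h1, exp_conj', Units.val_mul, Units.val_mul, hy']
  · have h2 := hasDerivAt_entry (1 : Matrix (Fin n) (Fin n) ℂ)
      ((x : Matrix (Fin n) (Fin n) ℂ) * Z * ((x⁻¹ : GL (Fin n) ℂ) : Matrix (Fin n) (Fin n) ℂ))
      i j 0
    rw [zero_smul, NormedSpace.exp_zero, mul_one, one_mul] at h2
    simp only [one_mul] at h2
    exact h2

/-- One-parameter subgroups and the Lie algebra. -/
theorem stab_of_exp {G : Subgroup (GL (Fin n) ℂ)}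
    (hG : AlgGrp QQ {M | ∃ x ∈ G, (x : Matrix (Fin n) (Fin n) ℂ) = M})
    {Z : Matrix (Fin n) (Fin n) ℂ}
    (hZ : ∀ t : ℂ, ∃ y ∈ G, (y : Matrix (Fin n) (Fin n) ℂ) = NormedSpace.exp (t • Z)) (d : ℕ) :
    Stab {M | ∃ x ∈ G, (x : Matrix (Fin n) (Fin n) ℂ) = M} d Z := by
  refine stab_of_curve hG.mul (γ := fun t : ℂ => NormedSpace.exp (t • Z)) ?_ (fun t => hZ t)
    (fun i j => ?_) d
  · simp only [zero_smul]
    exact NormedSpace.exp_zero
  · have h2 := hasDerivAt_entry (1 : Matrix (Fin n) (Fin n) ℂ) Z i j 0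
    rw [zero_smul, NormedSpace.exp_zero, mul_one, one_mul] at h2
    simp only [one_mul] at h2
    exact h2

end Pool.Agent.Helper5.ER
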