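import Pool.Agent.Helper5.EqRankD

set_option autoImplicit false
set_option linter.unusedSectionVars false

/-!
# Automorphisms which normalize a group which contains the periods

A variant of the situation `Sit`: the element `x` is not assumed to be an element of the Hodge group.
-/

open Module Function TensorProduct Matrix

noncomputable section

namespace Pool.Agent.Helper5.ER

open Pool.Agent.Y102 Pool.Agent.W516.DR Pool.Agent.H204R3.GP Pool.Agent.W516.KC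
  Pool.Agent.H204R3.SP Pool.Agent.TH119.MX Pool.Agent.R917 Pool.Agent.N208.AM Pool.Agent.N208.AD
  Pool.Agent.Helper5.TrKey

variable {g : ℕ} {A : AbVar g} {s n : ℕ} {r : Fin s → ℕ} {B : Fin n → Ten A r} {w : Fin s → ℤ}
  {P : Matrix (Fin n) (Fin n) ℂ} {H : Set (Matrix (Fin n) (Fin n) ℂ)}
  {Wt : Matrix (Fin n) (Fin n) ℚ} {x : GL (Fin n) ℂ} {y : GL (Fin (2 * g)) ℂ}
  {x₀ : GL (Fin n) ℂ}

/-- The situation: a pair of automorphisms which are compatible with the action of the Lie algebra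
and whose conjugation respects the Lie algebra of the group. -/
structure SitG (B : Fin n → Ten A r) (H : Set (Matrix (Fin n) (Fin n) ℂ)) (x : GL (Fin n) ℂ)
    (y : GL (Fin (2 * g)) ℂ) (x₀ : GL (Fin n) ℂ) : Prop where
  cn : ∀ (Y : Matrix (Fin (2 * g)) (Fin (2 * g)) ℂ) (Z : Matrix (Fin n) (Fin n) ℂ),
    (Y, Z) ∈ GG B A.NA →
    (((y⁻¹ : GL (Fin (2 * g)) ℂ) : Matrix (Fin (2 * g)) (Fin (2 * g)) ℂ) * Y *
        (y : Matrix (Fin (2 * g)) (Fin (2 * g)) ℂ),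
      ((x₀⁻¹ : GL (Fin n) ℂ) : Matrix (Fin n) (Fin n) ℂ) * Z *
        (x₀ : Matrix (Fin n) (Fin n) ℂ)) ∈ GG B A.NA
  cp : ∀ (Y : Matrix (Fin (2 * g)) (Fin (2 * g)) ℂ) (Z : Matrix (Fin n) (Fin n) ℂ),
    (Y, Z) ∈ GG B (perpI A (kerM B)) →
    ((y : Matrix (Fin (2 * g)) (Fin (2 * g)) ℂ) * Y *
        ((y⁻¹ : GL (Fin (2 * g)) ℂ) : Matrix (Fin (2 * g)) (Fin (2 * g)) ℂ),
      (x₀ : Matrix (Fin n) (Fin n) ℂ) * Z *
        ((x₀⁻¹ : GL (Fin n) ℂ) : Matrix (Fin n) (Fin n) ℂ)) ∈ GG B (perpI A (kerM B))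
  c : y ∈ cent (CC A)
  t1 : (x₀ : Matrix (Fin n) (Fin n) ℂ) = (x : Matrix (Fin n) (Fin n) ℂ)ᵀ
  t2 : ((x₀⁻¹ : GL (Fin n) ℂ) : Matrix (Fin n) (Fin n) ℂ) =
    ((x⁻¹ : GL (Fin n) ℂ) : Matrix (Fin n) (Fin n) ℂ)ᵀ
  wt : x ∈ cent {Wt}
  st : ∀ Z : Matrix (Fin n) (Fin n) ℂ, (∀ d, Stab H d Z) → ∀ d, Stab H d
    ((x : Matrix (Fin n) (Fin n) ℂ) * Z * ((x⁻¹ : GL (Fin n) ℂ) : Matrix (Fin n) (Fin n) ℂ))

theorem Sit.toG (h : Mot w B P) (hS : Sit (Wt := Wt) B H x y x₀) :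
    SitG (Wt := Wt) B H x y x₀ where
  cn := fun _ _ hp => conj_NA h hS hp
  cp := fun Y Z hp => by
    have h1 := hS.l1.conj _ hp
    rwa [Prod.mk_mul_mk, Prod.mk_mul_mk] at h1
  c := hS.c
  t1 := hS.t1
  t2 := hS.t2
  wt := hS.wt
  st := hS.st

theorem hC_conjG (hS : SitG (Wt := Wt) B H x y x₀)
    {Y : Matrix (Fin (2 * g)) (Fin (2 * g)) ℂ} (hY : Y ∈ hC B Wt H) :
    ((y⁻¹ : GL (Fin (2 * g)) ℂ) : Matrix (Fin (2 * g)) (Fin (2 * g)) ℂ) * Y *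
      (y : Matrix (Fin (2 * g)) (Fin (2 * g)) ℂ) ∈ hC B Wt H := by
  obtain ⟨Z, hZ, c, hc⟩ := hY
  have hw : (x : Matrix (Fin n) (Fin n) ℂ) * cq Wt = cq Wt * x := hS.wt Wt (Set.mem_singleton _)
  have h1 := hS.st _ hc
  have e1 : (((x₀⁻¹ : GL (Fin n) ℂ) : Matrix (Fin n) (Fin n) ℂ) * Z *
      (x₀ : Matrix (Fin n) (Fin n) ℂ))ᵀ = (x : Matrix (Fin n) (Fin n) ℂ) * Zᵀ *
        ((x⁻¹ : GL (Fin n) ℂ) : Matrix (Fin n) (Fin n) ℂ) := by
    rw [hS.t1, hS.t2, Matrix.transpose_mul, Matrix.transpose_mul, Matrix.transpose_transpose,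
      Matrix.transpose_transpose, mul_assoc]
  have e2 : (x : Matrix (Fin n) (Fin n) ℂ) * (c • cq Wt) *
      ((x⁻¹ : GL (Fin n) ℂ) : Matrix (Fin n) (Fin n) ℂ) = c • cq Wt := by
    rw [mul_smul_comm, smul_mul_assoc, hw, mul_assoc, Units.mul_inv, mul_one]
  have h2 : (x : Matrix (Fin n) (Fin n) ℂ) * (Zᵀ + c • cq Wt) *
      ((x⁻¹ : GL (Fin n) ℂ) : Matrix (Fin n) (Fin n) ℂ) =
      (((x₀⁻¹ : GL (Fin n) ℂ) : Matrix (Fin n) (Fin n) ℂ) * Z *
        (x₀ : Matrix (Fin n) (Fin n) ℂ))ᵀ + c • cq Wt := by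
    rw [mul_add, add_mul, e1, e2]
  rw [h2] at h1
  exact ⟨((x₀⁻¹ : GL (Fin n) ℂ) : Matrix (Fin n) (Fin n) ℂ) * Z *
    (x₀ : Matrix (Fin n) (Fin n) ℂ), hS.cn _ _ hZ, c, h1⟩

/-- **Main lemma.** A space of elements of the Lie algebra of the Hodge group of the abelian variety
which is stable under `y` and in which no nonzero element commutes with `y` is zero. -/
theorem mainG (hq : A.Full (qM B Wt H)) (hS : SitG (Wt := Wt) B H x y x₀)
    {V : Submodule ℂ (Matrix (Fin (2 * g)) (Fin (2 * g)) ℂ)}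
    (h1 : ∀ Y ∈ V, ∃ Z, (Y, Z) ∈ GG B (perpI A (kerM B)))
    (h2 : ∀ X ∈ hC B Wt H, ∀ Y ∈ V, X * Y - Y * X ∈ V)
    (h3 : ∀ Y ∈ V, (y : Matrix (Fin (2 * g)) (Fin (2 * g)) ℂ) * Y *
      ((y⁻¹ : GL (Fin (2 * g)) ℂ) : Matrix (Fin (2 * g)) (Fin (2 * g)) ℂ) ∈ V)
    (h4 : ∀ Y ∈ V, (y : Matrix (Fin (2 * g)) (Fin (2 * g)) ℂ) * Y = Y * y → Y = 0) :
    ∀ Y ∈ V, Y = 0 := by
  intro Y hY
  have h5 : ∀ X ∈ A.NA, (Y * cq (mv X)).trace = 0 := by
    intro X hX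
    have h6 : ((y⁻¹ : GL (Fin (2 * g)) ℂ) : Matrix (Fin (2 * g)) (Fin (2 * g)) ℂ) *
        cq (mv X) ∈ PS (hC B Wt H) := by
      refine bic_PS hq fun E hE => ?_
      have h7 := (Subgroup.inv_mem _ hS.c) E hE
      rw [mul_assoc, ← cq_mul, ← hE X hX, cq_mul, ← mul_assoc, h7, mul_assoc]
    have h8 := key' (𝔥 := hC B Wt H) (W := V) (Units.mul_inv y) (Units.inv_mul y) h2 h3
      (fun X hX => hC_conjG hS hX) h4 hY h6
    rw [mul_assoc, ← mul_assoc (y : Matrix (Fin (2 * g)) (Fin (2 * g)) ℂ), Units.mul_inv,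
      one_mul] at h8
    exact h8
  obtain ⟨Z, hZ⟩ := h1 Y hY
  refine eq_zero_of_map fun f => ?_
  obtain ⟨X, hX, M, hM, e1, e2⟩ := GG_map hZ f
  have h6 : X = 0 := A.trace_NA X (perpI_le _ hX) fun X' hX' => by
    rw [trace_mul_map f e1]
    change f ((Y * cq (mv X')).trace) = 0
    rw [h5 X' hX', map_zero]
  change Y.map f = 0
  have e3 : mv X = Y.map f := e1
  rw [← e3, h6, mv_zero]

/-! ### The normalizer -/

theorem map_cq_mul {m : ℕ} (f : ℂ →ₗ[ℚ] ℚ) (a : Matrix (Fin m) (Fin m) ℂ)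
    (M : Matrix (Fin m) (Fin m) ℚ) : (cq M * a).map f = M * a.map f := by
  have hq : ∀ (z : ℂ) (q : ℚ), f ((q : ℂ) * z) = q * f z := by
    intro z q
    have h3 : (q : ℂ) * z = q • z := by rw [Rat.smul_def]
    rw [h3, map_smul, smul_eq_mul]
  ext i j
  rw [Matrix.map_apply, Matrix.mul_apply, Matrix.mul_apply, map_sum]
  refine Finset.sum_congr rfl fun k _ => ?_
  change f (((M i k : ℚ) : ℂ) * a k j) = M i k * f (a k j)
  rw [hq]

theorem map_sub' {m : ℕ} (f : ℂ →ₗ[ℚ] ℚ) (a b : Matrix (Fin m) (Fin m) ℂ) :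
    (a - b).map f = a.map f - b.map f := by
  ext i j
  simp

/-- The complex elements of the Lie algebra which normalize the Lie algebra of the group. -/
def nC (B : Fin n → Ten A r) (Wt : Matrix (Fin n) (Fin n) ℚ)
    (H : Set (Matrix (Fin n) (Fin n) ℂ)) : Set (Matrix (Fin (2 * g)) (Fin (2 * g)) ℂ) :=
  {N | (∃ Z, (N, Z) ∈ GG B A.NA) ∧ ∀ X ∈ hC B Wt H, N * X - X * N ∈ hC B Wt H}

theorem hC_nC (h : Mot w B P) (hW : WRel w B Wt) {X : Matrix (Fin (2 * g)) (Fin (2 * g)) ℂ}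
    (hX : X ∈ hC B Wt H) : X ∈ nC B Wt H := by
  obtain ⟨Z, hZ, c, hc⟩ := id hX
  exact ⟨⟨Z, hZ⟩, fun X' hX' => hC_br h hW hX hX'⟩

/-- The rational elements which normalize. -/
def nQ (B : Fin n → Ten A r) (Wt : Matrix (Fin n) (Fin n) ℚ)
    (H : Set (Matrix (Fin n) (Fin n) ℂ)) : Submodule ℚ (Module.End ℚ A.H1) where
  carrier := {N | N ∈ A.NA ∧ ∀ X ∈ qM B Wt H, N * X - X * N ∈ qM B Wt H}
  zero_mem' := ⟨A.NA.zero_mem, fun X _ => by
    rw [zero_mul, mul_zero, sub_zero]; exact Submodule.zero_mem _⟩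
  add_mem' := by
    rintro M N ⟨hM, h1⟩ ⟨hN, h2⟩
    refine ⟨A.NA.add_mem hM hN, fun X hX => ?_⟩
    have h3 := Submodule.add_mem _ (h1 X hX) (h2 X hX)
    have e : (M + N) * X - X * (M + N) = (M * X - X * M) + (N * X - X * N) := by
      rw [add_mul, mul_add]; abel
    rw [e]; exact h3
  smul_mem' := by
    rintro c N ⟨hN, h1⟩
    refine ⟨A.NA.smul_mem c hN, fun X hX => ?_⟩
    rw [smul_mul_assoc, mul_smul_comm, ← smul_sub]
    exact Submodule.smul_mem _ c (h1 X hX)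

theorem nC_map (hG : AlgGrp QQ H) {N : Matrix (Fin (2 * g)) (Fin (2 * g)) ℂ}
    (hN : N ∈ nC B Wt H) (f : ℂ →ₗ[ℚ] ℚ) : ∃ X ∈ nQ B Wt H, mv X = N.map f := by
  obtain ⟨⟨Z, hZ⟩, h1⟩ := hN
  obtain ⟨X, hX, M, hM, e1, e2⟩ := GG_map hZ f
  refine ⟨X, ⟨hX, fun X' hX' => ?_⟩, e1⟩
  obtain ⟨X3, h3, e3⟩ := hC_map hG (h1 _ (qM_hC hX')) f
  have e4 : X3 = X * X' - X' * X := by
    apply mv_inj
    have e5 : mv X = N.map f := e1
    rw [e3, map_sub', map_mul_cq, map_cq_mul, mv_sub, mv_mul, mv_mul, e5]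
  rw [← e4]
  exact h3

/-- The elements which are orthogonal to the normalizer. -/
def oN (B : Fin n → Ten A r) (Wt : Matrix (Fin n) (Fin n) ℚ)
    (H : Set (Matrix (Fin n) (Fin n) ℂ)) :
    Submodule ℂ (Matrix (Fin (2 * g)) (Fin (2 * g)) ℂ) where
  carrier := {Y | (∃ Z, (Y, Z) ∈ GG B (perpI A (kerM B))) ∧
    ∀ X ∈ nC B Wt H, (Y * X).trace = 0}
  zero_mem' := ⟨⟨0, Submodule.zero_mem _⟩, fun X _ => by rw [zero_mul, Matrix.trace_zero]⟩
  add_mem' := by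
    rintro Y Y' ⟨⟨Z, h1⟩, h2⟩ ⟨⟨Z', h3⟩, h4⟩
    refine ⟨⟨Z + Z', Submodule.add_mem _ h1 h3⟩, fun X hX => ?_⟩
    rw [add_mul, Matrix.trace_add, h2 X hX, h4 X hX, add_zero]
  smul_mem' := by
    rintro c Y ⟨⟨Z, h1⟩, h2⟩
    refine ⟨⟨c • Z, Submodule.smul_mem _ c h1⟩, fun X hX => ?_⟩
    rw [smul_mul_assoc, Matrix.trace_smul, h2 X hX, smul_zero]

/-- The elements which come from elements which normalize the Lie algebra of the group. -/
theorem mem_nC (h : Mot w B P) (hW : WRel w B Wt)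
    {Y1 : Matrix (Fin (2 * g)) (Fin (2 * g)) ℂ} {Z1 : Matrix (Fin n) (Fin n) ℂ}
    (hY : (Y1, Z1ᵀ) ∈ GG B A.NA)
    (hn : ∀ Y : Matrix (Fin n) (Fin n) ℂ, (∀ d, Stab H d Y) → ∀ d, Stab H d (Z1 * Y - Y * Z1)) :
    Y1 ∈ nC B Wt H := by
  refine ⟨⟨_, hY⟩, ?_⟩
  rintro X ⟨X2, hX2, c, hc⟩
  have h1 := pair_br (fun X hX Y hY => A.NA_bracket hX hY) hY hX2
  refine ⟨_, h1, 0, fun d => ?_⟩
  have h2 := hn _ hc d
  have e1 : Z1 * cq Wt = cq Wt * Z1 := by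
    have h3 := GG_wt h hW hY
    rwa [Matrix.transpose_transpose] at h3
  have e2 : (Z1ᵀ * X2 - X2 * Z1ᵀ)ᵀ + (0 : ℂ) • cq Wt =
      (-1 : ℂ) • (Z1 * (X2ᵀ + c • cq Wt) - (X2ᵀ + c • cq Wt) * Z1) := by
    rw [zero_smul, add_zero, Matrix.transpose_sub, Matrix.transpose_mul, Matrix.transpose_mul,
      Matrix.transpose_transpose, mul_add, add_mul, mul_smul_comm, smul_mul_assoc, e1,
      neg_one_smul]
    abel
  rw [e2]
  exact h2.smul _

/-- Elements of the orthogonal space which commute with `y`. -/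
theorem oN_comm (h : Mot w B P) (hW : WRel w B Wt) (hS : SitG (Wt := Wt) B H x y x₀)
    (hsp : ∀ Z ∈ SC B, ∃ Z1 ∈ SC B, ∃ Z2 ∈ SC B,
      (∀ Y : Matrix (Fin n) (Fin n) ℂ, (∀ d, Stab H d Y) →
        ∀ d, Stab H d (Z1 * Y - Y * Z1)) ∧
      Z = Z1 + ((x : Matrix (Fin n) (Fin n) ℂ) * Z2 *
        ((x⁻¹ : GL (Fin n) ℂ) : Matrix (Fin n) (Fin n) ℂ) - Z2))
    {Y : Matrix (Fin (2 * g)) (Fin (2 * g)) ℂ} (hY : Y ∈ oN B Wt H)
    (hYy : (y : Matrix (Fin (2 * g)) (Fin (2 * g)) ℂ) * Y = Y * y) : Y = 0 := by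
  obtain ⟨⟨Z, hZ⟩, hY⟩ := hY
  have key : ∀ X' ∈ A.NA, (Y * cq (mv X')).trace = 0 := by
    intro X' hX'
    obtain ⟨M, hM⟩ := h.st X' hX'
    obtain ⟨Z1, hZ1, Z2, hZ2, hn, e⟩ := hsp (cq M)
      (Submodule.subset_span ⟨X', hX', M, hM, rfl⟩)
    obtain ⟨Y1, hY1⟩ := exists_lift' h hZ1
    obtain ⟨Y2, hY2⟩ := exists_lift' h hZ2
    have hY1' := GG_le (perpI_le _) hY1
    have hY2' := GG_le (perpI_le _) hY2
    have h1 := hS.cn _ _ hY2'
    have h2 := Submodule.sub_mem _ (Submodule.sub_mem _ (mem_GG hX' hM) hY1')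
      (Submodule.sub_mem _ h1 hY2')
    unfold pr at h2
    rw [Prod.mk_sub_mk, Prod.mk_sub_mk, Prod.mk_sub_mk] at h2
    have e1 : (cq M)ᵀ - Z1ᵀ - (((x₀⁻¹ : GL (Fin n) ℂ) : Matrix (Fin n) (Fin n) ℂ) * Z2ᵀ *
        (x₀ : Matrix (Fin n) (Fin n) ℂ) - Z2ᵀ) = 0 := by
      have e2 : (((x₀⁻¹ : GL (Fin n) ℂ) : Matrix (Fin n) (Fin n) ℂ) * Z2ᵀ *
          (x₀ : Matrix (Fin n) (Fin n) ℂ)) = ((x : Matrix (Fin n) (Fin n) ℂ) * Z2 *
            ((x⁻¹ : GL (Fin n) ℂ) : Matrix (Fin n) (Fin n) ℂ))ᵀ := by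
        rw [hS.t1, hS.t2, Matrix.transpose_mul, Matrix.transpose_mul, mul_assoc]
      rw [e2, e, Matrix.transpose_add, Matrix.transpose_sub]
      abel
    rw [e1] at h2
    have h3 : cq (mv X') - Y1 - (((y⁻¹ : GL (Fin (2 * g)) ℂ) :
        Matrix (Fin (2 * g)) (Fin (2 * g)) ℂ) * Y2 * y - Y2) ∈ nC B Wt H := by
      refine hC_nC h hW ⟨0, h2, 0, fun d => ?_⟩
      rw [Matrix.transpose_zero, zero_smul, add_zero]
      exact Stab.zero
    have h4 := hY _ h3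
    have h5 := hY _ (mem_nC h hW hY1' hn)
    have h6 : (Y * (((y⁻¹ : GL (Fin (2 * g)) ℂ) :
        Matrix (Fin (2 * g)) (Fin (2 * g)) ℂ) * Y2 * y)).trace = (Y * Y2).trace := by
      calc (Y * (((y⁻¹ : GL (Fin (2 * g)) ℂ) :
            Matrix (Fin (2 * g)) (Fin (2 * g)) ℂ) * Y2 * y)).trace
          = ((Y * ((y⁻¹ : GL (Fin (2 * g)) ℂ) : Matrix (Fin (2 * g)) (Fin (2 * g)) ℂ) * Y2) *
              (y : Matrix (Fin (2 * g)) (Fin (2 * g)) ℂ)).trace := by simp only [mul_assoc]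
        _ = ((y : Matrix (Fin (2 * g)) (Fin (2 * g)) ℂ) * (Y *
              ((y⁻¹ : GL (Fin (2 * g)) ℂ) : Matrix (Fin (2 * g)) (Fin (2 * g)) ℂ) * Y2)).trace :=
            Matrix.trace_mul_comm _ _
        _ = ((y : Matrix (Fin (2 * g)) (Fin (2 * g)) ℂ) * Y *
              ((y⁻¹ : GL (Fin (2 * g)) ℂ) : Matrix (Fin (2 * g)) (Fin (2 * g)) ℂ) *
              Y2).trace := by simp only [mul_assoc]
        _ = (Y * Y2).trace := by
            rw [hYy, mul_assoc Y, Units.mul_inv, mul_one]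
    rw [mul_sub, mul_sub, mul_sub, Matrix.trace_sub, Matrix.trace_sub, Matrix.trace_sub, h5, h6,
      sub_self, sub_zero, sub_zero] at h4
    exact h4
  refine eq_zero_of_map fun f => ?_
  obtain ⟨X, hX, M, hM, e1, e2⟩ := GG_map hZ f
  have h6 : X = 0 := A.trace_NA X (perpI_le _ hX) fun X' hX' => by
    rw [trace_mul_map f e1]
    change f ((Y * cq (mv X')).trace) = 0
    rw [key X' hX', map_zero]
  change Y.map f = 0
  have e3 : mv X = Y.map f := e1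
  rw [← e3, h6, mv_zero]

/-- The rational Lie algebra is an ideal. -/
theorem qM_ideal (h : Mot w B P) (hW : WRel w B Wt) (hG : AlgGrp QQ H)
    (hq : A.Full (qM B Wt H)) (hS : SitG (Wt := Wt) B H x y x₀)
    (hS' : SitG (Wt := Wt) B H x⁻¹ y⁻¹ x₀⁻¹)
    (hsp : ∀ Z ∈ SC B, ∃ Z1 ∈ SC B, ∃ Z2 ∈ SC B,
      (∀ Y : Matrix (Fin n) (Fin n) ℂ, (∀ d, Stab H d Y) →
        ∀ d, Stab H d (Z1 * Y - Y * Z1)) ∧
      Z = Z1 + ((x : Matrix (Fin n) (Fin n) ℂ) * Z2 *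
        ((x⁻¹ : GL (Fin n) ℂ) : Matrix (Fin n) (Fin n) ℂ) - Z2)) :
    A.NA ≤ nQ B Wt H := by
  -- conjugation of the normalizer
  have hconj : ∀ N ∈ nC B Wt H,
      ((y⁻¹ : GL (Fin (2 * g)) ℂ) : Matrix (Fin (2 * g)) (Fin (2 * g)) ℂ) * N *
        (y : Matrix (Fin (2 * g)) (Fin (2 * g)) ℂ) ∈ nC B Wt H := by
    rintro N ⟨⟨Z, hZ⟩, hN⟩
    refine ⟨⟨_, hS.cn _ _ hZ⟩, fun X hX => ?_⟩
    have h1 := hC_conjG hS' hX
    rw [inv_inv] at h1
    have h2 := hC_conjG hS (hN _ h1)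
    have e : ((y⁻¹ : GL (Fin (2 * g)) ℂ) : Matrix (Fin (2 * g)) (Fin (2 * g)) ℂ) *
        (N * ((y : Matrix (Fin (2 * g)) (Fin (2 * g)) ℂ) * X *
          ((y⁻¹ : GL (Fin (2 * g)) ℂ) : Matrix (Fin (2 * g)) (Fin (2 * g)) ℂ)) -
          (y : Matrix (Fin (2 * g)) (Fin (2 * g)) ℂ) * X *
          ((y⁻¹ : GL (Fin (2 * g)) ℂ) : Matrix (Fin (2 * g)) (Fin (2 * g)) ℂ) * N) *
        (y : Matrix (Fin (2 * g)) (Fin (2 * g)) ℂ) =
        ((y⁻¹ : GL (Fin (2 * g)) ℂ) : Matrix (Fin (2 * g)) (Fin (2 * g)) ℂ) * N *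
        (y : Matrix (Fin (2 * g)) (Fin (2 * g)) ℂ) * X - X *
        (((y⁻¹ : GL (Fin (2 * g)) ℂ) : Matrix (Fin (2 * g)) (Fin (2 * g)) ℂ) * N *
        (y : Matrix (Fin (2 * g)) (Fin (2 * g)) ℂ)) := by
      have e1 : ((y⁻¹ : GL (Fin (2 * g)) ℂ) : Matrix (Fin (2 * g)) (Fin (2 * g)) ℂ) *
        (y : Matrix (Fin (2 * g)) (Fin (2 * g)) ℂ) = 1 := Units.inv_mul y
      calc _ = ((y⁻¹ : GL (Fin (2 * g)) ℂ) : Matrix (Fin (2 * g)) (Fin (2 * g)) ℂ) * N *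
            (y : Matrix (Fin (2 * g)) (Fin (2 * g)) ℂ) * X *
            (((y⁻¹ : GL (Fin (2 * g)) ℂ) : Matrix (Fin (2 * g)) (Fin (2 * g)) ℂ) *
              (y : Matrix (Fin (2 * g)) (Fin (2 * g)) ℂ)) -
            (((y⁻¹ : GL (Fin (2 * g)) ℂ) : Matrix (Fin (2 * g)) (Fin (2 * g)) ℂ) *
              (y : Matrix (Fin (2 * g)) (Fin (2 * g)) ℂ)) * X *
            (((y⁻¹ : GL (Fin (2 * g)) ℂ) : Matrix (Fin (2 * g)) (Fin (2 * g)) ℂ) * N *
              (y : Matrix (Fin (2 * g)) (Fin (2 * g)) ℂ)) := by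
              simp only [mul_sub, sub_mul, mul_assoc]
        _ = _ := by rw [e1, mul_one, one_mul]
    rw [e] at h2
    exact h2
  have h1 := mainG hq hS (V := oN B Wt H) (fun Y hY => hY.1)
    (by
      rintro X hX Y ⟨⟨Z, hZ⟩, hY⟩
      obtain ⟨X2, hX2, c, hc⟩ := id hX
      refine ⟨⟨X2 * Z - Z * X2, pair_br (perpI_ideal (kerM_ideal h)) hX2 hZ⟩, fun X' hX' => ?_⟩
      have h2 := hY _ (hC_nC h hW (hX'.2 X hX))
      rw [mul_sub, Matrix.trace_sub] at h2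
      rw [sub_mul, Matrix.trace_sub]
      have e1 : (X * Y * X').trace = (Y * (X' * X)).trace := by
        rw [mul_assoc, Matrix.trace_mul_comm, mul_assoc]
      rw [e1, mul_assoc Y X X']
      exact h2)
    (by
      rintro Y ⟨⟨Z, hZ⟩, hY⟩
      refine ⟨⟨_, hS.cp _ _ hZ⟩, fun X hX => ?_⟩
      have h3 := hY _ (hconj X hX)
      rw [← h3]
      calc ((y : Matrix (Fin (2 * g)) (Fin (2 * g)) ℂ) * Y *
            ((y⁻¹ : GL (Fin (2 * g)) ℂ) : Matrix (Fin (2 * g)) (Fin (2 * g)) ℂ) * X).trace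
          = ((y : Matrix (Fin (2 * g)) (Fin (2 * g)) ℂ) * (Y *
            ((y⁻¹ : GL (Fin (2 * g)) ℂ) : Matrix (Fin (2 * g)) (Fin (2 * g)) ℂ) * X)).trace := by
            simp only [mul_assoc]
        _ = (Y * ((y⁻¹ : GL (Fin (2 * g)) ℂ) : Matrix (Fin (2 * g)) (Fin (2 * g)) ℂ) * X *
            (y : Matrix (Fin (2 * g)) (Fin (2 * g)) ℂ)).trace := Matrix.trace_mul_comm _ _
        _ = _ := by simp only [mul_assoc])
    (fun Y hY hYy => oN_comm h hW hS hsp hY hYy)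
  intro N hN
  by_contra hcon
  obtain ⟨f, hf1, hf2⟩ := Submodule.exists_dual_map_eq_bot_of_notMem hcon inferInstance
  let f' : Module.Dual ℚ A.NA := f.comp A.NA.subtype
  let U := (Pool.Agent.W516.KC2.trE A.NA A.trace_NA).symm f'
  have hU : ∀ X : A.NA, LinearMap.trace ℚ A.H1 (U.1 * X.1) = f X.1 := fun X =>
    Pool.Agent.W516.KC2.trE_symm A.NA A.trace_NA f' X
  have hf0 : ∀ X ∈ nQ B Wt H, f X = 0 := by
    intro X hX
    have h3 : f X ∈ Submodule.map f (nQ B Wt H) := Submodule.mem_map_of_mem hX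
    rwa [hf2, Submodule.mem_bot] at h3
  have hkq : kerM B ≤ qM B Wt H := fun K hK => ⟨hK.1, 0, hK.2, 0, by
    rw [zero_smul, add_zero]
    exact (LQ H).zero_mem⟩
  have hkn : kerM B ≤ nQ B Wt H := fun K hK => ⟨hK.1, fun X hX => by
    have h3 := (kerM B).neg_mem (kerM_ideal h X hX.1 K hK)
    rw [neg_sub] at h3
    exact hkq h3⟩
  have hUp : U.1 ∈ perpI A (kerM B) :=
    ⟨U.2, fun K hK => by rw [hU ⟨K, hK.1⟩]; exact hf0 K (hkn hK)⟩
  obtain ⟨M, hM⟩ := h.st _ U.2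
  have h3 : cq (mv U.1) ∈ oN B Wt H := by
    refine ⟨⟨_, mem_GG hUp hM⟩, fun T hT => ?_⟩
    refine (Module.forall_dual_apply_eq_zero_iff ℚ _).1 fun f'' => ?_
    obtain ⟨T', hT', e1⟩ := nC_map hG hT f''
    have h4 := trace_mul_map (X' := U.1) f'' e1
    rw [Matrix.trace_mul_comm, ← h4, LinearMap.trace_mul_comm, hU ⟨T', hT'.1⟩]
    exact hf0 T' hT'
  have h4 := h1 _ h3
  have h5 : U.1 = 0 := by
    apply mv_inj
    apply cq_inj
    rw [h4, mv_zero, cq_zero]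
  apply hf1
  rw [← hU ⟨N, hN⟩, h5, zero_mul, map_zero]

/-- The derived algebra is in the Lie algebra of the group. -/
theorem der_stab (h : Mot w B P) (hW : WRel w B Wt) (hq : A.Full (qM B Wt H))
    (hn : A.NA ≤ nQ B Wt H) {X X' : Module.End ℚ A.H1} (hX : X ∈ A.NA) (hX' : X' ∈ A.NA)
    {M : Matrix (Fin n) (Fin n) ℚ} (hM : Rel B (X * X' - X' * X) M) : M ∈ LQ H := by
  have h1 : X * X' - X' * X ∈ der (qM B Wt H) := by
    refine der_le_of_ideal hq (𝔫 := der (qM B Wt H)) ?_ (hq.der_le.trans hq.le) ?_ hX hX'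
    · intro N hN Y hY
      have hY' : Y ∈ Submodule.span ℚ {Z | ∃ X ∈ qM B Wt H, ∃ Y ∈ qM B Wt H,
          Z = X * Y - Y * X} := hY
      clear hY
      induction hY' using Submodule.span_induction with
      | mem Y hY =>
        obtain ⟨Q, hQ, Q', hQ', rfl⟩ := hY
        have e : N * (Q * Q' - Q' * Q) - (Q * Q' - Q' * Q) * N =
            ((N * Q - Q * N) * Q' - Q' * (N * Q - Q * N)) +
            (Q * (N * Q' - Q' * N) - (N * Q' - Q' * N) * Q) := by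
          simp only [mul_sub, sub_mul, mul_assoc]
          abel
        rw [e]
        exact Submodule.add_mem _
          (Submodule.subset_span ⟨_, (hn hN).2 Q hQ, Q', hQ', rfl⟩)
          (Submodule.subset_span ⟨Q, hQ, _, (hn hN).2 Q' hQ', rfl⟩)
      | zero => rw [mul_zero, zero_mul, sub_zero]; exact Submodule.zero_mem _
      | add a b _ _ ha hb =>
        have e : N * (a + b) - (a + b) * N = (N * a - a * N) + (N * b - b * N) := by
          rw [mul_add, add_mul]; abel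
        rw [e]
        exact Submodule.add_mem _ ha hb
      | smul c a _ ha =>
        rw [mul_smul_comm, smul_mul_assoc, ← smul_sub]
        exact Submodule.smul_mem _ c ha
    · intro X hX Y hY
      exact Submodule.subset_span ⟨X, hX, Y, hY, rfl⟩
  obtain ⟨-, M', hM', h2⟩ := der_mem h hW h1
  rw [hM.uniq h.li hM']
  exact h2

theorem der_stab' (h : Mot w B P) (hW : WRel w B Wt) (hq : A.Full (qM B Wt H))
    (hn : A.NA ≤ nQ B Wt H) {X : Module.End ℚ A.H1} (hX : X ∈ der A.NA) :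
    ∃ M, Rel B X M ∧ M ∈ LQ H := by
  have hX' : X ∈ Submodule.span ℚ {Z | ∃ X ∈ A.NA, ∃ Y ∈ A.NA, Z = X * Y - Y * X} := hX
  clear hX
  induction hX' using Submodule.span_induction with
  | mem Z hZ =>
    obtain ⟨X, hX, Y, hY, rfl⟩ := hZ
    obtain ⟨M, hM⟩ := h.st _ (A.NA_bracket hX hY)
    exact ⟨M, hM, der_stab h hW hq hn hX hY hM⟩
  | zero => exact ⟨0, Rel.zero, (LQ H).zero_mem⟩
  | add a b _ _ ha hb =>
    obtain ⟨M, hM, h1⟩ := ha
    obtain ⟨M', hM', h2⟩ := hb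
    exact ⟨M + M', hM.add hM', (LQ H).add_mem h1 h2⟩
  | smul c a _ ha =>
    obtain ⟨M, hM, h1⟩ := ha
    exact ⟨c • M, hM.smul c, (LQ H).smul_mem c h1⟩

/-- **Third theorem.** The brackets are in the Lie algebra of the group. -/
theorem part3 (h : Mot w B P) (hW : WRel w B Wt) (hq : A.Full (qM B Wt H))
    (hn : A.NA ≤ nQ B Wt H) {Z Z' : Matrix (Fin n) (Fin n) ℂ} (hZ : Z ∈ SC B)
    (hZ' : Z' ∈ SC B) (d : ℕ) : Stab H d (Z * Z' - Z' * Z) := by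
  induction hZ using Submodule.span_induction with
  | mem Z hZ =>
    obtain ⟨X, hX, M, hM, rfl⟩ := hZ
    induction hZ' using Submodule.span_induction with
    | mem Z' hZ' =>
      obtain ⟨X', hX', M', hM', rfl⟩ := hZ'
      have h1 := der_stab h hW hq hn hX' hX (hM'.br hM)
      have h2 := h1 d
      have e : (M * M' - M' * M).map (fun q => (q : ℂ)) = cq M * cq M' - cq M' * cq M := by
        have e1 : cq (M * M' - M' * M) = cq M * cq M' - cq M' * cq M := by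
          rw [cq_sub, cq_mul, cq_mul]
        exact e1
      rwa [e] at h2
    | zero => rw [mul_zero, zero_mul, sub_zero]; exact Stab.zero
    | add a b _ _ ha hb =>
      have e : cq M * (a + b) - (a + b) * cq M = (cq M * a - a * cq M) + (cq M * b - b * cq M) := by
        rw [mul_add, add_mul]; abel
      rw [e]
      exact ha.add hb
    | smul c a _ ha =>
      rw [mul_smul_comm, smul_mul_assoc, ← smul_sub]
      exact ha.smul c
  | zero => rw [mul_zero, zero_mul, sub_zero]; exact Stab.zero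
  | add a b _ _ ha hb =>
    have e : (a + b) * Z' - Z' * (a + b) = (a * Z' - Z' * a) + (b * Z' - Z' * b) := by
      rw [mul_add, add_mul]; abel
    rw [e]
    exact ha.add hb
  | smul c a _ ha =>
    rw [smul_mul_assoc, mul_smul_comm, ← smul_sub]
    exact ha.smul c

end Pool.Agent.Helper5.ER
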