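import Pool.Agent.Helper5.EqRankE

set_option autoImplicit false
set_option linter.unusedSectionVars false

/-!
# Automorphisms which normalize a group which contains the periods, and the endomorphisms

The automorphism is only assumed to commute with the centre of the algebra of the endomorphisms.
-/

open Module Function TensorProduct Matrix

noncomputable section

namespace Pool.Agent.Helper5.ER

open Pool.Agent.Y102 Pool.Agent.W516.DR Pool.Agent.H204R3.GP Pool.Agent.W516.KC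
  Pool.Agent.H204R3.SP Pool.Agent.TH119.MX Pool.Agent.R917 Pool.Agent.N208.AM Pool.Agent.N208.AD
  Pool.Agent.Helper5.TrKey

variable {g : ℕ} {A : AbVar g} {s n : ℕ} {r : Fin s → ℕ} {B : Fin n → Ten A r} {w : Fin s → ℤ}
  {P : Matrix (Fin n) (Fin n) ℂ} {H : Set (Matrix (Fin n) (Fin n) ℂ)}
  {Wt : Matrix (Fin n) (Fin n) ℚ} {x : GL (Fin n) ℂ} {y : GL (Fin (2 * g)) ℂ}
  {x₀ : GL (Fin n) ℂ}

theorem mem_EA_of_comm {E : Module.End ℚ A.H1} (h : ∀ X ∈ A.NA, E * X = X * E) : E ∈ A.EA :=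
  fun X hX => (h X (A.LA_le_NA hX)).symm

/-- The Lie algebra and the endomorphisms act semisimply. -/
theorem semi_ND : Semi (A.NA ⊔ A.EA) := by
  intro U hU
  have hUN : ∀ X ∈ A.NA, ∀ u ∈ U, X u ∈ U := fun X hX => hU X (Submodule.mem_sup_left hX)
  have hUE : ∀ X ∈ A.EA, ∀ u ∈ U, X u ∈ U := fun X hX => hU X (Submodule.mem_sup_right hX)
  let U' : Submodule ℚ A.H1 :=
    { carrier := {v | ∀ u ∈ U, A.om u v = 0}
      zero_mem' := fun u _ => map_zero _
      add_mem' := fun {v w} hv hw u hu => by rw [map_add, hv u hu, hw u hu, add_zero]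
      smul_mem' := fun c v hv u hu => by rw [map_smul, hv u hu, smul_zero] }
  have hstab1 : ∀ X ∈ A.NA, ∀ u ∈ U', X u ∈ U' := by
    intro X hX v hv u hu
    have h1 := A.NA_skew hX u v
    have h2 : A.om (X u) v = 0 := hv _ (hUN X hX u hu)
    rwa [h2, zero_add] at h1
  have hstab2 : ∀ E ∈ A.EA, ∀ u ∈ U', E u ∈ U' := by
    intro E hE v hv u hu
    obtain ⟨E', hE', h1⟩ := A.endAlg.adj E hE
    have h2 : A.om (E v) u = A.om v (E' u) := h1 v u
    have h3 : A.om (E' u) v = 0 := hv _ (hUE E' hE' u hu)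
    rw [A.om_anti u (E v), h2, A.om_anti v (E' u), h3]
    simp
  have hdisj : U ⊓ U' = ⊥ := by
    rw [eq_bot_iff]
    rintro u ⟨hu, hu'⟩
    rw [Submodule.mem_bot]
    have h1 : A.E (Complex.I • A.per u) (A.per u) = 0 := by
      apply exists_sep
      intro f
      rw [← AbVar.om_cmp]
      exact hu' _ (hUN _ (A.MA_le_NA (A.J_mem f)) u hu)
    apply A.per_inj
    rw [map_zero]
    by_contra hne
    have h2 := A.E_pos hne
    rw [A.E_anti, h1, neg_zero] at h2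
    exact lt_irrefl _ h2
  have hU' : U' = LinearMap.BilinForm.orthogonal (A.om : LinearMap.BilinForm ℚ A.H1) U := by
    ext v
    rw [LinearMap.BilinForm.mem_orthogonal_iff]
    rfl
  refine ⟨U', fun X hX u hu => ?_, ?_⟩
  · obtain ⟨X1, h1, X2, h2, rfl⟩ := Submodule.mem_sup.1 hX
    rw [LinearMap.add_apply]
    exact U'.add_mem (hstab1 X1 h1 u hu) (hstab2 X2 h2 u hu)
  · rw [hU', LinearMap.BilinForm.isCompl_orthogonal_iff_disjoint A.om_isRefl, disjoint_iff, ← hU']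
    exact hdisj

/-- Elements of the complexified Lie algebra commute with the endomorphisms. -/
theorem GG_EA {p : Matrix (Fin (2 * g)) (Fin (2 * g)) ℂ × Matrix (Fin n) (Fin n) ℂ}
    (hp : p ∈ GG B A.NA) {E : Module.End ℚ A.H1} (hE : E ∈ A.EA) :
    p.1 * cq (mv E) = cq (mv E) * p.1 := by
  induction hp using Submodule.span_induction with
  | mem p hp =>
    obtain ⟨X, hX, M, hM, rfl⟩ := hp
    change cq (mv X) * cq (mv E) = cq (mv E) * cq (mv X)
    rw [← cq_mul, ← cq_mul, ← mv_mul, ← mv_mul, A.NA_comm hX hE]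
  | zero => rw [Prod.fst_zero, zero_mul, mul_zero]
  | add a b _ _ ha hb => rw [Prod.fst_add, add_mul, mul_add, ha, hb]
  | smul c a _ ha => rw [Prod.smul_fst, smul_mul_assoc, mul_smul_comm, ha]

theorem PS_EA {a : Matrix (Fin (2 * g)) (Fin (2 * g)) ℂ} (ha : a ∈ PS (hC B Wt H))
    {E : Module.End ℚ A.H1} (hE : E ∈ A.EA) : a * cq (mv E) = cq (mv E) * a := by
  induction ha using Submodule.span_induction with
  | mem a ha =>
    obtain ⟨L, hL, rfl⟩ := ha
    induction L with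
    | nil => rw [List.prod_nil, one_mul, mul_one]
    | cons b L ih =>
      have h1 := ih fun X hX => hL X (List.mem_cons_of_mem _ hX)
      obtain ⟨Z, hZ, -⟩ := hL b (by simp)
      have h2 : b * cq (mv E) = cq (mv E) * b := GG_EA hZ hE
      rw [List.prod_cons, mul_assoc, h1, ← mul_assoc, h2, mul_assoc]
  | zero => rw [zero_mul, mul_zero]
  | add a b _ _ ha hb => rw [add_mul, mul_add, ha, hb]
  | smul c a _ ha => rw [smul_mul_assoc, mul_smul_comm, ha]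

/-- The products of endomorphisms and of elements of the algebra generated by the Lie algebra. -/
def PD (B : Fin n → Ten A r) (Wt : Matrix (Fin n) (Fin n) ℚ)
    (H : Set (Matrix (Fin n) (Fin n) ℂ)) :
    Submodule ℂ (Matrix (Fin (2 * g)) (Fin (2 * g)) ℂ) :=
  Submodule.span ℂ {b | ∃ E ∈ A.EA, ∃ c ∈ PS (hC B Wt H), b = cq (mv E) * c}

theorem mv_one' : mv (1 : Module.End ℚ A.H1) = 1 := LinearMap.toMatrix_one A.bas

theorem cq_one' {m : ℕ} : cq (1 : Matrix (Fin m) (Fin m) ℚ) = 1 :=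
  Matrix.map_one _ Rat.cast_zero Rat.cast_one

theorem PS_le_PD {a : Matrix (Fin (2 * g)) (Fin (2 * g)) ℂ} (ha : a ∈ PS (hC B Wt H)) :
    a ∈ PD B Wt H :=
  Submodule.subset_span ⟨1, A.endAlg.one, a, ha, by rw [mv_one', cq_one', one_mul]⟩

theorem EA_mul' {E E' : Module.End ℚ A.H1} (h : E ∈ A.EA) (h' : E' ∈ A.EA) : E * E' ∈ A.EA :=
  A.endAlg.mul E h E' h'

theorem PD_mul {a b : Matrix (Fin (2 * g)) (Fin (2 * g)) ℂ} (ha : a ∈ PD B Wt H)
    (hb : b ∈ PD B Wt H) : a * b ∈ PD B Wt H := by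
  unfold PD at ha hb
  induction ha using Submodule.span_induction with
  | mem a ha =>
    obtain ⟨E, hE, c, hc, rfl⟩ := ha
    induction hb using Submodule.span_induction with
    | mem b hb =>
      obtain ⟨E', hE', c', hc', rfl⟩ := hb
      refine Submodule.subset_span ⟨E * E', EA_mul' hE hE', c * c', mul_mem_PS hc hc', ?_⟩
      rw [mv_mul, cq_mul, mul_assoc, ← mul_assoc c, PS_EA hc hE']
      simp only [mul_assoc]
    | zero => rw [mul_zero]; exact Submodule.zero_mem _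
    | add a b _ _ ha hb => rw [mul_add]; exact Submodule.add_mem _ ha hb
    | smul c a _ ha => rw [mul_smul_comm]; exact Submodule.smul_mem _ c ha
  | zero => rw [zero_mul]; exact Submodule.zero_mem _
  | add a b _ _ ha hb => rw [add_mul]; exact Submodule.add_mem _ ha hb
  | smul c a _ ha => rw [smul_mul_assoc]; exact Submodule.smul_mem _ c ha

/-- **Double centralizer.** The matrices which commute with the centre of the algebra of the
endomorphisms. -/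
theorem mem_PD (hq : A.Full (qM B Wt H)) {a : Matrix (Fin (2 * g)) (Fin (2 * g)) ℂ}
    (ha : ∀ E ∈ A.EA, (∀ E' ∈ A.EA, E * E' = E' * E) → a * cq (mv E) = cq (mv E) * a) :
    a ∈ PD B Wt H := by
  have h1 := mem_span_cent (S := {M | ∃ E ∈ A.EA, (∀ E' ∈ A.EA, E * E' = E' * E) ∧ M = mv E})
    (x := a) (by
      rintro _ ⟨E, hE, hE', rfl⟩
      exact ha E hE hE')
  refine (Submodule.span_le.2 ?_) h1
  rintro _ ⟨T, hT, rfl⟩
  obtain ⟨T, rfl⟩ := mv_surj (A := A) T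
  have h2 : T ∈ Algebra.adjoin ℚ ((A.NA ⊔ A.EA : Submodule ℚ (Module.End ℚ A.H1)) :
      Set (Module.End ℚ A.H1)) := by
    refine mem_adjoin_of_comm semi_ND fun Q hQ => ?_
    have h3 : Q ∈ A.EA := fun X hX => hQ X (Submodule.mem_sup_left (A.LA_le_NA hX))
    have h4 := hT (mv Q) ⟨Q, h3, fun E' hE' => (hQ E' (Submodule.mem_sup_right hE')).symm, rfl⟩
    apply mv_inj
    rw [mv_mul, mv_mul, h4]
  refine Algebra.adjoin_induction (p := fun Q _ => cq (mv Q) ∈ PD B Wt H) ?_ ?_ ?_ ?_ h2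
  · intro X hX
    obtain ⟨X1, hX1, X2, hX2, rfl⟩ := Submodule.mem_sup.1 hX
    rw [mv_add, cq_add]
    refine Submodule.add_mem _ (PS_le_PD (bic_PS hq fun E hE => ?_)) ?_
    · rw [← cq_mul, ← cq_mul, hE X1 hX1]
    · exact Submodule.subset_span ⟨X2, hX2, 1, one_mem_PS, by rw [mul_one]⟩
  · intro c
    have h3 : algebraMap ℚ (Module.End ℚ A.H1) c = c • (1 : Module.End ℚ A.H1) :=
      Algebra.algebraMap_eq_smul_one c
    rw [h3, mv_smul, mv_one', cq_smul, cq_one']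
    exact Submodule.smul_mem _ _ (PS_le_PD one_mem_PS)
  · intro a b _ _ ha hb
    rw [mv_add, cq_add]
    exact Submodule.add_mem _ ha hb
  · intro a b _ _ ha hb
    rw [mv_mul, cq_mul]
    exact PD_mul ha hb

/-- A rational matrix plus a suitable scalar is invertible. -/
theorem exists_shift {m : ℕ} (M : Matrix (Fin m) (Fin m) ℂ) :
    ∃ t : ℂ, ∃ φ φ' : Matrix (Fin m) (Fin m) ℂ, φ = M + t • 1 ∧ φ * φ' = 1 ∧ φ' * φ = 1 := by
  have h1 : (-M).charpoly ≠ 0 := (Matrix.charpoly_monic _).ne_zero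
  obtain ⟨t, ht⟩ : ∃ t : ℂ, (-M).charpoly.eval t ≠ 0 := by
    by_contra hcon
    push Not at hcon
    exact h1 (Polynomial.funext fun t => by rw [hcon t, Polynomial.eval_zero])
  refine ⟨t, M + t • 1, (M + t • 1)⁻¹, rfl, ?_, ?_⟩
  · refine Matrix.mul_nonsing_inv _ (isUnit_iff_ne_zero.2 ?_)
    rw [Matrix.eval_charpoly] at ht
    convert ht using 2
    rw [sub_neg_eq_add, add_comm, Matrix.scalar_apply, Matrix.smul_one_eq_diagonal]
  · refine Matrix.nonsing_inv_mul _ (isUnit_iff_ne_zero.2 ?_)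
    rw [Matrix.eval_charpoly] at ht
    convert ht using 2
    rw [sub_neg_eq_add, add_comm, Matrix.scalar_apply, Matrix.smul_one_eq_diagonal]

/-- The situation: a pair of automorphisms which are compatible with the action of the Lie algebra
and whose conjugation respects the Lie algebra of the group. -/
structure SitH (B : Fin n → Ten A r) (H : Set (Matrix (Fin n) (Fin n) ℂ)) (x : GL (Fin n) ℂ)
    (y : GL (Fin (2 * g)) ℂ) (x₀ : GL (Fin n) ℂ) : Prop where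
  cn : ∀ (Y : Matrix (Fin (2 * g)) (Fin (2 * g)) ℂ) (Z : Matrix (Fin n) (Fin n) ℂ),
    (Y, Z) ∈ GG B A.NA →
    (((y⁻¹ : GL (Fin (2 * g)) ℂ) : Matrix (Fin (2 * g)) (Fin (2 * g)) ℂ) * Y *
        (y : Matrix (Fin (2 * g)) (Fin (2 * g)) ℂ),
      ((x₀⁻¹ : GL (Fin n) ℂ) : Matrix (Fin n) (Fin n) ℂ) * Z *
        (x₀ : Matrix (Fin n) (Fin n) ℂ)) ∈ GG B A.NA
  cp : ∀ (Y : Matrix (Fin (2 * g)) (Fin (2 * g)) ℂ) (Z : Matrix (Fin n) (Fin n) ℂ),
    (Y, Z) ∈ GG B (perpI A (kerM B)) →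
    ((y : Matrix (Fin (2 * g)) (Fin (2 * g)) ℂ) * Y *
        ((y⁻¹ : GL (Fin (2 * g)) ℂ) : Matrix (Fin (2 * g)) (Fin (2 * g)) ℂ),
      (x₀ : Matrix (Fin n) (Fin n) ℂ) * Z *
        ((x₀⁻¹ : GL (Fin n) ℂ) : Matrix (Fin n) (Fin n) ℂ)) ∈ GG B (perpI A (kerM B))
  c : ∀ E ∈ A.EA, (∀ E' ∈ A.EA, E * E' = E' * E) →
    (y : Matrix (Fin (2 * g)) (Fin (2 * g)) ℂ) * cq (mv E) = cq (mv E) * y
  t1 : (x₀ : Matrix (Fin n) (Fin n) ℂ) = (x : Matrix (Fin n) (Fin n) ℂ)ᵀ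
  t2 : ((x₀⁻¹ : GL (Fin n) ℂ) : Matrix (Fin n) (Fin n) ℂ) =
    ((x⁻¹ : GL (Fin n) ℂ) : Matrix (Fin n) (Fin n) ℂ)ᵀ
  wt : x ∈ cent {Wt}
  st : ∀ Z : Matrix (Fin n) (Fin n) ℂ, (∀ d, Stab H d Z) → ∀ d, Stab H d
    ((x : Matrix (Fin n) (Fin n) ℂ) * Z * ((x⁻¹ : GL (Fin n) ℂ) : Matrix (Fin n) (Fin n) ℂ))

theorem hC_conjH (hS : SitH (Wt := Wt) B H x y x₀)
    {Y : Matrix (Fin (2 * g)) (Fin (2 * g)) ℂ} (hY : Y ∈ hC B Wt H) :
    ((y⁻¹ : GL (Fin (2 * g)) ℂ) : Matrix (Fin (2 * g)) (Fin (2 * g)) ℂ) * Y *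
      (y : Matrix (Fin (2 * g)) (Fin (2 * g)) ℂ) ∈ hC B Wt H := by
  obtain ⟨Z, hZ, c, hc⟩ := hY
  have hw : (x : Matrix (Fin n) (Fin n) ℂ) * cq Wt = cq Wt * x := hS.wt Wt (Set.mem_singleton _)
  have h1 := hS.st _ hc
  have e1 : (((x₀⁻¹ : GL (Fin n) ℂ) : Matrix (Fin n) (Fin n) ℂ) * Z *
      (x₀ : Matrix (Fin n) (Fin n) ℂ))ᵀ = (x : Matrix (Fin n) (Fin n) ℂ) * Zᵀ *
        ((x⁻¹ : GL (Fin n) ℂ) : Matrix (Fin n) (Fin n) ℂ) := by
    rw [hS.t1, hS.t2, Matrix.transpose_mul, Matrix.transpose_mul, Matrix.transpose_transpose,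
      Matrix.transpose_transpose, mul_assoc]
  have e2 : (x : Matrix (Fin n) (Fin n) ℂ) * (c • cq Wt) *
      ((x⁻¹ : GL (Fin n) ℂ) : Matrix (Fin n) (Fin n) ℂ) = c • cq Wt := by
    rw [mul_smul_comm, smul_mul_assoc, hw, mul_assoc, Units.mul_inv, mul_one]
  have h2 : (x : Matrix (Fin n) (Fin n) ℂ) * (Zᵀ + c • cq Wt) *
      ((x⁻¹ : GL (Fin n) ℂ) : Matrix (Fin n) (Fin n) ℂ) =
      (((x₀⁻¹ : GL (Fin n) ℂ) : Matrix (Fin n) (Fin n) ℂ) * Z *
        (x₀ : Matrix (Fin n) (Fin n) ℂ))ᵀ + c • cq Wt := by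
    rw [mul_add, add_mul, e1, e2]
  rw [h2] at h1
  exact ⟨((x₀⁻¹ : GL (Fin n) ℂ) : Matrix (Fin n) (Fin n) ℂ) * Z *
    (x₀ : Matrix (Fin n) (Fin n) ℂ), hS.cn _ _ hZ, c, h1⟩

/-- **Main lemma.** A space of elements of the Lie algebra of the Hodge group of the abelian variety
which is stable under `y` and in which no nonzero element commutes with `y` is zero. -/
theorem mainH (hq : A.Full (qM B Wt H)) (hS : SitH (Wt := Wt) B H x y x₀)
    {V : Submodule ℂ (Matrix (Fin (2 * g)) (Fin (2 * g)) ℂ)}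
    (h1 : ∀ Y ∈ V, ∃ Z, (Y, Z) ∈ GG B (perpI A (kerM B)))
    (h2 : ∀ X ∈ hC B Wt H, ∀ Y ∈ V, X * Y - Y * X ∈ V)
    (h3 : ∀ Y ∈ V, (y : Matrix (Fin (2 * g)) (Fin (2 * g)) ℂ) * Y *
      ((y⁻¹ : GL (Fin (2 * g)) ℂ) : Matrix (Fin (2 * g)) (Fin (2 * g)) ℂ) ∈ V)
    (h4 : ∀ Y ∈ V, (y : Matrix (Fin (2 * g)) (Fin (2 * g)) ℂ) * Y = Y * y → Y = 0) :
    ∀ Y ∈ V, Y = 0 := by
  intro Y hY
  -- the trace lemma with an endomorphism
  have key1 : ∀ b ∈ PD B Wt H,
      (Y * (y : Matrix (Fin (2 * g)) (Fin (2 * g)) ℂ) * b).trace = 0 := by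
    intro b hb
    unfold PD at hb
    induction hb using Submodule.span_induction with
    | mem b hb =>
      obtain ⟨E, hE, c, hc, rfl⟩ := hb
      obtain ⟨t, φ, φ', rfl, hφ, hφ'⟩ := exists_shift (cq (mv E))
      set φ := cq (mv E) + t • (1 : Matrix (Fin (2 * g)) (Fin (2 * g)) ℂ) with hφd
      have hcom : ∀ p ∈ GG B A.NA, p.1 * φ = φ * p.1 := by
        intro p hp
        rw [hφd, mul_add, add_mul, GG_EA hp hE, mul_smul_comm, smul_mul_assoc, mul_one, one_mul]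
      have hcom' : ∀ p ∈ GG B A.NA, p.1 * φ' = φ' * p.1 := by
        intro p hp
        calc p.1 * φ' = (φ' * φ) * p.1 * φ' := by rw [hφ', one_mul]
          _ = φ' * (φ * p.1) * φ' := by simp only [mul_assoc]
          _ = φ' * (p.1 * φ) * φ' := by rw [hcom p hp]
          _ = φ' * p.1 * (φ * φ') := by simp only [mul_assoc]
          _ = φ' * p.1 := by rw [hφ, mul_one]
      have hV : ∀ Z ∈ V, Z * φ = φ * Z := by
        intro Z hZ
        obtain ⟨Z', hZ'⟩ := h1 Z hZ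
        exact hcom _ (GG_le (perpI_le _) hZ')
      have hV' : ∀ Z ∈ V, Z * φ' = φ' * Z := by
        intro Z hZ
        obtain ⟨Z', hZ'⟩ := h1 Z hZ
        exact hcom' _ (GG_le (perpI_le _) hZ')
      have hH : ∀ X ∈ hC B Wt H, X * φ = φ * X := by
        rintro X ⟨Z, hZ, -⟩
        exact hcom _ hZ
      have e1 : (y : Matrix (Fin (2 * g)) (Fin (2 * g)) ℂ) * φ *
          (φ' * ((y⁻¹ : GL (Fin (2 * g)) ℂ) : Matrix (Fin (2 * g)) (Fin (2 * g)) ℂ)) = 1 := by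
        rw [mul_assoc, ← mul_assoc φ, hφ, one_mul, Units.mul_inv]
      have e2 : (φ' * ((y⁻¹ : GL (Fin (2 * g)) ℂ) : Matrix (Fin (2 * g)) (Fin (2 * g)) ℂ)) *
          ((y : Matrix (Fin (2 * g)) (Fin (2 * g)) ℂ) * φ) = 1 := by
        rw [mul_assoc, ← mul_assoc _ (y : Matrix (Fin (2 * g)) (Fin (2 * g)) ℂ), Units.inv_mul,
          one_mul, hφ']
      have k1 := key' (𝔥 := hC B Wt H) (W := V) e1 e2 h2
        (fun Z hZ => by
          have e3 : (y : Matrix (Fin (2 * g)) (Fin (2 * g)) ℂ) * φ * Z *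
              (φ' * ((y⁻¹ : GL (Fin (2 * g)) ℂ) : Matrix (Fin (2 * g)) (Fin (2 * g)) ℂ)) =
              (y : Matrix (Fin (2 * g)) (Fin (2 * g)) ℂ) * Z *
              ((y⁻¹ : GL (Fin (2 * g)) ℂ) : Matrix (Fin (2 * g)) (Fin (2 * g)) ℂ) := by
            calc _ = (y : Matrix (Fin (2 * g)) (Fin (2 * g)) ℂ) * (φ * Z) * φ' *
                  ((y⁻¹ : GL (Fin (2 * g)) ℂ) : Matrix (Fin (2 * g)) (Fin (2 * g)) ℂ) := by
                  simp only [mul_assoc]
              _ = (y : Matrix (Fin (2 * g)) (Fin (2 * g)) ℂ) * Z * (φ * φ') *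
                  ((y⁻¹ : GL (Fin (2 * g)) ℂ) : Matrix (Fin (2 * g)) (Fin (2 * g)) ℂ) := by
                  rw [← hV Z hZ]
                  simp only [mul_assoc]
              _ = _ := by rw [hφ, mul_one]
          rw [e3]
          exact h3 Z hZ)
        (fun X hX => by
          have h5 := hC_conjH hS hX
          have e3 : φ' * ((y⁻¹ : GL (Fin (2 * g)) ℂ) : Matrix (Fin (2 * g)) (Fin (2 * g)) ℂ) *
              X * ((y : Matrix (Fin (2 * g)) (Fin (2 * g)) ℂ) * φ) =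
              ((y⁻¹ : GL (Fin (2 * g)) ℂ) : Matrix (Fin (2 * g)) (Fin (2 * g)) ℂ) * X *
              (y : Matrix (Fin (2 * g)) (Fin (2 * g)) ℂ) := by
            calc _ = φ' * ((((y⁻¹ : GL (Fin (2 * g)) ℂ) :
                  Matrix (Fin (2 * g)) (Fin (2 * g)) ℂ) * X *
                  (y : Matrix (Fin (2 * g)) (Fin (2 * g)) ℂ)) * φ) := by simp only [mul_assoc]
              _ = (φ' * φ) * (((y⁻¹ : GL (Fin (2 * g)) ℂ) :
                  Matrix (Fin (2 * g)) (Fin (2 * g)) ℂ) * X *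
                  (y : Matrix (Fin (2 * g)) (Fin (2 * g)) ℂ)) := by
                  rw [hH _ h5]
                  simp only [mul_assoc]
              _ = _ := by rw [hφ', one_mul]
          rw [e3]
          exact h5)
        (fun Z hZ hZy => h4 Z hZ (by
          have e3 : (y : Matrix (Fin (2 * g)) (Fin (2 * g)) ℂ) * φ * Z * φ' =
              Z * ((y : Matrix (Fin (2 * g)) (Fin (2 * g)) ℂ) * φ) * φ' := by rw [hZy]
          have e4 : (y : Matrix (Fin (2 * g)) (Fin (2 * g)) ℂ) * φ * Z * φ' =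
              (y : Matrix (Fin (2 * g)) (Fin (2 * g)) ℂ) * Z := by
            rw [mul_assoc (y : Matrix (Fin (2 * g)) (Fin (2 * g)) ℂ), ← hV Z hZ, mul_assoc,
              mul_assoc, hφ, mul_one]
          have e5 : Z * ((y : Matrix (Fin (2 * g)) (Fin (2 * g)) ℂ) * φ) * φ' =
              Z * (y : Matrix (Fin (2 * g)) (Fin (2 * g)) ℂ) := by
            rw [mul_assoc, mul_assoc, hφ, mul_one]
          rw [← e4, e3, e5]))
        hY hc
      have k2 := key' (𝔥 := hC B Wt H) (W := V) (Units.mul_inv y) (Units.inv_mul y) h2 h3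
        (fun X hX => hC_conjH hS hX) h4 hY hc
      have e6 : Y * ((y : Matrix (Fin (2 * g)) (Fin (2 * g)) ℂ) * φ) * c =
          Y * (y : Matrix (Fin (2 * g)) (Fin (2 * g)) ℂ) * (cq (mv E) * c) +
            t • (Y * (y : Matrix (Fin (2 * g)) (Fin (2 * g)) ℂ) * c) := by
        rw [hφd, mul_add (y : Matrix (Fin (2 * g)) (Fin (2 * g)) ℂ), mul_add Y, add_mul,
          mul_smul_comm, mul_smul_comm, smul_mul_assoc, mul_one]
        simp only [mul_assoc]
      rw [e6, Matrix.trace_add, Matrix.trace_smul, k2, smul_zero, add_zero] at k1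
      exact k1
    | zero => rw [mul_zero, Matrix.trace_zero]
    | add a b _ _ ha hb => rw [mul_add, Matrix.trace_add, ha, hb, add_zero]
    | smul c a _ ha => rw [mul_smul_comm, Matrix.trace_smul, ha, smul_zero]
  have h5 : ∀ X ∈ A.NA, (Y * cq (mv X)).trace = 0 := by
    intro X hX
    have h6 : ((y⁻¹ : GL (Fin (2 * g)) ℂ) : Matrix (Fin (2 * g)) (Fin (2 * g)) ℂ) *
        cq (mv X) ∈ PD B Wt H := by
      refine mem_PD hq fun E hE hE' => ?_
      have h7 := hS.c E hE hE'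
      have h8 : ((y⁻¹ : GL (Fin (2 * g)) ℂ) : Matrix (Fin (2 * g)) (Fin (2 * g)) ℂ) *
          cq (mv E) = cq (mv E) *
            ((y⁻¹ : GL (Fin (2 * g)) ℂ) : Matrix (Fin (2 * g)) (Fin (2 * g)) ℂ) := by
        calc ((y⁻¹ : GL (Fin (2 * g)) ℂ) : Matrix (Fin (2 * g)) (Fin (2 * g)) ℂ) * cq (mv E)
            = (y⁻¹ : GL (Fin (2 * g)) ℂ) * (cq (mv E) * y) * (y⁻¹ : GL (Fin (2 * g)) ℂ) := by
              rw [mul_assoc, mul_assoc, Units.mul_inv, mul_one]
          _ = (y⁻¹ : GL (Fin (2 * g)) ℂ) * (y * cq (mv E)) * (y⁻¹ : GL (Fin (2 * g)) ℂ) := by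
              rw [h7]
          _ = cq (mv E) * (y⁻¹ : GL (Fin (2 * g)) ℂ) := by
              rw [← mul_assoc, Units.inv_mul, one_mul]
      rw [mul_assoc, ← cq_mul, ← mv_mul, A.NA_comm hX hE, mv_mul, cq_mul, ← mul_assoc, h8,
        mul_assoc]
    have h8 := key1 _ h6
    rw [mul_assoc, ← mul_assoc (y : Matrix (Fin (2 * g)) (Fin (2 * g)) ℂ), Units.mul_inv,
      one_mul] at h8
    exact h8
  obtain ⟨Z, hZ⟩ := h1 Y hY
  refine eq_zero_of_map fun f => ?_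
  obtain ⟨X, hX, M, hM, e1, e2⟩ := GG_map hZ f
  have h6 : X = 0 := A.trace_NA X (perpI_le _ hX) fun X' hX' => by
    rw [trace_mul_map f e1]
    change f ((Y * cq (mv X')).trace) = 0
    rw [h5 X' hX', map_zero]
  change Y.map f = 0
  have e3 : mv X = Y.map f := e1
  rw [← e3, h6, mv_zero]

/-- An element which commutes with `y` comes from an element which commutes with `x`. -/
theorem comm_xH (h : Mot w B P) (hS : SitH (Wt := Wt) B H x y x₀)
    {Y : Matrix (Fin (2 * g)) (Fin (2 * g)) ℂ} {Z : Matrix (Fin n) (Fin n) ℂ}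
    (hp : (Y, Z) ∈ GG B (perpI A (kerM B)))
    (hY : (y : Matrix (Fin (2 * g)) (Fin (2 * g)) ℂ) * Y = Y * y) :
    (x : Matrix (Fin n) (Fin n) ℂ) * Zᵀ = Zᵀ * x := by
  have h1 := Submodule.sub_mem _ (hS.cp _ _ hp) hp
  rw [Prod.mk_sub_mk] at h1
  have h2 : (y : Matrix (Fin (2 * g)) (Fin (2 * g)) ℂ) * Y *
      ((y⁻¹ : GL (Fin (2 * g)) ℂ) : Matrix (Fin (2 * g)) (Fin (2 * g)) ℂ) - Y = 0 := by
    rw [hY, mul_assoc, Units.mul_inv, mul_one, sub_self]
  have h3 : (x₀ : Matrix (Fin n) (Fin n) ℂ) * Z *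
      ((x₀⁻¹ : GL (Fin n) ℂ) : Matrix (Fin n) (Fin n) ℂ) - Z = 0 := GG_fst h.li h1 h2
  have h4 : (x₀ : Matrix (Fin n) (Fin n) ℂ) * Z = Z * x₀ := by
    rw [sub_eq_zero] at h3
    conv_rhs => rw [← h3]
    rw [mul_assoc, Units.inv_mul, mul_one]
  have h5 := congrArg Matrix.transpose h4
  rw [Matrix.transpose_mul, Matrix.transpose_mul, hS.t1, Matrix.transpose_transpose] at h5
  exact h5.symm

theorem part2aH (h : Mot w B P) (hW : WRel w B Wt) (hG : AlgGrp QQ H)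
    (hq : A.Full (qM B Wt H)) (hS : SitH (Wt := Wt) B H x y x₀)
    (h0 : ∀ Z ∈ SC B, (x : Matrix (Fin n) (Fin n) ℂ) * Z = Z * x → ∀ d, Stab H d Z) :
    A.NA ≤ qM B Wt H := by
  have h1 := mainH hq hS (V := oV B Wt H) (fun Y hY => hY.1)
    (by
      rintro X hX Y ⟨⟨Z, hZ⟩, hY⟩
      obtain ⟨X2, hX2, c, hc⟩ := id hX
      refine ⟨⟨X2 * Z - Z * X2, pair_br (perpI_ideal (kerM_ideal h)) hX2 hZ⟩, fun X' hX' => ?_⟩
      have h2 := hY _ (hC_br h hW hX' hX)
      rw [mul_sub, Matrix.trace_sub] at h2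
      rw [sub_mul, Matrix.trace_sub]
      have e1 : (X * Y * X').trace = (Y * (X' * X)).trace := by
        rw [mul_assoc, Matrix.trace_mul_comm, mul_assoc]
      rw [e1, mul_assoc Y X X']
      exact h2)
    (by
      rintro Y ⟨⟨Z, hZ⟩, hY⟩
      refine ⟨⟨_, hS.cp _ _ hZ⟩, fun X hX => ?_⟩
      have h3 := hY _ (hC_conjH hS hX)
      rw [← h3]
      calc ((y : Matrix (Fin (2 * g)) (Fin (2 * g)) ℂ) * Y *
            ((y⁻¹ : GL (Fin (2 * g)) ℂ) : Matrix (Fin (2 * g)) (Fin (2 * g)) ℂ) * X).trace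
          = ((y : Matrix (Fin (2 * g)) (Fin (2 * g)) ℂ) * (Y *
            ((y⁻¹ : GL (Fin (2 * g)) ℂ) : Matrix (Fin (2 * g)) (Fin (2 * g)) ℂ) * X)).trace := by
            simp only [mul_assoc]
        _ = (Y * ((y⁻¹ : GL (Fin (2 * g)) ℂ) : Matrix (Fin (2 * g)) (Fin (2 * g)) ℂ) * X *
            (y : Matrix (Fin (2 * g)) (Fin (2 * g)) ℂ)).trace := Matrix.trace_mul_comm _ _
        _ = _ := by simp only [mul_assoc])
    (by
      rintro Y ⟨⟨Z, hZ⟩, hY⟩ hYy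
      have h2 : Y ∈ hC B Wt H := by
        refine ⟨Z, GG_le (perpI_le _) hZ, 0, fun d => ?_⟩
        rw [zero_smul, add_zero]
        exact h0 _ (snd_mem (GG_le (perpI_le _) hZ)) (comm_xH h hS hZ hYy) d
      refine eq_zero_of_map fun f => ?_
      obtain ⟨X, hX, e1⟩ := hC_map hG h2 f
      have h3 : X = 0 := hq.trace X hX fun X' hX' => by
        rw [trace_mul_map f e1, hY _ (qM_hC hX'), map_zero]
      rw [← e1, h3, mv_zero])
  have hk : kerM B ≤ A.NA := fun X hX => hX.1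
  have hkq : kerM B ≤ qM B Wt H := fun K hK => ⟨hK.1, 0, hK.2, 0, by
    rw [zero_smul, add_zero]
    exact (LQ H).zero_mem⟩
  intro X hX
  obtain ⟨K, hK, X', hX', rfl⟩ := perpI_dec hk (kerM_ideal h) hX
  refine Submodule.add_mem _ (hkq hK) ?_
  let F : Module.Dual ℚ (qM B Wt H) :=
    ((LinearMap.trace ℚ A.H1).comp (LinearMap.mulLeft ℚ X')).comp (qM B Wt H).subtype
  let Q := (Pool.Agent.W516.KC2.trE (qM B Wt H) hq.trace).symm F
  have hQ : ∀ T : qM B Wt H, LinearMap.trace ℚ A.H1 (Q.1 * T.1) = F T := fun T =>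
    Pool.Agent.W516.KC2.trE_symm (qM B Wt H) hq.trace F T
  have hQ' : ∀ T ∈ qM B Wt H, LinearMap.trace ℚ A.H1 ((X' - Q.1) * T) = 0 := by
    intro T hT
    rw [sub_mul, map_sub, hQ ⟨T, hT⟩, sub_eq_zero]
    rfl
  have h2 : X' - Q.1 ∈ perpI A (kerM B) :=
    ⟨A.NA.sub_mem hX'.1 (hq.le Q.2), fun K hK => hQ' K (hkq hK)⟩
  obtain ⟨M, hM⟩ := h.st _ h2.1
  have h3 : cq (mv (X' - Q.1)) ∈ oV B Wt H := by
    refine ⟨⟨_, mem_GG h2 hM⟩, fun T hT => ?_⟩
    refine (Module.forall_dual_apply_eq_zero_iff ℚ _).1 fun f => ?_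
    obtain ⟨T', hT', e1⟩ := hC_map hG hT f
    have h4 := trace_mul_map (X' := X' - Q.1) f e1
    rw [Matrix.trace_mul_comm, ← h4, LinearMap.trace_mul_comm]
    exact hQ' T' hT'
  have h4 := h1 _ h3
  have h5 : X' - Q.1 = 0 := by
    apply mv_inj
    apply cq_inj
    rw [h4, mv_zero, cq_zero]
  rw [sub_eq_zero] at h5
  rw [h5]
  exact Q.2

end Pool.Agent.Helper5.ER
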