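import Pool.Agent.Helper5.EqRankF

set_option autoImplicit false
set_option linter.unusedSectionVars false

/-!
# The complex conjugation
-/

open Module Function TensorProduct Matrix

noncomputable section

namespace Pool.Agent.Helper5.ER

open Pool.Agent.Y102 Pool.Agent.W516.DR Pool.Agent.H204R3.GP Pool.Agent.W516.KC
  Pool.Agent.H204R3.SP Pool.Agent.TH119.MX Pool.Agent.R917 Pool.Agent.N208.AM Pool.Agent.N208.AD
  Pool.Agent.Helper5.TrKey

variable {g : ℕ} {A : AbVar g} {s n : ℕ} {r : Fin s → ℕ} {B : Fin n → Ten A r} {w : Fin s → ℤ}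
  {P : Matrix (Fin n) (Fin n) ℂ} {H : Set (Matrix (Fin n) (Fin n) ℂ)}
  {Wt : Matrix (Fin n) (Fin n) ℚ}

/-! ### The complex conjugation on the homology -/

/-- `F` is the complex conjugation on the homology. -/
def IsConj (A : AbVar g) (F : Module.End ℚ A.H1) : Prop :=
  ∀ j v, A.dR j (F v) = (starRingEnd ℂ) (A.dR j v)

variable {F : Module.End ℚ A.H1}

theorem conj_per (hF : IsConj A F) (v : A.H1) (k : Fin g) :
    A.per (F v) k = (starRingEnd ℂ) (A.per v k) := hF (Sum.inl k) v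

theorem conj_sq (hF : IsConj A F) (v : A.H1) : F (F v) = v := by
  apply A.per_inj
  funext k
  rw [conj_per hF, conj_per hF]
  exact Complex.conj_conj _

theorem conj_sq' (hF : IsConj A F) : F * F = 1 :=
  LinearMap.ext fun v => conj_sq hF v

/-- The real linear conjugation of the tangent space. -/
def cj (g : ℕ) : (Fin g → ℂ) →ₗ[ℝ] (Fin g → ℂ) :=
  LinearMap.pi fun k => Complex.conjAe.toLinearMap.comp (LinearMap.proj k)

theorem cj_apply (u : Fin g → ℂ) (k : Fin g) : cj g u k = (starRingEnd ℂ) (u k) := rfl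

theorem conj_hodge (hF : IsConj A F) {m : ℕ}
    {ψ : MultilinearMap ℚ (fun _ : Fin m × Fin 2 => A.H1) ℚ}
    (h : IsHodgeTensor (A.per : A.H1 →+ (Fin g → ℂ)) ψ) :
    IsHodgeTensor (A.per : A.H1 →+ (Fin g → ℂ)) (ψ.compLinearMap fun _ => F) := by
  obtain ⟨Ψ, h1, h2⟩ := h
  refine ⟨Ψ.compLinearMap fun _ => cj g, fun v => ?_, fun z hz u => ?_⟩
  · rw [MultilinearMap.compLinearMap_apply, MultilinearMap.compLinearMap_apply, ← h1]
    congr 1
    funext l
    funext k
    rw [cj_apply]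
    exact (conj_per hF (v l) k).symm
  · rw [MultilinearMap.compLinearMap_apply, MultilinearMap.compLinearMap_apply]
    have e : (fun l => cj g (z • u l)) = fun l => ((starRingEnd ℂ) z) • cj g (u l) := by
      funext l
      funext k
      rw [cj_apply, Pi.smul_apply, Pi.smul_apply, smul_eq_mul, smul_eq_mul, map_mul, cj_apply]
    rw [e, h2 _ (by rw [RCLike.norm_conj, hz])]

theorem conj_tau : (starRingEnd ℂ) tau = -tau := by
  have h1 : (starRingEnd ℂ) (2 * (Real.pi : ℂ) * Complex.I) = -(2 * (Real.pi : ℂ) * Complex.I) := by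
    rw [map_mul, map_mul, Complex.conj_ofReal, Complex.conj_I]
    have h2 : (starRingEnd ℂ) (2 : ℂ) = 2 := map_ofNat _ 2
    rw [h2, mul_neg]
  exact h1

theorem conj_ratCast (q : ℚ) : (starRingEnd ℂ) (q : ℂ) = q := map_ratCast _ q

theorem conj_alg {z : ℂ} (h : IsAlgebraic ℚ z) : IsAlgebraic ℚ ((starRingEnd ℂ) z) := by
  have h1 := h.algHom (Complex.conjAe.restrictScalars ℚ : ℂ ≃ₐ[ℚ] ℂ).toAlgHom
  exact h1

theorem conj_drb (hF : IsConj A F) {m : ℕ}
    {ψ : MultilinearMap ℚ (fun _ : Fin m × Fin 2 => A.H1) ℚ}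
    (h : IsDeRhamBettiForm QBar A.dR tau m ψ) :
    IsDeRhamBettiForm QBar A.dR tau m (ψ.compLinearMap fun _ => F) := by
  obtain ⟨a, ha⟩ := h
  have hal : ∀ J, IsAlgebraic ℚ ((-1 : ℂ) ^ m * (starRingEnd ℂ) (a J : ℂ)) := fun J =>
    ((isAlgebraic_one.neg).pow m).mul (conj_alg (mem_algebraicClosure_iff.1 (a J).2))
  refine ⟨fun J => ⟨_, mem_algebraicClosure_iff.2 (hal J)⟩, fun v => ?_⟩
  have h1 := congrArg (starRingEnd ℂ) (ha fun l => F (v l))
  rw [map_mul, map_pow, conj_tau, map_sum] at h1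
  have h2 : (starRingEnd ℂ) (algebraMap ℚ ℂ (ψ fun l => F (v l))) =
      algebraMap ℚ ℂ (ψ fun l => F (v l)) := conj_ratCast _
  rw [h2] at h1
  have h3 : ∀ J : Fin m × Fin 2 → Fin g ⊕ Fin g,
      (starRingEnd ℂ) (algebraMap QBar ℂ (a J) * ∏ l, A.dR (J l) (F (v l))) =
        (starRingEnd ℂ) (a J : ℂ) * ∏ l, A.dR (J l) (v l) := by
    intro J
    rw [map_mul, map_prod]
    congr 1
    refine Finset.prod_congr rfl fun l _ => ?_
    rw [hF, Complex.conj_conj]
  rw [Finset.sum_congr rfl fun J _ => h3 J] at h1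
  rw [MultilinearMap.compLinearMap_apply]
  have h4 : ((-1 : ℂ) ^ m) * ((-tau) ^ m * algebraMap ℚ ℂ (ψ fun l => F (v l))) =
      tau ^ m * algebraMap ℚ ℂ (ψ fun l => F (v l)) := by
    rw [← mul_assoc, ← mul_pow]
    congr 2
    ring
  rw [← h4, h1, Finset.mul_sum]
  refine Finset.sum_congr rfl fun J _ => ?_
  change _ = ((-1 : ℂ) ^ m * (starRingEnd ℂ) (a J : ℂ)) * _
  rw [mul_assoc]

theorem conj_update (hF : IsConj A F) {κ : Type} [DecidableEq κ] (v : κ → A.H1) (k : κ)
    (X : Module.End ℚ A.H1) :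
    (fun l => F (update (fun l => F (v l)) k (X (F (v k))) l)) =
      update v k ((F * X * F) (v k)) := by
  funext l
  by_cases h : l = k
  · subst h
    rw [update_self, update_self]
    rfl
  · rw [update_of_ne h, update_of_ne h, conj_sq hF]

theorem cjF_NA (hF : IsConj A F) {X : Module.End ℚ A.H1} (hX : X ∈ A.NA) :
    F * X * F ∈ A.NA := by
  intro m ψ h1 h2 v
  have h3 := hX m _ (conj_hodge hF h1) (conj_drb hF h2) (fun l => F (v l))
  rw [← h3]
  refine Finset.sum_congr rfl fun k _ => ?_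
  rw [MultilinearMap.compLinearMap_apply, conj_update hF]

/-! ### The complex conjugation on the motive -/

/-- `C` is the matrix of the complex conjugation on the motive. -/
def CRel (F : Module.End ℚ A.H1) (w : Fin s → ℤ) (B : Fin n → Ten A r)
    (C : Matrix (Fin n) (Fin n) ℚ) : Prop :=
  ∀ a i v, (-1 : ℚ) ^ (w i) * B a i (fun k => F (v k)) = ∑ b, C b a * B b i v

variable {C : Matrix (Fin n) (Fin n) ℚ}

theorem sgn_sq (k : ℤ) : (-1 : ℚ) ^ k * (-1 : ℚ) ^ k = 1 := by
  rw [← mul_zpow]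
  norm_num

theorem CRel.sq (h : LinearIndependent ℚ B) (hF : IsConj A F) (hC : CRel F w B C) :
    C * C = 1 := by
  ext c a
  refine congrFun (eq_of_comb h (x := fun c => (C * C) c a)
    (y := fun c => (1 : Matrix (Fin n) (Fin n) ℚ) c a) fun i => ?_) c
  refine MultilinearMap.ext fun v => ?_
  rw [_root_.sum_apply, _root_.sum_apply]
  have h1 : ∑ c, ((1 : Matrix (Fin n) (Fin n) ℚ) c a • B c i) v = B a i v := by
    rw [Finset.sum_eq_single a]
    · rw [Matrix.one_apply_eq, one_smul]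
    · intro b _ hb
      rw [Matrix.one_apply_ne hb, zero_smul]
      rfl
    · intro hc
      exact absurd (Finset.mem_univ _) hc
  rw [h1]
  have h2 : B a i v = (-1 : ℚ) ^ (w i) * ((-1 : ℚ) ^ (w i) * B a i (fun k => F (F (v k)))) := by
    rw [← mul_assoc, sgn_sq, one_mul]
    congr 1
    funext k
    rw [conj_sq hF]
  rw [h2, hC a i (fun k => F (v k)), Finset.mul_sum]
  have h3 : ∀ b, (-1 : ℚ) ^ (w i) * (C b a * B b i fun k => F (v k)) =
      ∑ c, C b a * (C c b * B c i v) := by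
    intro b
    rw [← Finset.mul_sum, ← hC b i v]
    ring
  rw [Finset.sum_congr rfl fun b _ => h3 b, Finset.sum_comm]
  refine Finset.sum_congr rfl fun c _ => ?_
  rw [_root_.smul_apply, smul_eq_mul, Matrix.mul_apply, Finset.sum_mul]
  exact Finset.sum_congr rfl fun b _ => by ring

/-- The action of the conjugate of an element of the Lie algebra. -/
theorem CRel.rel (hF : IsConj A F) (hC : CRel F w B C) {X : Module.End ℚ A.H1}
    {M : Matrix (Fin n) (Fin n) ℚ} (hM : Rel B X M) : Rel B (F * X * F) (C * M * C) := by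
  intro a i
  refine MultilinearMap.ext fun v => ?_
  rw [dact_apply, _root_.sum_apply]
  have h0 : ∀ (b : Fin n) (v : Fin (r i) → A.H1), B b i (fun k => F (v k)) =
      (-1 : ℚ) ^ (w i) * ∑ c, C c b * B c i v := by
    intro b v
    rw [← hC b i v, ← mul_assoc, sgn_sq, one_mul]
  have h1 : ∀ k, B a i (update v k ((F * X * F) (v k))) =
      (-1 : ℚ) ^ (w i) * ∑ c, C c a * B c i (update (fun l => F (v l)) k (X (F (v k)))) := by
    intro k
    rw [← h0, conj_update hF]
  rw [Finset.sum_congr rfl fun k _ => h1 k, ← Finset.mul_sum, Finset.sum_comm]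
  have h2 : ∀ c, ∑ k, C c a * B c i (update (fun l => F (v l)) k (X (F (v k)))) =
      C c a * ∑ b, M b c * B b i (fun l => F (v l)) := by
    intro c
    rw [← Finset.mul_sum]
    congr 1
    have h3 := congrArg (fun φ : MultilinearMap ℚ (fun _ : Fin (r i) => A.H1) ℚ =>
      φ (fun l => F (v l))) (hM c i)
    simp only [dact_apply, _root_.sum_apply, _root_.smul_apply, smul_eq_mul] at h3
    exact h3
  rw [Finset.sum_congr rfl fun c _ => h2 c]
  have h4 : ∀ c, C c a * ∑ b, M b c * B b i (fun l => F (v l)) =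
      (-1 : ℚ) ^ (w i) * ∑ b, ∑ d, C c a * (M b c * (C d b * B d i v)) := by
    intro c
    rw [Finset.mul_sum, Finset.mul_sum]
    refine Finset.sum_congr rfl fun b _ => ?_
    rw [h0 b v, ← Finset.mul_sum, ← Finset.mul_sum]
    ring
  rw [Finset.sum_congr rfl fun c _ => h4 c, ← Finset.mul_sum, ← mul_assoc, sgn_sq, one_mul]
  have h5 : ∀ c, ∑ b, ∑ d, C c a * (M b c * (C d b * B d i v)) =
      ∑ d, ∑ b, C c a * (M b c * (C d b * B d i v)) := fun c => Finset.sum_comm
  rw [Finset.sum_congr rfl fun c _ => h5 c, Finset.sum_comm]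
  refine Finset.sum_congr rfl fun d _ => ?_
  rw [_root_.smul_apply, smul_eq_mul, Matrix.mul_apply, Finset.sum_mul]
  refine Finset.sum_congr rfl fun c _ => ?_
  rw [Matrix.mul_apply, Finset.sum_mul, Finset.sum_mul]
  exact Finset.sum_congr rfl fun b _ => by ring

theorem CRel.wt (h : LinearIndependent ℚ B) (hC : CRel F w B C) (hW : WRel w B Wt) :
    C * Wt = Wt * C := by
  ext c a
  refine congrFun (eq_of_comb h (x := fun c => (C * Wt) c a)
    (y := fun c => (Wt * C) c a) fun i => ?_) c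
  refine MultilinearMap.ext fun v => ?_
  have hW' : ∀ a (v : Fin (r i) → A.H1), ((r i : ℚ) - 2 * w i) * B a i v =
      ∑ b, Wt b a * B b i v := by
    intro a v
    have h1 := congrArg (fun φ : MultilinearMap ℚ (fun _ : Fin (r i) => A.H1) ℚ => φ v) (hW a i)
    simp only [_root_.sum_apply, _root_.smul_apply, smul_eq_mul] at h1
    exact h1
  rw [_root_.sum_apply, _root_.sum_apply]
  have h1 : ∑ c, ((C * Wt) c a • B c i) v =
      (-1 : ℚ) ^ (w i) * (((r i : ℚ) - 2 * w i) * B a i (fun k => F (v k))) := by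
    rw [hW' a fun k => F (v k), Finset.mul_sum]
    have h2 : ∀ b, (-1 : ℚ) ^ (w i) * (Wt b a * B b i fun k => F (v k)) =
        ∑ c, Wt b a * (C c b * B c i v) := by
      intro b
      rw [← Finset.mul_sum, ← hC b i v]
      ring
    rw [Finset.sum_congr rfl fun b _ => h2 b, Finset.sum_comm]
    refine Finset.sum_congr rfl fun c _ => ?_
    rw [_root_.smul_apply, smul_eq_mul, Matrix.mul_apply, Finset.sum_mul]
    exact Finset.sum_congr rfl fun b _ => by ring
  have h2 : ∑ c, ((Wt * C) c a • B c i) v =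
      ((r i : ℚ) - 2 * w i) * ((-1 : ℚ) ^ (w i) * B a i (fun k => F (v k))) := by
    rw [hC a i v, Finset.mul_sum]
    have h2 : ∀ b, ((r i : ℚ) - 2 * w i) * (C b a * B b i v) =
        ∑ c, C b a * (Wt c b * B c i v) := by
      intro b
      rw [← Finset.mul_sum, ← hW' b v]
      ring
    rw [Finset.sum_congr rfl fun b _ => h2 b, Finset.sum_comm]
    refine Finset.sum_congr rfl fun c _ => ?_
    rw [_root_.smul_apply, smul_eq_mul, Matrix.mul_apply, Finset.sum_mul]
    exact Finset.sum_congr rfl fun b _ => by ring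
  rw [h1, h2]
  ring

/-! ### Stability of the kernel and of its complement -/

theorem conj_ker (hF : IsConj A F) (hC : CRel F w B C) {X : Module.End ℚ A.H1}
    (hX : X ∈ kerM B) : F * X * F ∈ kerM B := by
  refine ⟨cjF_NA hF hX.1, ?_⟩
  have h1 := hC.rel hF hX.2
  rwa [mul_zero, zero_mul] at h1

theorem conj_perp (hF : IsConj A F) (hC : CRel F w B C) {X : Module.End ℚ A.H1}
    (hX : X ∈ perpI A (kerM B)) : F * X * F ∈ perpI A (kerM B) := by
  refine ⟨cjF_NA hF hX.1, fun K hK => ?_⟩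
  have h1 := hX.2 _ (conj_ker hF hC hK)
  have h2 : LinearMap.trace ℚ A.H1 (F * X * F * K) = LinearMap.trace ℚ A.H1 (X * (F * K * F)) := by
    rw [mul_assoc, mul_assoc, LinearMap.trace_mul_comm]
    simp only [mul_assoc]
  rw [h2, h1]

/-- The conjugation as an automorphism. -/
def fG (hF : IsConj A F) : GL (Fin (2 * g)) ℂ where
  val := cq (mv F)
  inv := cq (mv F)
  val_inv := by rw [← cq_mul, ← mv_mul, conj_sq' hF, mv_one', cq_one']
  inv_val := by rw [← cq_mul, ← mv_mul, conj_sq' hF, mv_one', cq_one']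

/-- An involution as an automorphism. -/
def cG (hC : C * C = 1) : GL (Fin n) ℂ where
  val := cq C
  inv := cq C
  val_inv := by rw [← cq_mul, hC, cq_one']
  inv_val := by rw [← cq_mul, hC, cq_one']

/-- The transpose of an involution as an automorphism. -/
def tG (hC : C * C = 1) : GL (Fin n) ℂ where
  val := (cq C)ᵀ
  inv := (cq C)ᵀ
  val_inv := by rw [← Matrix.transpose_mul, ← cq_mul, hC, cq_one', Matrix.transpose_one]
  inv_val := by rw [← Matrix.transpose_mul, ← cq_mul, hC, cq_one', Matrix.transpose_one]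

theorem GG_conj {S : Submodule ℚ (Module.End ℚ A.H1)} (hF : IsConj A F) (hC : CRel F w B C)
    (hS : ∀ X ∈ S, F * X * F ∈ S)
    {p : Matrix (Fin (2 * g)) (Fin (2 * g)) ℂ × Matrix (Fin n) (Fin n) ℂ} (hp : p ∈ GG B S) :
    (cq (mv F) * p.1 * cq (mv F), (cq C)ᵀ * p.2 * (cq C)ᵀ) ∈ GG B S := by
  induction hp using Submodule.span_induction with
  | mem p hp =>
    obtain ⟨X, hX, M, hM, rfl⟩ := hp
    have h1 := mem_GG (hS X hX) (hC.rel hF hM)
    unfold pr at h1 ⊢
    rw [mv_mul, mv_mul, cq_mul, cq_mul, cq_mul, cq_mul, Matrix.transpose_mul,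
      Matrix.transpose_mul, ← mul_assoc] at h1
    exact h1
  | zero =>
    simp only [Prod.fst_zero, Prod.snd_zero, mul_zero, zero_mul]
    exact Submodule.zero_mem _
  | add a b _ _ ha hb =>
    have h1 := Submodule.add_mem _ ha hb
    rw [Prod.mk_add_mk] at h1
    simp only [Prod.fst_add, Prod.snd_add, mul_add, add_mul]
    exact h1
  | smul c a _ ha =>
    have h1 := Submodule.smul_mem _ c ha
    rw [Prod.smul_mk] at h1
    simp only [Prod.smul_fst, Prod.smul_snd, mul_smul_comm, smul_mul_assoc]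
    exact h1

theorem fG_val (hF : IsConj A F) :
    ((fG hF : GL (Fin (2 * g)) ℂ) : Matrix (Fin (2 * g)) (Fin (2 * g)) ℂ) = cq (mv F) := rfl

theorem fG_inv (hF : IsConj A F) :
    (((fG hF)⁻¹ : GL (Fin (2 * g)) ℂ) : Matrix (Fin (2 * g)) (Fin (2 * g)) ℂ) = cq (mv F) := rfl

theorem cG_val (hC : C * C = 1) :
    ((cG hC : GL (Fin n) ℂ) : Matrix (Fin n) (Fin n) ℂ) = cq C := rfl

theorem cG_inv (hC : C * C = 1) :
    (((cG hC)⁻¹ : GL (Fin n) ℂ) : Matrix (Fin n) (Fin n) ℂ) = cq C := rfl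

theorem tG_val (hC : C * C = 1) :
    ((tG hC : GL (Fin n) ℂ) : Matrix (Fin n) (Fin n) ℂ) = (cq C)ᵀ := rfl

theorem tG_inv (hC : C * C = 1) :
    (((tG hC)⁻¹ : GL (Fin n) ℂ) : Matrix (Fin n) (Fin n) ℂ) = (cq C)ᵀ := rfl

attribute [irreducible] fG cG tG

/-- The situation given by the complex conjugation. -/
theorem sitF (h : Mot w B P) (hW : WRel w B Wt) (hF : IsConj A F)
    (hZ : ∀ E ∈ A.EA, (∀ E' ∈ A.EA, E * E' = E' * E) → E * F = F * E) (hC : CRel F w B C)
    (hst : ∀ Z : Matrix (Fin n) (Fin n) ℂ, (∀ d, Stab H d Z) → ∀ d, Stab H d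
      (cq C * Z * cq C)) :
    SitH (Wt := Wt) B H (cG (hC.sq h.li hF)) (fG hF) (tG (hC.sq h.li hF)) where
  cn := fun Y Z hp => by
    have h1 := GG_conj hF hC (fun X hX => cjF_NA hF hX) hp
    rw [fG_inv, fG_val, tG_inv, tG_val]
    exact h1
  cp := fun Y Z hp => by
    have h1 := GG_conj hF hC (fun X hX => conj_perp hF hC hX) hp
    rw [fG_inv, fG_val, tG_inv, tG_val]
    exact h1
  c := fun E hE hE' => by
    rw [fG_val, ← cq_mul, ← cq_mul, ← mv_mul, ← mv_mul, hZ E hE hE']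
  t1 := by rw [tG_val, cG_val]
  t2 := by rw [tG_inv, cG_inv]
  wt := fun M hM => by
    rw [Set.mem_singleton_iff] at hM
    rw [hM, cG_val, ← cq_mul, ← cq_mul, hC.wt h.li hW]
  st := fun Z hZ' d => by
    rw [cG_val, cG_inv]
    exact hst Z hZ' d

/-! ### The conjugate of the matrix of the periods -/

theorem comb_complex (hB : LinearIndependent ℚ B) {x y : Fin n → ℂ}
    (h : ∀ i (v : Fin (r i) → A.H1), ∑ b, x b * (B b i v : ℂ) = ∑ b, y b * (B b i v : ℂ)) :
    x = y := by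
  have h1 : ∀ f : ℂ →ₗ[ℚ] ℚ, (fun b => f (x b)) = fun b => f (y b) := by
    intro f
    have hq : ∀ (z : ℂ) (q : ℚ), f (z * (q : ℂ)) = f z * q := by
      intro z q
      have h3 : z * (q : ℂ) = q • z := by rw [Rat.smul_def, mul_comm]
      rw [h3, map_smul, smul_eq_mul, mul_comm]
    refine eq_of_comb hB fun i => ?_
    refine MultilinearMap.ext fun v => ?_
    rw [_root_.sum_apply, _root_.sum_apply]
    have h2 := congrArg f (h i v)
    rw [map_sum, map_sum] at h2
    simp only [hq] at h2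
    exact h2
  funext b
  rw [← sub_eq_zero]
  refine (Module.forall_dual_apply_eq_zero_iff ℚ _).1 fun f => ?_
  rw [map_sub, sub_eq_zero]
  exact congrFun (h1 f) b

/-- The complex conjugate of the matrix of the periods. -/
theorem conj_period (hB : LinearIndependent ℚ B) (hF : IsConj A F) (hC : CRel F w B C)
    (hdR : ∃ c : Fin n → ∀ i : Fin s, (Fin (r i) → Fin g ⊕ Fin g) → ℂ,
      (∀ a i J, (starRingEnd ℂ) (c a i J) = c a i J) ∧ ∀ a i (v : Fin (r i) → A.H1),
        ∑ J, c a i J * ∏ k, A.dR (J k) (v k) = tau ^ (w i) * ∑ b, P b a * (B b i v : ℂ)) :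
    P.map (starRingEnd ℂ) = cq C * P := by
  obtain ⟨c, hc, hdR⟩ := hdR
  have h0 : (tau : ℂ) ≠ 0 := AbVar.tau_ne
  ext d a
  refine congrFun (comb_complex hB (x := fun d => (P.map (starRingEnd ℂ)) d a)
    (y := fun d => (cq C * P) d a) fun i v => ?_) d
  have h1 := congrArg (starRingEnd ℂ) (hdR a i v)
  have h2 := hdR a i fun k => F (v k)
  have h3 : (starRingEnd ℂ) (∑ J, c a i J * ∏ k, A.dR (J k) (v k)) =
      ∑ J, c a i J * ∏ k, A.dR (J k) (F (v k)) := by
    rw [map_sum]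
    refine Finset.sum_congr rfl fun J _ => ?_
    rw [map_mul, map_prod, hc]
    congr 1
    exact Finset.prod_congr rfl fun k _ => (hF _ _).symm
  have h4 : (starRingEnd ℂ) ((tau : ℂ) ^ (w i) * ∑ b, P b a * (B b i v : ℂ)) =
      (-tau : ℂ) ^ (w i) * ∑ b, (P.map (starRingEnd ℂ)) b a * (B b i v : ℂ) := by
    rw [map_mul, map_zpow₀, conj_tau, map_sum]
    congr 1
    refine Finset.sum_congr rfl fun b _ => ?_
    rw [map_mul, conj_ratCast, Matrix.map_apply]
  rw [h3, h2, h4] at h1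
  have h5 : ((-1 : ℂ) ^ (w i)) * ((-1 : ℂ) ^ (w i)) = 1 := by
    rw [← mul_zpow]
    norm_num
  have h6 : (-tau : ℂ) ^ (w i) = tau ^ (w i) * (-1 : ℂ) ^ (w i) := by
    rw [← mul_zpow]
    congr 1
    ring
  rw [h6, mul_assoc] at h1
  have h7 := mul_left_cancel₀ (zpow_ne_zero (w i) h0) h1
  have h8 : ∀ b, (B b i (fun k => F (v k)) : ℂ) =
      (-1 : ℂ) ^ (w i) * ∑ e, (C e b : ℂ) * (B e i v : ℂ) := by
    intro b
    have h9 : ((((-1 : ℚ) ^ (w i) * B b i (fun k => F (v k)) : ℚ)) : ℂ) =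
        ((∑ e, C e b * B e i v : ℚ) : ℂ) := congrArg _ (hC b i v)
    push_cast at h9
    rw [← h9, ← mul_assoc, h5, one_mul]
  have h10 : ∑ b, P b a * (B b i (fun k => F (v k)) : ℂ) =
      (-1 : ℂ) ^ (w i) * ∑ d, (cq C * P) d a * (B d i v : ℂ) := by
    have h11 : ∀ b, P b a * (B b i (fun k => F (v k)) : ℂ) =
        (-1 : ℂ) ^ (w i) * ∑ e, P b a * ((C e b : ℂ) * (B e i v : ℂ)) := by
      intro b
      rw [h8 b, ← Finset.mul_sum]
      ring
    rw [Finset.sum_congr rfl fun b _ => h11 b, ← Finset.mul_sum, Finset.sum_comm]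
    congr 1
    refine Finset.sum_congr rfl fun e _ => ?_
    rw [Matrix.mul_apply, Finset.sum_mul]
    refine Finset.sum_congr rfl fun b _ => ?_
    change _ = ((C e b : ℚ) : ℂ) * P b a * _
    ring
  rw [h10] at h7
  have h12 := mul_left_cancel₀ (zpow_ne_zero (w i) (by norm_num : (-1 : ℂ) ≠ 0)) h7
  exact h12.symm

end Pool.Agent.Helper5.ER
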