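import Pool.Agent.Helper5.EqRankG

set_option autoImplicit false
set_option linter.unusedSectionVars false

/-!
# The intersection of a group which contains the periods with its complex conjugate
-/

open Module Function TensorProduct Matrix

noncomputable section

namespace Pool.Agent.Helper5.ER

open Pool.Agent.Y102 Pool.Agent.W516.DR Pool.Agent.H204R3.GP Pool.Agent.W516.KC
  Pool.Agent.H204R3.SP Pool.Agent.TH119.MX Pool.Agent.R917 Pool.Agent.N208.AM Pool.Agent.N208.AD
  Pool.Agent.Helper5.TrKey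

variable {g : ℕ} {A : AbVar g} {s n : ℕ} {r : Fin s → ℕ} {B : Fin n → Ten A r} {w : Fin s → ℤ}
  {P : Matrix (Fin n) (Fin n) ℂ} {H : Set (Matrix (Fin n) (Fin n) ℂ)}
  {Wt : Matrix (Fin n) (Fin n) ℚ} {F : Module.End ℚ A.H1} {C : Matrix (Fin n) (Fin n) ℚ}

/-- A system of equations with algebraic coefficients with a complex solution has an algebraic
solution. -/
theorem exists_QBar_zero {σ : Type} [Finite σ] (S : Set (MvPolynomial σ QBar)) (z : σ → ℂ)
    (hz : ∀ p ∈ S, MvPolynomial.aeval z p = 0) :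
    ∃ x : σ → QBar, ∀ p ∈ S, MvPolynomial.aeval x p = 0 := by
  have h1 : Ideal.span S ≠ ⊤ := by
    intro h
    have h2 : (1 : MvPolynomial σ QBar) ∈ Ideal.span S := h ▸ Submodule.mem_top
    have h3 : Ideal.span S ≤
        RingHom.ker (MvPolynomial.aeval z : MvPolynomial σ QBar →ₐ[QBar] ℂ) :=
      Ideal.span_le.2 fun p hp => hz p hp
    have h4 := h3 h2
    rw [RingHom.mem_ker, map_one] at h4
    exact one_ne_zero h4
  obtain ⟨M, hM, hle⟩ := Ideal.exists_le_maximal _ h1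
  obtain ⟨x, hx⟩ := MvPolynomial.isMaximal_iff_eq_vanishingIdeal_singleton.1 hM
  refine ⟨x, fun p hp => ?_⟩
  have h2 := hle (Ideal.subset_span hp)
  rw [hx, MvPolynomial.mem_vanishingIdeal_singleton_iff] at h2
  exact h2

/-- The embedding of the algebraic matrices. -/
abbrev qb {m : ℕ} (M : Matrix (Fin m) (Fin m) QBar) : Matrix (Fin m) (Fin m) ℂ :=
  M.map (algebraMap QBar ℂ)

theorem qb_det {m : ℕ} (M : Matrix (Fin m) (Fin m) QBar) :
    (qb M).det = algebraMap QBar ℂ M.det := ((algebraMap QBar ℂ).map_det M).symm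

theorem aeval_comp {σ : Type} {R R' : Type} [CommRing R] [Algebra ℚ R] [CommRing R']
    [Algebra ℚ R'] (f : σ → R) (φ : R →ₐ[ℚ] R') (p : MvPolynomial σ ℚ) :
    φ (MvPolynomial.aeval f p) = MvPolynomial.aeval (fun b => φ (f b)) p := by
  have h := MvPolynomial.comp_aeval_apply (R := ℚ) f φ p
  exact h

/-- Algebraic points of the intersection of two torsors. -/
theorem exists_alg_pt {G : Subgroup (GL (Fin n) ℂ)}
    (hG : ∃ I : Set (MvPolynomial (Fin n × Fin n) ℚ), ∀ x : GL (Fin n) ℂ, x ∈ G ↔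
      ∀ p ∈ I, MvPolynomial.aeval
        (fun b : Fin n × Fin n => (x : Matrix (Fin n) (Fin n) ℂ) b.1 b.2) p = 0)
    (U V : Fin 2 → Matrix (Fin n) (Fin n) QBar) (X0 : GL (Fin n) ℂ) (u : Fin 2 → GL (Fin n) ℂ)
    (hu : ∀ i, u i ∈ G)
    (hu' : ∀ i, (u i : Matrix (Fin n) (Fin n) ℂ) =
      qb (U i) * (X0 : Matrix (Fin n) (Fin n) ℂ) * qb (V i)) :
    ∃ X : Matrix (Fin n) (Fin n) QBar, X.det ≠ 0 ∧
      ∀ i, ∃ u' ∈ G, (u' : Matrix (Fin n) (Fin n) ℂ) = qb (U i) * qb X * qb (V i) := by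
  obtain ⟨I, hI⟩ := hG
  let Xm : Matrix (Fin n) (Fin n) (MvPolynomial ((Fin n × Fin n) ⊕ Unit) QBar) :=
    Matrix.of fun i j => MvPolynomial.X (Sum.inl (i, j))
  let L : Fin 2 → Matrix (Fin n) (Fin n) (MvPolynomial ((Fin n × Fin n) ⊕ Unit) QBar) :=
    fun i => (U i).map MvPolynomial.C * Xm * (V i).map MvPolynomial.C
  -- evaluation
  have hev : ∀ {R : Type} [CommRing R] [Algebra QBar R] (z : (Fin n × Fin n) ⊕ Unit → R) (i : Fin 2)
      (b : Fin n × Fin n), MvPolynomial.aeval z (L i b.1 b.2) =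
        ((U i).map (algebraMap QBar R) * (Matrix.of fun k l => z (Sum.inl (k, l))) *
          (V i).map (algebraMap QBar R)) b.1 b.2 := by
    intro R _ _ z i b
    simp only [L, Xm, Matrix.mul_apply, Matrix.map_apply, Matrix.of_apply, map_sum, map_mul,
      MvPolynomial.aeval_C, MvPolynomial.aeval_X]
  have hdet : ∀ {R : Type} [CommRing R] [Algebra QBar R] (z : (Fin n × Fin n) ⊕ Unit → R),
      MvPolynomial.aeval z (Xm.det * MvPolynomial.X (Sum.inr ()) - 1) =
        (Matrix.of fun k l => z (Sum.inl (k, l))).det * z (Sum.inr ()) - 1 := by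
    intro R _ _ z
    rw [map_sub, map_mul, map_one, MvPolynomial.aeval_X, AlgHom.map_det]
    congr 3
    ext i j
    simp only [Xm, AlgHom.mapMatrix_apply, Matrix.map_apply, Matrix.of_apply, MvPolynomial.aeval_X]
  have hX0 : (X0 : Matrix (Fin n) (Fin n) ℂ).det ≠ 0 :=
    (Matrix.GeneralLinearGroup.det X0).ne_zero
  obtain ⟨x, hx⟩ := exists_QBar_zero
    (S := {q | (∃ i, ∃ p ∈ I, q = MvPolynomial.aeval (fun b => L i b.1 b.2) p) ∨
      q = Xm.det * MvPolynomial.X (Sum.inr ()) - 1})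
    (z := Sum.elim (fun b => (X0 : Matrix (Fin n) (Fin n) ℂ) b.1 b.2)
      (fun _ => ((X0 : Matrix (Fin n) (Fin n) ℂ).det)⁻¹)) (by
      rintro q (⟨i, p, hp, rfl⟩ | rfl)
      · have h1 := aeval_comp (σ := Fin n × Fin n) (fun b => L i b.1 b.2)
          ((MvPolynomial.aeval (R := QBar) (Sum.elim
            (fun b => (X0 : Matrix (Fin n) (Fin n) ℂ) b.1 b.2)
            (fun _ => ((X0 : Matrix (Fin n) (Fin n) ℂ).det)⁻¹))).restrictScalars ℚ) p
        have h2 := (hI (u i)).1 (hu i) p hp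
        refine Eq.trans h1 (Eq.trans ?_ h2)
        congr 2
        funext b
        refine (hev _ i b).trans ?_
        rw [hu' i]
        rfl
      · rw [hdet]
        change (X0 : Matrix (Fin n) (Fin n) ℂ).det * ((X0 : Matrix (Fin n) (Fin n) ℂ).det)⁻¹ - 1 =
          0
        rw [mul_inv_cancel₀ hX0, sub_self])
  have h3 := hx _ (Or.inr rfl)
  rw [hdet, sub_eq_zero] at h3
  have h4 : (Matrix.of fun k l => x (Sum.inl (k, l))).det ≠ 0 := left_ne_zero_of_mul_eq_one h3
  refine ⟨Matrix.of fun k l => x (Sum.inl (k, l)), h4, fun i => ?_⟩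
  have h5 : (u i : Matrix (Fin n) (Fin n) ℂ).det ≠ 0 :=
    (Matrix.GeneralLinearGroup.det (u i)).ne_zero
  rw [hu' i, Matrix.det_mul, Matrix.det_mul] at h5
  have h6 : (qb (U i) * qb (Matrix.of fun k l => x (Sum.inl (k, l))) * qb (V i)).det ≠ 0 := by
    rw [Matrix.det_mul, Matrix.det_mul, qb_det (Matrix.of fun k l => x (Sum.inl (k, l)))]
    refine mul_ne_zero (mul_ne_zero ?_ ?_) ?_
    · exact left_ne_zero_of_mul (left_ne_zero_of_mul h5)
    · exact (map_ne_zero _).2 h4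
    · exact right_ne_zero_of_mul h5
  refine ⟨Matrix.GeneralLinearGroup.mkOfDetNeZero _ h6, (hI _).2 fun p hp => ?_, rfl⟩
  have h7 := hx _ (Or.inl ⟨i, p, hp, rfl⟩)
  have h8 := aeval_comp (σ := Fin n × Fin n) (fun b => L i b.1 b.2)
    ((MvPolynomial.aeval (R := QBar) x).restrictScalars ℚ) p
  have h9 : MvPolynomial.aeval (fun b : Fin n × Fin n => MvPolynomial.aeval x (L i b.1 b.2)) p =
      0 := by
    rw [← h7]
    exact h8.symm
  have h10 := aeval_comp (σ := Fin n × Fin n)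
    (fun b : Fin n × Fin n => MvPolynomial.aeval x (L i b.1 b.2))
    ((Algebra.ofId QBar ℂ).restrictScalars ℚ) p
  rw [h9, map_zero] at h10
  refine Eq.trans ?_ h10.symm
  congr 2
  funext b
  have h11 := hev x i b
  have h12 : ((Algebra.ofId QBar ℂ).restrictScalars ℚ) (MvPolynomial.aeval x (L i b.1 b.2)) =
      algebraMap QBar ℂ (((U i).map (algebraMap QBar QBar) *
        (Matrix.of fun k l => x (Sum.inl (k, l))) * (V i).map (algebraMap QBar QBar)) b.1 b.2) := by
    rw [← h11]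
    rfl
  rw [h12]
  have h13 : ∀ M : Matrix (Fin n) (Fin n) QBar, M.map (algebraMap QBar QBar) = M := fun M => by
    ext k l
    rfl
  rw [h13, h13]
  change (qb (U i) * qb (Matrix.of fun k l => x (Sum.inl (k, l))) * qb (V i)) b.1 b.2 =
    (qb (U i * (Matrix.of fun k l => x (Sum.inl (k, l))) * V i)) b.1 b.2
  unfold qb
  rw [Matrix.map_mul, Matrix.map_mul]

end Pool.Agent.Helper5.ER
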