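import Pool.Agent.Helper5.EqRankI

set_option autoImplicit false
set_option linter.unusedSectionVars false

/-!
# The complex conjugation: main theorem
-/

open Module Function TensorProduct Matrix

noncomputable section

namespace Pool.Agent.Helper5.ER

open Pool.Agent.Y102 Pool.Agent.W516.DR Pool.Agent.H204R3.GP Pool.Agent.W516.KC
  Pool.Agent.H204R3.SP Pool.Agent.TH119.MX Pool.Agent.R917 Pool.Agent.N208.AM Pool.Agent.N208.AD
  Pool.Agent.Helper5.TrKey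

variable {g : ℕ} {A : AbVar g} {s n : ℕ} {r : Fin s → ℕ} {B : Fin n → Ten A r} {w : Fin s → ℤ}
  {P : Matrix (Fin n) (Fin n) ℂ} {H : Set (Matrix (Fin n) (Fin n) ℂ)}
  {Wt : Matrix (Fin n) (Fin n) ℚ} {F : Module.End ℚ A.H1} {C : Matrix (Fin n) (Fin n) ℚ}

/-- The description of an algebraic group over `ℚ`. -/
def IsAlgG (G : Subgroup (GL (Fin n) ℂ)) : Prop :=
  ∃ I : Set (MvPolynomial (Fin n × Fin n) ℚ), ∀ x : GL (Fin n) ℂ, x ∈ G ↔
    ∀ p ∈ I, MvPolynomial.aeval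
      (fun b : Fin n × Fin n => (x : Matrix (Fin n) (Fin n) ℂ) b.1 b.2) p = 0

/-- The intersection of a group with its conjugate. -/
def interG (G : Subgroup (GL (Fin n) ℂ)) (c : GL (Fin n) ℂ) : Subgroup (GL (Fin n) ℂ) :=
  G ⊓ G.comap (MulAut.conj c).toMonoidHom

theorem mem_interG {G : Subgroup (GL (Fin n) ℂ)} {c u : GL (Fin n) ℂ} :
    u ∈ interG G c ↔ u ∈ G ∧ c * u * c⁻¹ ∈ G := Iff.rfl

theorem interG_alg {G : Subgroup (GL (Fin n) ℂ)} (hG : IsAlgG G) (hC : C * C = 1) :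
    IsAlgG (interG G (cG hC)) := by
  obtain ⟨I, hI⟩ := hG
  let L : Matrix (Fin n) (Fin n) (MvPolynomial (Fin n × Fin n) ℚ) :=
    C.map MvPolynomial.C * (Matrix.of fun i j => MvPolynomial.X (i, j)) * C.map MvPolynomial.C
  have hev : ∀ (x : GL (Fin n) ℂ) (p : MvPolynomial (Fin n × Fin n) ℚ),
      MvPolynomial.aeval (fun b : Fin n × Fin n => (x : Matrix (Fin n) (Fin n) ℂ) b.1 b.2)
        (MvPolynomial.aeval (fun b : Fin n × Fin n => L b.1 b.2) p) =
      MvPolynomial.aeval (fun b : Fin n × Fin n =>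
        ((cG hC * x * (cG hC)⁻¹ : GL (Fin n) ℂ) : Matrix (Fin n) (Fin n) ℂ) b.1 b.2) p := by
    intro x p
    rw [aeval_comp]
    congr 2
    funext b
    rw [Units.val_mul, Units.val_mul, cG_inv, cG_val]
    simp only [L, Matrix.mul_apply, Matrix.map_apply, Matrix.of_apply, map_sum, map_mul,
      MvPolynomial.aeval_X]
    have h1 : ∀ q : ℚ, MvPolynomial.aeval (fun b : Fin n × Fin n =>
        (x : Matrix (Fin n) (Fin n) ℂ) b.1 b.2) (MvPolynomial.C q : MvPolynomial (Fin n × Fin n) ℚ) =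
        (q : ℂ) := fun q => MvPolynomial.aeval_C _ q
    simp only [h1]
  refine ⟨I ∪ {q | ∃ p ∈ I, q = MvPolynomial.aeval (fun b : Fin n × Fin n => L b.1 b.2) p},
    fun x => ?_⟩
  rw [mem_interG, hI, hI]
  constructor
  · rintro ⟨h1, h2⟩ p (hp | ⟨p, hp, rfl⟩)
    · exact h1 p hp
    · rw [hev]
      exact h2 p hp
  · intro h1
    refine ⟨fun p hp => h1 p (Or.inl hp), fun p hp => ?_⟩
    rw [← hev]
    exact h1 _ (Or.inr ⟨p, hp, rfl⟩)

/-- The complex conjugation as an automorphism of the field of the complex numbers. -/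
def sg : ℂ ≃+* ℂ := Complex.conjAe.toRingEquiv

theorem sg_apply (z : ℂ) : sg z = (starRingEnd ℂ) z := rfl

theorem conj_mem {G : Subgroup (GL (Fin n) ℂ)} (hG : IsAlgG G) {z : GL (Fin n) ℂ} (hz : z ∈ G) :
    ∃ z' ∈ G, (z' : Matrix (Fin n) (Fin n) ℂ) =
      (z : Matrix (Fin n) (Fin n) ℂ).map (starRingEnd ℂ) := by
  have h1 := algGrp_of hG
  have h2 : ∀ x ∈ QQ, sg x = x := by
    rintro _ ⟨q, rfl⟩
    exact map_ratCast sg q
  obtain ⟨z', h3, h4⟩ := h1.map_aut h2 ⟨z, hz, rfl⟩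
  refine ⟨z', h3, ?_⟩
  rw [h4]
  rfl

theorem conj_inv_map {m : ℕ} {M M' : Matrix (Fin m) (Fin m) ℂ} (h : M * M' = 1) :
    M.map (starRingEnd ℂ) * M'.map (starRingEnd ℂ) = 1 := by
  rw [← Matrix.map_mul, h, Matrix.map_one _ (map_zero _) (map_one _)]

/-- The period point of the intersection. -/
theorem inter_pt {G : Subgroup (GL (Fin n) ℂ)} (hG : IsAlgG G) (hC : C * C = 1)
    (hP : P.map (starRingEnd ℂ) = cq C * P) (hdet : P.det ≠ 0)
    {T T' : Matrix (Fin n) (Fin n) ℂ} (h1 : T * T' = 1) (h2 : ∀ i j, T' i j ∈ QA)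
    {z : GL (Fin n) ℂ} (hz : z ∈ G) (hzT : (z : Matrix (Fin n) (Fin n) ℂ) = P * T) :
    PtM P {M | ∃ x ∈ interG G (cG hC), (x : Matrix (Fin n) (Fin n) ℂ) = M} := by
  have h1' : T' * T = 1 := mul_eq_one_comm.1 h1
  obtain ⟨z', hz', hzT'⟩ := conj_mem hG hz
  have hz1 : (z' : Matrix (Fin n) (Fin n) ℂ) = cq C * P * T.map (starRingEnd ℂ) := by
    rw [hzT', hzT, Matrix.map_mul, hP]
  let Tq : Matrix (Fin n) (Fin n) QBar := Matrix.of fun i j => ⟨T' i j, h2 i j⟩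
  have hcj : ∀ i j, IsAlgebraic ℚ ((T'.map (starRingEnd ℂ)) i j) := fun i j =>
    conj_alg (mem_QA.1 (h2 i j))
  let Tc : Matrix (Fin n) (Fin n) QBar :=
    Matrix.of fun i j => ⟨(T'.map (starRingEnd ℂ)) i j, mem_algebraicClosure_iff.2 (hcj i j)⟩
  let Cb : Matrix (Fin n) (Fin n) QBar := C.map (algebraMap ℚ QBar)
  have e1 : qb Tq = T' := by
    ext i j
    rfl
  have e2 : qb Tc = T'.map (starRingEnd ℂ) := by
    ext i j
    rfl
  have e3 : qb Cb = cq C := by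
    ext i j
    exact (IsScalarTower.algebraMap_apply ℚ QBar ℂ (C i j)).symm
  have e4 : qb (1 : Matrix (Fin n) (Fin n) QBar) = 1 :=
    Matrix.map_one _ (map_zero _) (map_one _)
  let Pu : GL (Fin n) ℂ := Matrix.GeneralLinearGroup.mkOfDetNeZero P hdet
  have hPu : (Pu : Matrix (Fin n) (Fin n) ℂ) = P := rfl
  have hCC : cq C * cq C = 1 := by rw [← cq_mul, hC, cq_one']
  have hinv : ∀ {a : GL (Fin n) ℂ} {b : Matrix (Fin n) (Fin n) ℂ},
      b * (a : Matrix (Fin n) (Fin n) ℂ) = 1 → ((a⁻¹ : GL (Fin n) ℂ) : Matrix _ _ ℂ) = b := by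
    intro a b hab
    calc ((a⁻¹ : GL (Fin n) ℂ) : Matrix (Fin n) (Fin n) ℂ)
        = b * (a : Matrix (Fin n) (Fin n) ℂ) * ((a⁻¹ : GL (Fin n) ℂ) : Matrix _ _ ℂ) := by
          rw [hab, one_mul]
      _ = b := by rw [mul_assoc, Units.mul_inv, mul_one]
  have hPi : ((Pu⁻¹ : GL (Fin n) ℂ) : Matrix (Fin n) (Fin n) ℂ) * P = 1 := by
    rw [← hPu]
    exact Units.inv_mul Pu
  have hTc : T'.map (starRingEnd ℂ) * T.map (starRingEnd ℂ) = 1 := conj_inv_map h1'
  have hTc' : T.map (starRingEnd ℂ) * T'.map (starRingEnd ℂ) = 1 := conj_inv_map h1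
  have f0 : ((z⁻¹ : GL (Fin n) ℂ) : Matrix (Fin n) (Fin n) ℂ) =
      qb Tq * ((Pu⁻¹ : GL (Fin n) ℂ) : Matrix (Fin n) (Fin n) ℂ) *
        qb (1 : Matrix (Fin n) (Fin n) QBar) := by
    rw [e1, e4, mul_one]
    refine hinv ?_
    rw [hzT, mul_assoc, ← mul_assoc _ P, hPi, one_mul, h1']
  have f1 : ((z'⁻¹ : GL (Fin n) ℂ) : Matrix (Fin n) (Fin n) ℂ) =
      qb Tc * ((Pu⁻¹ : GL (Fin n) ℂ) : Matrix (Fin n) (Fin n) ℂ) * qb Cb := by
    rw [e2, e3]
    refine hinv ?_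
    rw [hz1]
    calc T'.map (starRingEnd ℂ) * ((Pu⁻¹ : GL (Fin n) ℂ) : Matrix (Fin n) (Fin n) ℂ) * cq C *
          (cq C * P * T.map (starRingEnd ℂ))
        = T'.map (starRingEnd ℂ) * ((Pu⁻¹ : GL (Fin n) ℂ) : Matrix (Fin n) (Fin n) ℂ) *
            (cq C * cq C) * P * T.map (starRingEnd ℂ) := by simp only [mul_assoc]
      _ = T'.map (starRingEnd ℂ) * (((Pu⁻¹ : GL (Fin n) ℂ) : Matrix (Fin n) (Fin n) ℂ) * P) *
            T.map (starRingEnd ℂ) := by rw [hCC, mul_one]; simp only [mul_assoc]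
      _ = 1 := by rw [hPi, mul_one, hTc]
  obtain ⟨X, hX, hX'⟩ := exists_alg_pt hG (fun i => if i = 0 then Tq else Tc)
    (fun i => if i = 0 then 1 else Cb) Pu⁻¹ (fun i => if i = 0 then z⁻¹ else z'⁻¹)
    (by
      intro i
      fin_cases i
      · exact G.inv_mem hz
      · exact G.inv_mem hz')
    (by
      intro i
      fin_cases i
      · exact f0
      · exact f1)
  obtain ⟨u0, hu0, hu0'⟩ := hX' 0
  obtain ⟨u1, hu1, hu1'⟩ := hX' 1
  have g0 : (u0 : Matrix (Fin n) (Fin n) ℂ) = T' * qb X := by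
    have h3 : (u0 : Matrix (Fin n) (Fin n) ℂ) = qb Tq * qb X * qb 1 := hu0'
    rw [h3, e1, e4, mul_one]
  have g1 : (u1 : Matrix (Fin n) (Fin n) ℂ) = T'.map (starRingEnd ℂ) * qb X * cq C := by
    have h3 : (u1 : Matrix (Fin n) (Fin n) ℂ) = qb Tc * qb X * qb Cb := hu1'
    rw [h3, e2, e3]
  have hXa : ∀ i j, IsAlgebraic ℚ ((qb X) i j) := fun i j =>
    mem_algebraicClosure_iff.1 (X i j).2
  have hXd : (qb X).det ≠ 0 := by
    rw [qb_det]
    exact (map_ne_zero _).2 hX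
  obtain ⟨X', h5, h6⟩ := Pool.Agent.R917.alg_inv hXa hXd
  refine ⟨algGrp_of (interG_alg hG hC), qb X, X', h5, h6, z * u0, ?_, ?_⟩
  · rw [mem_interG]
    refine ⟨G.mul_mem hz hu0, ?_⟩
    have h7 : cG hC * (z * u0) * (cG hC)⁻¹ = z' * u1 := by
      apply Units.ext
      rw [Units.val_mul, Units.val_mul, Units.val_mul, Units.val_mul, cG_inv, cG_val, hzT, g0,
        hz1, g1]
      calc cq C * (P * T * (T' * qb X)) * cq C
          = cq C * P * (T * T') * qb X * cq C := by simp only [mul_assoc]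
        _ = cq C * P * (T.map (starRingEnd ℂ) * T'.map (starRingEnd ℂ)) * qb X * cq C := by
            rw [h1, hTc']
        _ = _ := by simp only [mul_assoc]
    rw [h7]
    exact G.mul_mem hz' hu1
  · rw [Units.val_mul, hzT, g0]
    calc P * T * (T' * qb X) = P * (T * T') * qb X := by simp only [mul_assoc]
      _ = P * qb X := by rw [h1, mul_one]

/-- The conjugation normalizes the intersection. -/
theorem inter_conj {G : Subgroup (GL (Fin n) ℂ)} (hC : C * C = 1) {u : GL (Fin n) ℂ}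
    (hu : u ∈ interG G (cG hC)) : cG hC * u * (cG hC)⁻¹ ∈ interG G (cG hC) := by
  rw [mem_interG] at hu ⊢
  refine ⟨hu.2, ?_⟩
  have h1 : cG hC * (cG hC * u * (cG hC)⁻¹) * (cG hC)⁻¹ = u := by
    have h2 : cG hC * cG hC = 1 := by
      apply Units.ext
      rw [Units.val_mul, cG_val, ← cq_mul, hC, cq_one', Units.val_one]
    have h3 : (cG hC)⁻¹ = cG hC := inv_eq_of_mul_eq_one_left h2
    rw [h3]
    calc cG hC * (cG hC * u * cG hC) * cG hC = (cG hC * cG hC) * u * (cG hC * cG hC) := by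
          simp only [mul_assoc]
      _ = u := by rw [h2, one_mul, mul_one]
  rw [h1]
  exact hu.1

theorem final (h : Mot w B P) (hW : WRel w B Wt) (hH : PtM P H) (hF : IsConj A F)
    (hZ : ∀ E ∈ A.EA, (∀ E' ∈ A.EA, E * E' = E' * E) → E * F = F * E) (hC : CRel F w B C)
    (hst : ∀ Z : Matrix (Fin n) (Fin n) ℂ, (∀ d, Stab H d Z) → ∀ d, Stab H d
      (cq C * Z * cq C))
    (h0 : ∀ Z ∈ SC B, cq C * Z = Z * cq C → ∀ d, Stab H d Z)
    {X : Module.End ℚ A.H1} (hX : X ∈ A.NA) {M : Matrix (Fin n) (Fin n) ℚ} (hM : Rel B X M) :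
    M ∈ LQ H := by
  have hq := qM_full h hW hH
  have hN := part2aH h hW hH.grp hq (sitF h hW hF hZ hC hst) (fun Z hZ' hx d => by
    rw [cG_val] at hx
    exact h0 Z hZ' hx d)
  have hle : A.NA = qM B Wt H := le_antisymm hN fun X hX => hX.1
  obtain ⟨Z, hZ1, d, hd, rfl, hc⟩ := full_NA.dec hX
  obtain ⟨M1, hM1⟩ := h.st Z hZ1
  have h1 : M1 ∈ LQ H := by
    have hE : Z ∈ A.EA := fun Y hY => (hc Y (A.LA_le_NA hY)).symm
    have hE' : ∀ E' ∈ A.EA, Z * E' = E' * Z := fun E' hE' => A.NA_comm hZ1 hE'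
    have h2 : F * Z * F = Z := by
      rw [← hZ Z hE hE', mul_assoc, conj_sq' hF, mul_one]
    have h3 := hC.rel hF hM1
    rw [h2] at h3
    have h4 := hM1.uniq h.li h3
    have hCC := hC.sq h.li hF
    have h5 : C * M1 = M1 * C := by
      calc C * M1 = C * (C * M1 * C) := by rw [← h4]
        _ = (C * C) * M1 * C := by simp only [mul_assoc]
        _ = M1 * C := by rw [hCC, one_mul]
    refine h0 (cq M1) (Submodule.subset_span ⟨Z, hZ1, M1, hM1, rfl⟩) ?_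
    rw [← cq_mul, ← cq_mul, h5]
  rw [hle] at hd
  obtain ⟨-, M2, hM2, h2⟩ := der_mem h hW hd
  rw [hM.uniq h.li (hM1.add hM2)]
  exact (LQ H).add_mem h1 h2

end Pool.Agent.Helper5.ER
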